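import Mathlib

/-!
# THEOREM ATT+ (upper density one), abstract ergodic lemmas (MP_8f2e1c_an, think 2069; Mathlib only)

`ab_sol`, `ab_bnd`, `ab_one`, `ab_two`, `ab_hb`: from `Pool.Agent.H31.LOC.Abm` (there private). `abd`: `T` a contraction, `P` a projection which commutes with `T` and with `I`,
`x k` the resolvent solutions for `u₀` at `s k → 1`, `x k - I (x k) → 0`; if every `u = P u` has resolvent solutions `y` with `‖I y‖ ≤ β ‖u‖ + ε` for `s` near `1`, `β < 1`, then `P u₀` is in the closure of the range of `1 - T`.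
`abel_fin`: finite Abel sums of a sequence with partial sums `≤ A + β n`. `ab_exp`: the expansion of the seminorm of a resolvent solution.
-/

set_option autoImplicit false

open Filter Topology Metric Set

namespace Pool.Agent.H15.LOC

theorem ab_norm {s : ℝ} (h1 : s < 1) : ‖(1 - s : ℂ)‖ = 1 - s := by
  have h2 : (1 - s : ℂ) = ((1 - s : ℝ) : ℂ) := by push_cast; ring
  rw [h2, Complex.norm_real, Real.norm_of_nonneg (by linarith)]

theorem ab_norm' {s : ℝ} (h0 : 0 < s) : ‖(s : ℂ)‖ = s := by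
  rw [Complex.norm_real, Real.norm_of_nonneg h0.le]

/-- the equation `x - s T x = w` has a solution -/
theorem ab_sol {E : Type*} [NormedAddCommGroup E] [NormedSpace ℂ E] [CompleteSpace E]
    (T : E →L[ℂ] E) (hT : ∀ u, ‖T u‖ ≤ ‖u‖) {s : ℝ} (h0 : 0 < s) (h1 : s < 1) (w : E) :
    ∃ x : E, x - (s : ℂ) • T x = w := by
  have hT1 : ‖T‖ ≤ 1 := T.opNorm_le_bound zero_le_one fun u => by rw [one_mul]; exact hT u
  have hn : ‖(s : ℂ) • T‖ < 1 := by
    rw [norm_smul, ab_norm' h0]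
    calc s * ‖T‖ ≤ s * 1 := mul_le_mul_of_nonneg_left hT1 h0.le
      _ < 1 := by linarith
  obtain ⟨U, hU⟩ := isUnit_one_sub_of_norm_lt_one hn
  refine ⟨(↑U⁻¹ : E →L[ℂ] E) w, ?_⟩
  have h2 : ((U : E →L[ℂ] E) * (↑U⁻¹ : E →L[ℂ] E)) w = w := by
    rw [Units.mul_inv]
    rfl
  rw [hU] at h2
  have h3 : ((1 - (s : ℂ) • T) * (↑U⁻¹ : E →L[ℂ] E)) w =
      (↑U⁻¹ : E →L[ℂ] E) w - (s : ℂ) • T ((↑U⁻¹ : E →L[ℂ] E) w) := rfl
  rw [← h3]
  exact h2

/-- the bound of the resolvent -/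
theorem ab_bnd {E : Type*} [NormedAddCommGroup E] [NormedSpace ℂ E]
    (T : E →L[ℂ] E) (hT : ∀ u, ‖T u‖ ≤ ‖u‖) {s : ℝ} (h0 : 0 < s) (h1 : s < 1) (y z : E) {B : ℝ}
    (hz : ‖z‖ ≤ (1 - s) * B) (h : y - (s : ℂ) • T y = z) : ‖y‖ ≤ B := by
  have h2 : y = (s : ℂ) • T y + z := by rw [← h]; abel
  have h3 : ‖y‖ ≤ s * ‖y‖ + (1 - s) * B := by
    calc ‖y‖ = ‖(s : ℂ) • T y + z‖ := by rw [← h2]
      _ ≤ ‖(s : ℂ) • T y‖ + ‖z‖ := norm_add_le _ _
      _ ≤ s * ‖y‖ + (1 - s) * B := by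
        refine add_le_add ?_ hz
        rw [norm_smul, ab_norm' h0]
        exact mul_le_mul_of_nonneg_left (hT y) h0.le
  have h4 : (1 - s) * ‖y‖ ≤ (1 - s) * B := by linarith
  exact le_of_mul_le_mul_left h4 (by linarith)

/-- step (1): a vector in the closure of the range of `1 - T` -/
theorem ab_one {E : Type*} [NormedAddCommGroup E] [NormedSpace ℂ E]
    (T : E →L[ℂ] E) (hT : ∀ u, ‖T u‖ ≤ ‖u‖) (w : E)
    (hw : w ∈ closure (Set.range fun v : E => v - T v)) {ε : ℝ} (hε : 0 < ε) :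
    ∃ δ : ℝ, 0 < δ ∧ ∀ s : ℝ, 0 < s → s < 1 → 1 - s < δ → ∀ x : E,
      x - (s : ℂ) • T x = (1 - s : ℂ) • w → ‖x‖ ≤ ε := by
  obtain ⟨_, ⟨v, rfl⟩, hv⟩ := Metric.mem_closure_iff.1 hw (ε / 2) (by linarith)
  simp only at hv
  rw [dist_eq_norm] at hv
  refine ⟨ε / (4 * (‖v‖ + 1)), by positivity, fun s h0 h1 hs x hx => ?_⟩
  have h2 : (x - (1 - s : ℂ) • v) - (s : ℂ) • T (x - (1 - s : ℂ) • v) =
      (1 - s : ℂ) • ((w - (v - T v)) - (1 - s : ℂ) • T v) := by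
    rw [map_sub, map_smul]
    have h3 : x - (1 - s : ℂ) • v - (s : ℂ) • (T x - (1 - s : ℂ) • T v) =
        (x - (s : ℂ) • T x) - (1 - s : ℂ) • v + ((s : ℂ) * (1 - s)) • T v := by
      module
    rw [h3, hx]
    module
  have h5 : ‖(1 - s : ℂ) • T v‖ ≤ (1 - s) * ‖v‖ := by
    rw [norm_smul, ab_norm h1]
    exact mul_le_mul_of_nonneg_left (hT v) (by linarith)
  have h4 : ‖x - (1 - s : ℂ) • v‖ ≤ ε / 2 + (1 - s) * ‖v‖ := by
    refine ab_bnd T hT h0 h1 _ _ ?_ h2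
    rw [norm_smul, ab_norm h1]
    refine mul_le_mul_of_nonneg_left ?_ (by linarith)
    exact (norm_sub_le _ _).trans (add_le_add hv.le h5)
  have h6 : ‖(1 - s : ℂ) • v‖ = (1 - s) * ‖v‖ := by
    rw [norm_smul, ab_norm h1]
  have h7 : ‖x‖ ≤ ‖x - (1 - s : ℂ) • v‖ + ‖(1 - s : ℂ) • v‖ := by
    have := norm_add_le (x - (1 - s : ℂ) • v) ((1 - s : ℂ) • v)
    rwa [sub_add_cancel] at this
  have h8 : (1 - s) * ‖v‖ ≤ ε / 4 := by
    have h9 : (1 - s) * (‖v‖ + 1) ≤ ε / 4 := by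
      have h10 : (1 - s) * (‖v‖ + 1) ≤ ε / (4 * (‖v‖ + 1)) * (‖v‖ + 1) :=
        mul_le_mul_of_nonneg_right hs.le (by positivity)
      have h11 : ε / (4 * (‖v‖ + 1)) * (‖v‖ + 1) = ε / 4 := by
        field_simp
      linarith
    nlinarith [norm_nonneg v]
  linarith

/-- step (2): Abel means of a sequence which tends to `0` -/
theorem ab_two {E : Type*} [NormedAddCommGroup E] [NormedSpace ℂ E]
    (T : E →L[ℂ] E) (hT : ∀ u, ‖T u‖ ≤ ‖u‖) (p : E → ℝ) (p0 : ∀ u, 0 ≤ p u)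
    (p1 : ∀ u, p u ≤ ‖u‖) (p2 : ∀ u v, p (u + v) ≤ p u + p v)
    (p3 : ∀ (c : ℂ) (u : E), p (c • u) = ‖c‖ * p u) (w : E)
    (hQ : Tendsto (fun k : ℕ => p ((T ^ k) w)) atTop (𝓝 0)) {ε : ℝ} (hε : 0 < ε) :
    ∃ δ : ℝ, 0 < δ ∧ ∀ s : ℝ, 0 < s → s < 1 → 1 - s < δ → ∀ x : E,
      x - (s : ℂ) • T x = (1 - s : ℂ) • w → p x ≤ ε := by
  have hpow : ∀ (k : ℕ) (u : E), ‖(T ^ k) u‖ ≤ ‖u‖ := by
    intro k
    induction k with
    | zero => intro u; rw [pow_zero]; exact le_rfl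
    | succ k ih =>
      intro u
      rw [pow_succ]
      exact (ih (T u)).trans (hT u)
  obtain ⟨K, hK⟩ := (Metric.tendsto_atTop.1 hQ) (ε / 4) (by linarith)
  have hK' : ∀ k, K ≤ k → p ((T ^ k) w) ≤ ε / 4 := by
    intro k hk
    have h1 := hK k hk
    rw [Real.dist_0_eq_abs] at h1
    exact (le_abs_self _).trans h1.le
  refine ⟨ε / (4 * (K * ‖w‖ + 1)), by positivity, fun s h0 h1 hs x hx => ?_⟩
  have hxn : ‖x‖ ≤ ‖w‖ := by
    refine ab_bnd T hT h0 h1 _ _ ?_ hx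
    rw [norm_smul, ab_norm h1]
  -- the expansion
  have hexp : ∀ N : ℕ, p x ≤ (1 - s) * ∑ k ∈ Finset.range N, s ^ k * p ((T ^ k) w) +
      s ^ N * p ((T ^ N) x) := by
    intro N
    induction N with
    | zero => simp
    | succ N ih =>
      refine ih.trans ?_
      rw [Finset.sum_range_succ]
      have h2 : (T ^ N) x = (1 - s : ℂ) • (T ^ N) w + (s : ℂ) • (T ^ (N + 1)) x := by
        have h3 : x = (1 - s : ℂ) • w + (s : ℂ) • T x := by rw [← hx]; abel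
        have h4 : (T ^ (N + 1)) x = (T ^ N) (T x) := by rw [pow_succ]; rfl
        rw [h4, ← map_smul, ← map_smul, ← map_add, ← h3]
      have h5 : p ((T ^ N) x) ≤ (1 - s) * p ((T ^ N) w) + s * p ((T ^ (N + 1)) x) := by
        calc p ((T ^ N) x) = p ((1 - s : ℂ) • (T ^ N) w + (s : ℂ) • (T ^ (N + 1)) x) := by
              rw [← h2]
          _ ≤ p ((1 - s : ℂ) • (T ^ N) w) + p ((s : ℂ) • (T ^ (N + 1)) x) := p2 _ _
          _ = (1 - s) * p ((T ^ N) w) + s * p ((T ^ (N + 1)) x) := by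
              rw [p3, p3, ab_norm h1, ab_norm' h0]
      have h6 := mul_le_mul_of_nonneg_left h5 (pow_nonneg h0.le N)
      rw [pow_succ]
      linarith
  -- the sum
  have hsum : ∀ N : ℕ, (1 - s) * ∑ k ∈ Finset.range N, s ^ k * p ((T ^ k) w) ≤
      (1 - s) * (K * ‖w‖) + ε / 4 := by
    intro N
    have h2 : ∀ k ∈ Finset.range N, s ^ k * p ((T ^ k) w) ≤
        (if k < K then ‖w‖ else 0) + s ^ k * (ε / 4) := by
      intro k _
      split_ifs with hk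
      · have h3 : p ((T ^ k) w) ≤ ‖w‖ := (p1 _).trans (hpow k w)
        have h4 : s ^ k ≤ 1 := pow_le_one₀ h0.le h1.le
        have h5 : 0 ≤ s ^ k := pow_nonneg h0.le k
        have h6 : s ^ k * p ((T ^ k) w) ≤ 1 * ‖w‖ := mul_le_mul h4 h3 (p0 _) zero_le_one
        have h7 : 0 ≤ s ^ k * (ε / 4) := mul_nonneg h5 (by linarith)
        linarith
      · rw [zero_add]
        exact mul_le_mul_of_nonneg_left (hK' k (not_lt.1 hk)) (pow_nonneg h0.le k)
    have h3 := Finset.sum_le_sum h2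
    rw [Finset.sum_add_distrib, ← Finset.sum_mul] at h3
    have h4 : ∑ k ∈ Finset.range N, (if k < K then ‖w‖ else 0) ≤ K * ‖w‖ := by
      rw [← Finset.sum_filter, Finset.sum_const, nsmul_eq_mul]
      refine mul_le_mul_of_nonneg_right ?_ (norm_nonneg w)
      have h5 : (Finset.filter (fun k => k < K) (Finset.range N)).card ≤ (Finset.range K).card := by
        refine Finset.card_le_card fun k hk => ?_
        rw [Finset.mem_filter] at hk
        exact Finset.mem_range.2 hk.2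
      rw [Finset.card_range] at h5
      exact_mod_cast h5
    have h5 : (1 - s) * ∑ k ∈ Finset.range N, s ^ k ≤ 1 := by
      have h6 := mul_neg_geom_sum s N
      rw [h6]
      have := pow_nonneg h0.le N
      linarith
    have h6 : (1 - s) * ∑ k ∈ Finset.range N, s ^ k * p ((T ^ k) w) ≤
        (1 - s) * (K * ‖w‖ + (∑ k ∈ Finset.range N, s ^ k) * (ε / 4)) :=
      mul_le_mul_of_nonneg_left (by linarith) (by linarith)
    have h7 : (1 - s) * (K * ‖w‖ + (∑ k ∈ Finset.range N, s ^ k) * (ε / 4)) =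
        (1 - s) * (K * ‖w‖) + ((1 - s) * ∑ k ∈ Finset.range N, s ^ k) * (ε / 4) := by ring
    have h8 : ((1 - s) * ∑ k ∈ Finset.range N, s ^ k) * (ε / 4) ≤ 1 * (ε / 4) :=
      mul_le_mul_of_nonneg_right h5 (by linarith)
    linarith
  have hlim : Tendsto (fun N : ℕ => s ^ N * ‖w‖) atTop (𝓝 0) := by
    have := (tendsto_pow_atTop_nhds_zero_of_lt_one h0.le h1).mul_const ‖w‖
    rwa [zero_mul] at this
  obtain ⟨N, hN⟩ := ((Metric.tendsto_atTop.1 hlim) (ε / 4) (by linarith))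
  have hN' := hN N le_rfl
  rw [Real.dist_0_eq_abs] at hN'
  have h2 : s ^ N * p ((T ^ N) x) ≤ ε / 4 := by
    have h3 : p ((T ^ N) x) ≤ ‖w‖ := (p1 _).trans ((hpow N x).trans hxn)
    have h4 := mul_le_mul_of_nonneg_left h3 (pow_nonneg h0.le N)
    have h5 := (le_abs_self _).trans hN'.le
    linarith
  have h3 : (1 - s) * (K * ‖w‖) ≤ ε / 4 := by
    have h10 : (1 - s) * (K * ‖w‖ + 1) ≤ ε / (4 * (K * ‖w‖ + 1)) * (K * ‖w‖ + 1) :=
      mul_le_mul_of_nonneg_right hs.le (by positivity)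
    have h11 : ε / (4 * (K * ‖w‖ + 1)) * (K * ‖w‖ + 1) = ε / 4 := by
      field_simp
    nlinarith
  have h4 := hexp N
  have h5 := hsum N
  linarith

/-- Hahn-Banach -/
theorem ab_hb {E : Type*} [NormedAddCommGroup E] [NormedSpace ℂ E] (T : E →L[ℂ] E) (w : E)
    (hw : ∀ ℓ : E →L[ℂ] ℂ, (∀ u, ℓ (T u) = ℓ u) → ℓ w = 0) :
    w ∈ closure (Set.range fun v : E => v - T v) := by
  let R : E →L[ℂ] E := ContinuousLinearMap.id ℂ E - T
  let S : Submodule ℂ E := (LinearMap.range (R : E →ₗ[ℂ] E)).topologicalClosure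
  have hS : IsClosed (S : Set E) := Submodule.isClosed_topologicalClosure _
  have hmem : w ∈ S := by
    by_contra hcon
    have hne : (S.mkQL w : E ⧸ S) ≠ 0 := by
      intro h
      exact hcon ((Submodule.Quotient.mk_eq_zero S).1 h)
    obtain ⟨g, _, hg⟩ := exists_dual_vector ℂ (S.mkQL w : E ⧸ S) (norm_ne_zero_iff.2 hne)
    have h1 : (g.comp S.mkQL) w = 0 := by
      refine hw (g.comp S.mkQL) fun u => ?_
      have h2 : u - T u ∈ S :=
        Submodule.le_topologicalClosure _ ⟨u, rfl⟩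
      have h3 : S.mkQL (u - T u) = 0 := (Submodule.Quotient.mk_eq_zero S).2 h2
      rw [map_sub, sub_eq_zero] at h3
      change g (S.mkQL (T u)) = g (S.mkQL u)
      rw [h3]
    have h2 : g (S.mkQL w) = 0 := h1
    rw [h2] at hg
    have h3 : ‖(S.mkQL w : E ⧸ S)‖ = 0 := RCLike.ofReal_eq_zero.1 hg.symm
    exact hne (norm_eq_zero.1 h3)
  have h1 : (S : Set E) = closure (Set.range fun v : E => v - T v) := by
    rw [Submodule.topologicalClosure_coe]
    rfl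
  rw [← h1]
  exact hmem


/-- the expansion -/
theorem ab_exp {E : Type*} [NormedAddCommGroup E] [NormedSpace ℂ E]
    (T : E →L[ℂ] E) (hT : ∀ u, ‖T u‖ ≤ ‖u‖) (p : E → ℝ)
    (p1 : ∀ u, p u ≤ ‖u‖) (p2 : ∀ u v, p (u + v) ≤ p u + p v)
    (p3 : ∀ (c : ℂ) (u : E), p (c • u) = ‖c‖ * p u) (w : E) {s : ℝ} (h0 : 0 < s) (h1 : s < 1) (x : E)
    (hx : x - (s : ℂ) • T x = (1 - s : ℂ) • w) (N : ℕ) :
    p x ≤ (1 - s) * ∑ k ∈ Finset.range N, s ^ k * p ((T ^ k) w) + s ^ N * ‖w‖ := by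
  have hpow : ∀ (k : ℕ) (u : E), ‖(T ^ k) u‖ ≤ ‖u‖ := by
    intro k
    induction k with
    | zero => intro u; rw [pow_zero]; exact le_rfl
    | succ k ih =>
      intro u
      rw [pow_succ]
      exact (ih (T u)).trans (hT u)
  have hxn : ‖x‖ ≤ ‖w‖ := by
    refine ab_bnd T hT h0 h1 _ _ ?_ hx
    rw [norm_smul, ab_norm h1]
  have hexp : ∀ N : ℕ, p x ≤ (1 - s) * ∑ k ∈ Finset.range N, s ^ k * p ((T ^ k) w) +
      s ^ N * p ((T ^ N) x) := by
    intro N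
    induction N with
    | zero => simp
    | succ N ih =>
      refine ih.trans ?_
      rw [Finset.sum_range_succ]
      have h2 : (T ^ N) x = (1 - s : ℂ) • (T ^ N) w + (s : ℂ) • (T ^ (N + 1)) x := by
        have h3 : x = (1 - s : ℂ) • w + (s : ℂ) • T x := by rw [← hx]; abel
        have h4 : (T ^ (N + 1)) x = (T ^ N) (T x) := by rw [pow_succ]; rfl
        rw [h4, ← map_smul, ← map_smul, ← map_add, ← h3]
      have h5 : p ((T ^ N) x) ≤ (1 - s) * p ((T ^ N) w) + s * p ((T ^ (N + 1)) x) := by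
        calc p ((T ^ N) x) = p ((1 - s : ℂ) • (T ^ N) w + (s : ℂ) • (T ^ (N + 1)) x) := by
              rw [← h2]
          _ ≤ p ((1 - s : ℂ) • (T ^ N) w) + p ((s : ℂ) • (T ^ (N + 1)) x) := p2 _ _
          _ = (1 - s) * p ((T ^ N) w) + s * p ((T ^ (N + 1)) x) := by
              rw [p3, p3, ab_norm h1, ab_norm' h0]
      have h6 := mul_le_mul_of_nonneg_left h5 (pow_nonneg h0.le N)
      rw [pow_succ]
      linarith
  refine (hexp N).trans (add_le_add le_rfl ?_)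
  exact mul_le_mul_of_nonneg_left ((p1 _).trans ((hpow N x).trans hxn)) (pow_nonneg h0.le N)

/-- finite Abel sums -/
theorem abel_fin {c : ℕ → ℝ} {A β : ℝ} (hc : ∀ n : ℕ, ∑ k ∈ Finset.range n, c k ≤ A + β * n) {s : ℝ} (h0 : 0 < s) (h1 : s < 1)
    (K : ℕ) : ∑ k ∈ Finset.range K, s ^ k * c k ≤ A + β * ∑ k ∈ Finset.range K, s ^ k := by
  have hT : ∀ n : ℕ, ∑ k ∈ Finset.range n, (c k - β) ≤ A := by
    intro n
    rw [Finset.sum_sub_distrib, Finset.sum_const, Finset.card_range, nsmul_eq_mul]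
    have := hc n
    linarith
  have key : ∀ K : ℕ, ∑ k ∈ Finset.range K, s ^ k * (c k - β) ≤
      A - s ^ K * (A - ∑ k ∈ Finset.range K, (c k - β)) := by
    intro K
    induction K with
    | zero => simp
    | succ K ih =>
      rw [Finset.sum_range_succ]
      have h2 := hT (K + 1)
      have h3 : s ^ (K + 1) ≤ s ^ K := by
        rw [pow_succ]
        exact mul_le_of_le_one_right (pow_nonneg h0.le K) h1.le
      have h4 : s ^ (K + 1) * (A - ∑ k ∈ Finset.range (K + 1), (c k - β)) ≤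
          s ^ K * (A - ∑ k ∈ Finset.range (K + 1), (c k - β)) :=
        mul_le_mul_of_nonneg_right h3 (by linarith)
      rw [Finset.sum_range_succ] at h4 ⊢
      linarith
  have h2 := key K
  have h3 : 0 ≤ s ^ K * (A - ∑ k ∈ Finset.range K, (c k - β)) :=
    mul_nonneg (pow_nonneg h0.le K) (by linarith [hT K])
  have h4 : ∑ k ∈ Finset.range K, s ^ k * (c k - β) =
      ∑ k ∈ Finset.range K, s ^ k * c k - β * ∑ k ∈ Finset.range K, s ^ k := by
    rw [Finset.mul_sum, ← Finset.sum_sub_distrib]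
    exact Finset.sum_congr rfl fun k _ => by ring
  rw [h4] at h2
  linarith

/-- the projection of `u₀` is in the closure of the range of `1 - T` -/
theorem abd {E : Type*} [NormedAddCommGroup E] [NormedSpace ℂ E] [CompleteSpace E] (T I P : E →L[ℂ] E)
    (hT : ∀ u, ‖T u‖ ≤ ‖u‖) (hI : ∀ u, ‖I u‖ ≤ ‖u‖) (hP : ∀ u, ‖P u‖ ≤ ‖u‖) (hPP : ∀ u, P (P u) = P u)
    (hTP : ∀ u, T (P u) = P (T u)) (hIP : ∀ u, I (P u) = P (I u)) (u₀ : E) (s : ℕ → ℝ) (s0 : ∀ k, 0 < s k)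
    (s1 : ∀ k, s k < 1) (sl : Tendsto s atTop (𝓝 1)) (x : ℕ → E)
    (hx : ∀ k, x k - (s k : ℂ) • T (x k) = (1 - s k : ℂ) • u₀)
    (hoff : Tendsto (fun k => ‖x k - I (x k)‖) atTop (𝓝 0)) {β : ℝ} (hβ0 : 0 ≤ β) (hβ1 : β < 1)
    (hvis : ∀ u : E, P u = u → ∀ ε : ℝ, 0 < ε → ∃ η : ℝ, 0 < η ∧ ∀ t : ℝ, 0 < t → t < 1 → 1 - t < η → ∀ y : E,
      y - (t : ℂ) • T y = (1 - t : ℂ) • u → ‖I y‖ ≤ β * ‖u‖ + ε) :
    P u₀ ∈ closure (Set.range fun v : E => v - T v) := by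
  have hy : ∀ k, P (x k) - (s k : ℂ) • T (P (x k)) = (1 - s k : ℂ) • P u₀ := by
    intro k
    rw [hTP, ← map_smul, ← map_sub, hx, map_smul]
  have hyb : ∀ k, ‖P (x k)‖ ≤ ‖u₀‖ := by
    intro k
    refine (hP _).trans ?_
    refine ab_bnd T hT (s0 k) (s1 k) _ _ ?_ (hx k)
    rw [norm_smul, ab_norm (s1 k)]
  have hran : ∀ k, ∃ v : E, v - T v = P u₀ - P (x k) := by
    intro k
    have h1 : (1 - s k : ℂ) ≠ 0 := by
      intro h
      have h2 := ab_norm (s1 k)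
      rw [h, norm_zero] at h2
      linarith [s1 k]
    refine ⟨((s k : ℂ) / (1 - s k)) • P (x k), ?_⟩
    have h3 : P u₀ = (1 - s k : ℂ)⁻¹ • (P (x k) - (s k : ℂ) • T (P (x k))) := by
      rw [hy k, smul_smul, inv_mul_cancel₀ h1, one_smul]
    rw [h3, map_smul, smul_sub, smul_smul]
    have h4 : ((1 - s k : ℂ)⁻¹ • P (x k) - ((1 - s k : ℂ)⁻¹ * (s k : ℂ)) • T (P (x k))) - P (x k) =
        ((1 - s k : ℂ)⁻¹ - 1) • P (x k) - ((1 - s k : ℂ)⁻¹ * (s k : ℂ)) • T (P (x k)) := by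
      module
    have h5 : ((1 - s k : ℂ)⁻¹ - 1) = (s k : ℂ) / (1 - s k) := by
      field_simp
      ring
    have h6 : ((1 - s k : ℂ)⁻¹ * (s k : ℂ)) = (s k : ℂ) / (1 - s k) := by
      rw [div_eq_mul_inv, mul_comm]
    rw [h4, h5, h6]
  -- `1 - s k` is small
  have hsm : ∀ η : ℝ, 0 < η → ∀ᶠ k in atTop, 1 - s k < η := by
    intro η hη
    filter_upwards [sl.eventually (lt_mem_nhds (show (1 - η : ℝ) < 1 by linarith))] with k hk
    linarith
  -- the comparison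
  have hcmp : ∀ (m : ℕ) (ε : ℝ), 0 < ε → ∀ᶠ k in atTop, ‖P (x k)‖ ≤ β * ‖P (x m)‖ + ε := by
    intro m ε hε
    obtain ⟨η₁, hη₁, h1⟩ := hvis (P (x m)) (hPP _) (ε / 4) (by linarith)
    obtain ⟨η₂, hη₂, h2⟩ := ab_one T hT (P u₀ - P (x m)) (subset_closure (by
      obtain ⟨v, hv⟩ := hran m
      exact ⟨v, hv⟩)) (show (0 : ℝ) < ε / 4 by linarith)
    filter_upwards [hsm η₁ hη₁, hsm η₂ hη₂, hoff.eventually (gt_mem_nhds (show (0 : ℝ) < ε / 4 by linarith))]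
      with k k1 k2 k3
    obtain ⟨z, hz⟩ := ab_sol T hT (s0 k) (s1 k) ((1 - s k : ℂ) • P (x m))
    have h3 := h1 (s k) (s0 k) (s1 k) k1 z hz
    have h4 : (P (x k) - z) - (s k : ℂ) • T (P (x k) - z) = (1 - s k : ℂ) • (P u₀ - P (x m)) := by
      rw [map_sub, smul_sub, smul_sub, ← hy k, ← hz]
      abel
    have h5 := h2 (s k) (s0 k) (s1 k) k2 _ h4
    have h6 : ‖P (x k) - I (P (x k))‖ ≤ ε / 4 := by
      rw [hIP, ← map_sub]
      exact (hP _).trans k3.le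
    have h7 : ‖I (P (x k))‖ ≤ ‖I z‖ + ‖I (P (x k) - z)‖ := by
      have := norm_add_le (I z) (I (P (x k) - z))
      rwa [← map_add, add_sub_cancel] at this
    have h8 := hI (P (x k) - z)
    have h9 : ‖P (x k)‖ ≤ ‖I (P (x k))‖ + ‖P (x k) - I (P (x k))‖ := by
      have := norm_add_le (I (P (x k))) (P (x k) - I (P (x k)))
      rwa [add_sub_cancel] at this
    linarith
  have hit : ∀ (j : ℕ) (ε : ℝ), 0 < ε → ∀ᶠ k in atTop, ‖P (x k)‖ ≤ β ^ j * ‖u₀‖ + ε := by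
    intro j
    induction j with
    | zero =>
      intro ε hε
      refine Eventually.of_forall fun k => ?_
      rw [pow_zero, one_mul]
      exact (hyb k).trans (by linarith)
    | succ j ih =>
      intro ε hε
      obtain ⟨m, hm⟩ := (ih (ε / 2) (by linarith)).exists
      filter_upwards [hcmp m (ε / 2) (by linarith)] with k hk
      have h1 : β * ‖P (x m)‖ ≤ β * (β ^ j * ‖u₀‖ + ε / 2) := mul_le_mul_of_nonneg_left hm hβ0
      have h2 : β * (ε / 2) ≤ 1 * (ε / 2) := mul_le_mul_of_nonneg_right hβ1.le (by linarith)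
      have h3 : β ^ (j + 1) * ‖u₀‖ = β * (β ^ j * ‖u₀‖) := by rw [pow_succ]; ring
      rw [h3]
      linarith
  rw [Metric.mem_closure_iff]
  intro ε hε
  have hlim : Tendsto (fun j : ℕ => β ^ j * ‖u₀‖) atTop (𝓝 0) := by
    have := (tendsto_pow_atTop_nhds_zero_of_lt_one hβ0 hβ1).mul_const ‖u₀‖
    rwa [zero_mul] at this
  obtain ⟨j, hj⟩ := (hlim.eventually (gt_mem_nhds (show (0 : ℝ) < ε / 2 by linarith))).exists
  obtain ⟨k, hk⟩ := (hit j (ε / 4) (by linarith)).exists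
  obtain ⟨v, hv⟩ := hran k
  refine ⟨v - T v, ⟨v, rfl⟩, ?_⟩
  rw [hv, dist_eq_norm, sub_sub_cancel]
  linarith

end Pool.Agent.H15.LOC
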