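import Pool.Agent.H31.LOC.Apx

/-!
# THEOREM ATT+ (think 2069): approximate solutions as sums of kernels

`apf`: `apx` of `Pool.Agent.H31.LOC.Apx` (same proof) with the approximate solution given as `Ph q L A x`, all `x k` in `M`.
-/

set_option autoImplicit false

open Filter Topology Polynomial Metric Set MeasureTheory

namespace Pool.Agent.H15.LOC

open Pool.Agent.H61.TT Pool.Agent.H57.CP Pool.Agent.H18.UP
open Pool.Agent.H78.NS (pf)
open Pool.Agent.H31.LOC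

variable {d : ℕ} {a b : Polynomial ℂ} {M N Z S B : Set ℂ} {q r : ℂ → ℂ → ℂ} {D : ℕ} {φ X : ℕ → ℂ → ℂ} {δ C : ℝ}

private theorem apf_int (h : KN q r M N Z C) (L : ℕ) (A x : ℕ → ℂ) (hx : ∀ k < L, x k ∈ M) :
    IntegrableOn (Ph q L A x) Z := by
  unfold Ph
  refine integrable_finsetSum _ fun k hk => ?_
  refine Integrable.const_mul ?_ _
  have h1 : Measurable (fun w => q (x k) w) := h.qm.comp (measurable_const.prodMk measurable_id)
  refine ⟨h1.aestronglyMeasurable, ?_⟩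
  exact lt_of_le_of_lt (h.qi (x k) (h.MN (hx k (Finset.mem_range.1 hk)))) ENNReal.ofReal_lt_top

private theorem apf_orb (h : GS (gg a b) M S δ C) {c : ℂ} (hc : c ∈ S) (k : ℕ) :
    (gg a b)^[k] (gg a b c) ∈ M := by
  induction k with
  | zero => exact h.inv c (h.SM hc)
  | succ k ih =>
    rw [Function.iterate_succ_apply']
    exact h.inv _ ih

/-- the threshold: `exp (-2 κ L)` beats every constant -/
private theorem apf_large {κ : ℝ} (hκ : 0 < κ) (K e : ℝ) (he : 0 < e) :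
    ∀ᶠ L : ℕ in atTop, Real.exp (-(3 * κ * (L + 1))) * K ≤ e * Real.exp (-(κ * L)) := by
  have h1 : Tendsto (fun L : ℕ => Real.exp (-(2 * κ * (L : ℝ)))) atTop (𝓝 0) := by
    apply Real.tendsto_exp_atBot.comp
    apply tendsto_neg_atTop_atBot.comp
    exact (tendsto_natCast_atTop_atTop).const_mul_atTop (by positivity)
  have h2 : Tendsto (fun L : ℕ => Real.exp (-(2 * κ * (L : ℝ))) * (|K| + 1)) atTop (𝓝 0) := by
    have := h1.mul_const (|K| + 1)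
    rwa [zero_mul] at this
  filter_upwards [h2.eventually_le_const he] with L hL
  have h3 : Real.exp (-(3 * κ * (L + 1))) ≤ Real.exp (-(2 * κ * (L : ℝ))) * Real.exp (-(κ * L)) := by
    rw [← Real.exp_add]
    apply Real.exp_le_exp.2
    nlinarith
  have h4 : K ≤ |K| + 1 := by linarith [le_abs_self K]
  have h5 : 0 ≤ |K| + 1 := by positivity
  calc Real.exp (-(3 * κ * (L + 1))) * K ≤ Real.exp (-(3 * κ * (L + 1))) * (|K| + 1) := by gcongr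
    _ ≤ Real.exp (-(2 * κ * (L : ℝ))) * Real.exp (-(κ * L)) * (|K| + 1) := by gcongr
    _ = Real.exp (-(2 * κ * (L : ℝ))) * (|K| + 1) * Real.exp (-(κ * L)) := by ring
    _ ≤ e * Real.exp (-(κ * L)) := by gcongr

theorem apf (h : LD d a b M N Z S B q r D φ X δ C) : ∃ C1 : ℝ, 1 ≤ C1 ∧ ∀ σ : ℝ, 0 < σ → σ < 1 →
    ∃ (L : ℕ) (A x : ℕ → ℂ) (t : ℕ → ℂ), (∀ k < L, x k ∈ M) ∧ IntegrableOn (Ph q L A x) Z ∧
      ∫⁻ w in Z, ‖Ph q L A x w‖ₑ ≠ 0 ∧
      (∀ j ≤ D, ‖t j‖ₑ ≤ ENNReal.ofReal C1 * ∫⁻ w in Z, ‖Ph q L A x w‖ₑ) ∧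
      ∫⁻ w in Z, ‖Ph q L A x w - σ * pf a b (Ph q L A x) w - (1 - σ) * ∑ j ∈ Finset.range (D + 1), t j * φ j w‖ₑ ≤
        ENNReal.ofReal ((1 - σ) ^ 2) * ∫⁻ w in Z, ‖Ph q L A x w‖ₑ := by
  obtain ⟨C3, hC3, hkb⟩ := kb h
  refine ⟨max C 1, le_max_right _ _, fun σ hσ0 hσ1 => ?_⟩
  obtain ⟨c, hc, hgr⟩ := g1 h.gs h.Sf h.Sn h.ex
  -- the rate
  set κ : ℝ := -(Real.log σ) / 4 with hκd
  have hlog : Real.log σ < 0 := Real.log_neg hσ0 hσ1
  have hκ : 0 < κ := by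
    rw [hκd]
    linarith
  have hσe : σ = Real.exp (-(4 * κ)) := by
    rw [hκd]
    have : -(4 * (-(Real.log σ) / 4)) = Real.log σ := by ring
    rw [this, Real.exp_log hσ0]
  have hlow := low h.kn h.gs h.Sf h.ex h.ue hc (h.np c hc) hσ0 hσ1 hκ
  have hlarge := apf_large hκ C3 ((1 - σ) ^ 2) (by
    have : 0 < 1 - σ := by linarith
    positivity)
  -- a good `L`
  have hfr : ∃ᶠ n : ℕ in atTop, Real.exp (-(κ * n)) ≤ ‖Dn (gg a b) n (gg a b c)‖ := hgr κ hκ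
  obtain ⟨L, hL1, hL2, hL3⟩ : ∃ L : ℕ, Real.exp (-(κ * ((L + 1 : ℕ) : ℝ))) ≤ ‖Dn (gg a b) (L + 1) (gg a b c)‖ ∧
      ENNReal.ofReal (Real.exp (-(κ * L))) ≤ ∫⁻ w in N,
        ‖Ph q (L + 1) (fun k => (σ : ℂ) ^ k * (Dn (gg a b) k (gg a b c))⁻¹) (fun k => (gg a b)^[k] (gg a b c)) w‖ₑ ∧
      Real.exp (-(3 * κ * (L + 1))) * C3 ≤ (1 - σ) ^ 2 * Real.exp (-(κ * L)) := by
    obtain ⟨L0, hL0⟩ := eventually_atTop.1 (hlow.and hlarge)
    obtain ⟨n, hn1, hn2⟩ := (frequently_atTop.1 hfr) (L0 + 1)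
    obtain ⟨L, rfl⟩ : ∃ L, n = L + 1 := ⟨n - 1, by omega⟩
    obtain ⟨e1, e2⟩ := hL0 L (by omega)
    exact ⟨L, hn2, e1, e2⟩
  set A : ℕ → ℂ := fun k => (σ : ℂ) ^ k * (Dn (gg a b) k (gg a b c))⁻¹ with hA
  set x : ℕ → ℂ := fun k => (gg a b)^[k] (gg a b c) with hx
  have hxM : ∀ k, x k ∈ M := fun k => apf_orb h.gs hc k
  have hNZ : ∫⁻ w in N, ‖Ph q (L + 1) A x w‖ₑ ≤ ∫⁻ w in Z, ‖Ph q (L + 1) A x w‖ₑ :=
    lintegral_mono_set h.kn.NZ
  refine ⟨L + 1, A, x, fun j => -∑ k ∈ Finset.range (L + 1), A k * X j (x k), fun k _ => hxM k,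
    apf_int h.kn _ _ _ (fun k _ => hxM k), ?_, ?_, ?_⟩
  · intro h0
    have h1 : ENNReal.ofReal (Real.exp (-(κ * L))) ≤ 0 := by
      rw [← h0]
      exact hL2.trans hNZ
    have h2 : 0 < ENNReal.ofReal (Real.exp (-(κ * L))) := ENNReal.ofReal_pos.2 (Real.exp_pos _)
    exact absurd h1 (not_le.2 h2)
  · intro j hj
    have h1 := h.we j hj (L + 1) A x (fun k _ => hxM k)
    show ‖-∑ k ∈ Finset.range (L + 1), A k * X j (x k)‖ₑ ≤ _
    rw [enorm_neg]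
    exact h1.trans (mul_le_mul' (ENNReal.ofReal_le_ofReal (le_max_left _ _)) hNZ)
  · have hs := smi h hc (σ : ℂ) L
    have hs' : ∀ᵐ w ∂(volume.restrict Z), ‖Ph q (L + 1) A x w - σ * pf a b (Ph q (L + 1) A x) w -
        (1 - σ) * ∑ j ∈ Finset.range (D + 1), (-∑ k ∈ Finset.range (L + 1), A k * X j (x k)) * φ j w‖ₑ =
        ‖(σ : ℂ) ^ (L + 1) * (Dn (gg a b) (L + 1) (gg a b c))⁻¹‖ₑ * ‖KX q D φ X ((gg a b)^[L + 1] (gg a b c)) w‖ₑ := by
      rw [ae_restrict_iff' h.kn.Zm]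
      filter_upwards [hs] with w hw hwZ
      have e1 := hw hwZ
      have e2 : Ph q (L + 1) A x w - σ * pf a b (Ph q (L + 1) A x) w -
        (1 - σ) * ∑ j ∈ Finset.range (D + 1), (-∑ k ∈ Finset.range (L + 1), A k * X j (x k)) * φ j w =
          -((σ : ℂ) ^ (L + 1) * (Dn (gg a b) (L + 1) (gg a b c))⁻¹ * KX q D φ X ((gg a b)^[L + 1] (gg a b c)) w) := by
        rw [e1]
        have e3 : ∑ j ∈ Finset.range (D + 1), (-∑ k ∈ Finset.range (L + 1), A k * X j (x k)) * φ j w =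
            -∑ j ∈ Finset.range (D + 1), φ j w * ∑ k ∈ Finset.range (L + 1), A k * X j (x k) := by
          rw [← Finset.sum_neg_distrib]
          refine Finset.sum_congr rfl fun j _ => ?_
          ring
        rw [e3]
        ring
      rw [e2, enorm_neg, enorm_mul]
    rw [lintegral_congr_ae hs']
    have hKm : ∫⁻ w in Z, ‖(σ : ℂ) ^ (L + 1) * (Dn (gg a b) (L + 1) (gg a b c))⁻¹‖ₑ *
        ‖KX q D φ X ((gg a b)^[L + 1] (gg a b c)) w‖ₑ =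
        ‖(σ : ℂ) ^ (L + 1) * (Dn (gg a b) (L + 1) (gg a b c))⁻¹‖ₑ *
        ∫⁻ w in Z, ‖KX q D φ X ((gg a b)^[L + 1] (gg a b c)) w‖ₑ :=
      lintegral_const_mul' _ _ enorm_ne_top
    rw [hKm]
    -- the size of the coefficient
    have hcoef : ‖(σ : ℂ) ^ (L + 1) * (Dn (gg a b) (L + 1) (gg a b c))⁻¹‖ ≤ Real.exp (-(3 * κ * (L + 1))) := by
      rw [norm_mul, norm_pow, Complex.norm_real, Real.norm_of_nonneg hσ0.le, norm_inv]
      have hd : 0 < ‖Dn (gg a b) (L + 1) (gg a b c)‖ := lt_of_lt_of_le (Real.exp_pos _) hL1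
      have h1 : ‖Dn (gg a b) (L + 1) (gg a b c)‖⁻¹ ≤ Real.exp (κ * ((L + 1 : ℕ) : ℝ)) := by
        have := inv_anti₀ (Real.exp_pos _) hL1
        rwa [Real.exp_neg, inv_inv] at this
      have h2 : σ ^ (L + 1) = Real.exp (-(4 * κ) * ((L + 1 : ℕ) : ℝ)) := by
        conv_lhs => rw [hσe]
        rw [← Real.exp_nat_mul]
        congr 1
        ring
      calc σ ^ (L + 1) * ‖Dn (gg a b) (L + 1) (gg a b c)‖⁻¹
          ≤ Real.exp (-(4 * κ) * ((L + 1 : ℕ) : ℝ)) * Real.exp (κ * ((L + 1 : ℕ) : ℝ)) := by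
            rw [h2]
            gcongr
        _ = Real.exp (-(3 * κ * (L + 1))) := by
            rw [← Real.exp_add]
            congr 1
            push_cast
            ring
    have hc2 : ‖(σ : ℂ) ^ (L + 1) * (Dn (gg a b) (L + 1) (gg a b c))⁻¹‖ₑ ≤
        ENNReal.ofReal (Real.exp (-(3 * κ * (L + 1)))) := by
      rw [← ofReal_norm]
      exact ENNReal.ofReal_le_ofReal hcoef
    calc ‖(σ : ℂ) ^ (L + 1) * (Dn (gg a b) (L + 1) (gg a b c))⁻¹‖ₑ *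
        ∫⁻ w in Z, ‖KX q D φ X ((gg a b)^[L + 1] (gg a b c)) w‖ₑ
        ≤ ENNReal.ofReal (Real.exp (-(3 * κ * (L + 1)))) * ENNReal.ofReal C3 :=
          mul_le_mul' hc2 (hkb _ (hxM (L + 1)))
      _ = ENNReal.ofReal (Real.exp (-(3 * κ * (L + 1))) * C3) :=
          (ENNReal.ofReal_mul (Real.exp_pos _).le).symm
      _ ≤ ENNReal.ofReal ((1 - σ) ^ 2 * Real.exp (-(κ * L))) := ENNReal.ofReal_le_ofReal hL3
      _ = ENNReal.ofReal ((1 - σ) ^ 2) * ENNReal.ofReal (Real.exp (-(κ * L))) :=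
          ENNReal.ofReal_mul (sq_nonneg _)
      _ ≤ ENNReal.ofReal ((1 - σ) ^ 2) * ∫⁻ w in Z, ‖Ph q (L + 1) A x w‖ₑ :=
          mul_le_mul' le_rfl (hL2.trans hNZ)

end Pool.Agent.H15.LOC
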