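import Pool.Agent.H15.LOC.Udn
import Pool.Agent.H47.LI.Ue
import Pool.Agent.H18.UP.FNG

/-!
# THEOREM ATT+ (think 2069): bilipschitz charts

`tr_m`: preimages of measurable sets are measurable. `tr_v`: preimages of sets of positive area under a bilipschitz homeomorphism of the sphere have positive area.
-/

set_option autoImplicit false

open Filter Topology Metric Set MeasureTheory

namespace Pool.Agent.H15.LOC

open Pool.Agent.H35.EX (chord null_lip)
open Pool.Agent.H47.LI (ch_le ch_ge)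

/-- the finite part -/
private noncomputable def rr (x : OnePoint ℂ) : ℂ := OnePoint.elim x 0 id

private theorem rr_coe (z : ℂ) : rr (z : OnePoint ℂ) = z := rfl

private theorem rr_cont (z : ℂ) : ContinuousAt rr (z : OnePoint ℂ) := by
  rw [OnePoint.continuousAt_coe]
  exact continuousAt_id

theorem tr_m {ψ : ℂ → OnePoint ℂ} (hψ : Continuous ψ) {G : Set ℂ} (hG : MeasurableSet G) :
    MeasurableSet {z : ℂ | ∃ w ∈ G, ψ z = (w : OnePoint ℂ)} := by
  classical
  obtain ⟨W, hW⟩ : ∃ W : Set ℂ, W = {z : ℂ | ψ z ≠ OnePoint.infty} := ⟨_, rfl⟩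
  have hWm : MeasurableSet W := by
    rw [hW]
    exact ((isClosed_singleton.isOpen_compl (X := OnePoint ℂ) (s := {OnePoint.infty})).preimage hψ).measurableSet
  have hc : ContinuousOn (fun z : ℂ => rr (ψ z)) W := by
    intro z hz
    rw [hW] at hz
    obtain ⟨w, hw⟩ := OnePoint.ne_infty_iff_exists.1 hz
    have h1 : ContinuousAt rr (ψ z) := by
      rw [← hw]
      exact rr_cont w
    exact (ContinuousAt.comp (f := ψ) (g := rr) h1 hψ.continuousAt).continuousWithinAt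
  have hm : Measurable (W.piecewise (fun z : ℂ => rr (ψ z)) fun _ => 0) :=
    ContinuousOn.measurable_piecewise hc continuousOn_const hWm
  have he : {z : ℂ | ∃ w ∈ G, ψ z = (w : OnePoint ℂ)} = W ∩ (W.piecewise (fun z : ℂ => rr (ψ z)) fun _ => 0) ⁻¹' G := by
    ext z
    constructor
    · rintro ⟨w, hw, h⟩
      have hzW : z ∈ W := by
        rw [hW]
        exact fun h1 => OnePoint.coe_ne_infty w (h.symm.trans h1)
      refine ⟨hzW, ?_⟩
      rw [mem_preimage, piecewise_eq_of_mem _ _ _ hzW, h]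
      exact hw
    · rintro ⟨h1, h2⟩
      rw [mem_preimage, piecewise_eq_of_mem _ _ _ h1] at h2
      rw [hW] at h1
      obtain ⟨w, hw⟩ := OnePoint.ne_infty_iff_exists.1 h1
      refine ⟨w, ?_, hw.symm⟩
      rw [← hw] at h2
      exact h2
  rw [he]
  exact hWm.inter (hm hG)

theorem tr_v {φ : OnePoint ℂ ≃ₜ OnePoint ℂ} {K : ℝ}
    (bil : ∀ x y, chord (φ x) (φ y) ≤ K * chord x y ∧ chord x y ≤ K * chord (φ x) (φ y)) {G : Set ℂ} (hG : 0 < volume G) :
    0 < volume {z : ℂ | ∃ w ∈ G, φ (z : OnePoint ℂ) = (w : OnePoint ℂ)} := by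
  rw [pos_iff_ne_zero]
  intro h0
  have hK := Pool.Agent.H18.UP.k_one bil
  apply hG.ne'
  obtain ⟨a, ha⟩ : ∃ a : ℂ, ∀ w : ℂ, w ≠ a → ∃ z : ℂ, φ (z : OnePoint ℂ) = (w : OnePoint ℂ) := by
    by_cases h1 : ∃ a : ℂ, φ OnePoint.infty = (a : OnePoint ℂ)
    · obtain ⟨a, ha⟩ := h1
      refine ⟨a, fun w hw => ?_⟩
      obtain ⟨x, hx⟩ := φ.surjective (w : OnePoint ℂ)
      induction x using OnePoint.rec with
      | infty => exact absurd (OnePoint.coe_injective (hx.symm.trans ha)) hw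
      | coe z => exact ⟨z, hx⟩
    · refine ⟨0, fun w _ => ?_⟩
      obtain ⟨x, hx⟩ := φ.surjective (w : OnePoint ℂ)
      induction x using OnePoint.rec with
      | infty => exact absurd ⟨w, hx⟩ h1
      | coe z => exact ⟨z, hx⟩
  have hR : ∀ n : ℕ, volume ((fun z : ℂ => rr (φ (z : OnePoint ℂ))) ''
      {z : ℂ | ∃ w ∈ G ∩ closedBall 0 n, φ (z : OnePoint ℂ) = (w : OnePoint ℂ)}) = 0 := by
    intro n
    have hlip : LipschitzOnWith (Real.toNNReal ((1 + (n : ℝ) ^ 2) * K)) (fun z : ℂ => rr (φ (z : OnePoint ℂ)))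
        {z : ℂ | ∃ w ∈ G ∩ closedBall 0 n, φ (z : OnePoint ℂ) = (w : OnePoint ℂ)} := by
      refine LipschitzOnWith.of_dist_le_mul ?_
      rintro z ⟨w, ⟨-, hw⟩, hz⟩ z' ⟨w', ⟨-, hw'⟩, hz'⟩
      rw [mem_closedBall_zero_iff] at hw hw'
      rw [Real.coe_toNNReal _ (by positivity), dist_eq_norm, dist_eq_norm, hz, hz']
      show ‖w - w'‖ ≤ _
      have h1 := ch_ge hw hw'
      rw [← hz, ← hz'] at h1
      have h2 := (bil (z : OnePoint ℂ) (z' : OnePoint ℂ)).1
      have h3 := ch_le z z'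
      calc ‖w - w'‖ ≤ (1 + (n : ℝ) ^ 2) * chord (φ (z : OnePoint ℂ)) (φ (z' : OnePoint ℂ)) := h1
        _ ≤ (1 + (n : ℝ) ^ 2) * (K * ‖z - z'‖) := by
            refine mul_le_mul_of_nonneg_left (h2.trans ?_) (by positivity)
            exact mul_le_mul_of_nonneg_left h3 (by linarith)
        _ = (1 + (n : ℝ) ^ 2) * K * ‖z - z'‖ := by ring
    refine null_lip hlip (measure_mono_null ?_ h0)
    rintro z ⟨w, hw, hz⟩
    exact ⟨w, hw.1, hz⟩
  have hsub : G ⊆ {a} ∪ ⋃ n : ℕ, ((fun z : ℂ => rr (φ (z : OnePoint ℂ))) ''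
      {z : ℂ | ∃ w ∈ G ∩ closedBall 0 n, φ (z : OnePoint ℂ) = (w : OnePoint ℂ)}) := by
    intro w hw
    by_cases hwa : w = a
    · exact Or.inl hwa
    · obtain ⟨z, hz⟩ := ha w hwa
      obtain ⟨n, hn⟩ := exists_nat_ge ‖w‖
      refine Or.inr (mem_iUnion.2 ⟨n, z, ⟨w, ⟨hw, mem_closedBall_zero_iff.2 hn⟩, hz⟩, ?_⟩)
      show rr (φ (z : OnePoint ℂ)) = w
      rw [hz, rr_coe]
  refine measure_mono_null hsub ?_
  rw [measure_union_null_iff]
  refine ⟨by simp, ?_⟩
  rw [measure_iUnion_null_iff]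
  exact hR

end Pool.Agent.H15.LOC
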