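import Pool.Agent.H15.LOC.Pln
import Pool.Agent.H15.LOC.Tra

/-!
# THEOREM ATT+ (think 2069), Julia set not the sphere, the families

`AT f c`: there is a completely invariant set `G` in the Julia set, of positive area, all whose points visit every neighbourhood of the limit set of `c` with upper density one. `at_of`: from the chart. `at_fam_p`: Julia set not the sphere.
-/

set_option autoImplicit false

open Filter Topology Polynomial Metric Set MeasureTheory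

namespace Pool.Agent.H15.LOC

open Pool.Agent.H44.Fatou (rat rat_continuous rat_coe rat_coe_of_ne pt crit_coe)
open Pool.Agent.H56.HR (FS EqAt)
open Pool.Agent.H32.BT Pool.Agent.H79.Eul Pool.Agent.H79.Par
open Pool.Agent.H35.EX Pool.Agent.H44.RR Pool.Agent.H44.RC Pool.Agent.H47.RJ
open Pool.Agent.H47.NN Pool.Agent.H44.ND Pool.Agent.H79.ES Pool.Agent.H44.TH
open Pool.Agent.H64.NC Pool.Agent.H61.TT Pool.Agent.H57.CP Pool.Agent.H3.NC
open Pool.Agent.H57.CF Pool.Agent.H47.NM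
open Pool.Agent.H18.UP (PJ Cr)
open Pool.Agent.H27.BR (CD ps_ga jc_comp geo_cd cu_cd pj_sub jc_int)
open Pool.Agent.H56.UE (PUE pr_pue)

/-- a completely invariant set of positive area in the Julia set, all whose points visit every neighbourhood of the limit set of `c` with upper density one -/
def AT (f : OnePoint ℂ → OnePoint ℂ) (c : OnePoint ℂ) : Prop := ∃ G ⊆ JS f, (∀ x, f x ∈ G ↔ x ∈ G) ∧
  MeasurableSet {z : ℂ | (z : OnePoint ℂ) ∈ G} ∧ 0 < volume {z : ℂ | (z : OnePoint ℂ) ∈ G} ∧ ∀ x ∈ G, UDn f (Lim f c) x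

theorem at_of {d : ℕ} {v u : E d} {φ : OnePoint ℂ ≃ₜ OnePoint ℂ} {K : ℝ} (hcop : IsCoprime (pol v.1) (pol v.2))
    (bil : ∀ x y, chord (φ x) (φ y) ≤ K * chord x y ∧ chord x y ≤ K * chord (φ x) (φ y))
    (conj : ∀ x, Rf u (φ x) = φ (Rf v x)) {c : OnePoint ℂ} {c1 : ℂ} (hc : φ c = (c1 : OnePoint ℂ)) {M G : Set ℂ}
    (hMb : ∀ x ∈ M, (pol u.2).eval x ≠ 0)
    (hMm : ∀ L : Set ℂ, IsClosed L → c1 ∈ L → (∀ x ∈ L, x ∈ M → Pool.Agent.H61.TT.gg (pol u.1) (pol u.2) x ∈ L) → M ⊆ L)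
    (hGm : MeasurableSet G) (hGp : 0 < volume G) (hGJ : ∀ z ∈ G, (z : OnePoint ℂ) ∈ JS (Rf u))
    (hJb : ∀ (n : ℕ) (y : OnePoint ℂ), (Rf u)^[n] y ∈ JS (Rf u) → y ∈ JS (Rf u)) (hGb : ∀ z ∈ G, (pol u.2).eval z ≠ 0)
    (hGi : ∀ z : ℂ, (pol u.2).eval z ≠ 0 → (Pool.Agent.H61.TT.gg (pol u.1) (pol u.2) z ∈ G ↔ z ∈ G))
    (hGv : ∀ z ∈ G, ∀ N' : Set ℂ, IsOpen N' → M ⊆ N' → ∀ ε : ℝ, 0 < ε → ∀ n0 : ℕ, ∃ n ≥ n0,
        (1 - ε) * n ≤ ({k | k < n ∧ (Pool.Agent.H61.TT.gg (pol u.1) (pol u.2))^[k] z ∈ N'} : Set ℕ).ncard) :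
    AT (Rf v) c := by
  have hcont : Continuous (Rf v) := rat_continuous hcop
  have hcu : Continuous (Rf u) := by
    have h1 : Rf u = fun y => φ (Rf v (φ.symm y)) := by
      funext y
      rw [← conj, φ.apply_symm_apply]
    rw [h1]
    exact φ.continuous.comp (hcont.comp φ.symm.continuous)
  have hrat : ∀ z : ℂ, (pol u.2).eval z ≠ 0 → Rf u (z : OnePoint ℂ) =
      ((Pool.Agent.H61.TT.gg (pol u.1) (pol u.2) z : ℂ) : OnePoint ℂ) := fun z hz => rat_coe_of_ne hz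
  have hit : ∀ z ∈ G, ∀ n : ℕ, (Pool.Agent.H61.TT.gg (pol u.1) (pol u.2))^[n] z ∈ G ∧
      (Rf u)^[n] (z : OnePoint ℂ) = (((Pool.Agent.H61.TT.gg (pol u.1) (pol u.2))^[n] z : ℂ) : OnePoint ℂ) := by
    intro z hz n
    induction n with
    | zero => exact ⟨hz, rfl⟩
    | succ n ih =>
      rw [Function.iterate_succ_apply', Function.iterate_succ_apply']
      refine ⟨(hGi _ (hGb _ ih.1)).2 ih.1, ?_⟩
      rw [ih.2, hrat _ (hGb _ ih.1)]
  have hconjn : ∀ (n : ℕ) (x : OnePoint ℂ), (Rf u)^[n] (φ x) = φ ((Rf v)^[n] x) := by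
    intro n
    induction n with
    | zero => exact fun _ => rfl
    | succ n ih =>
      intro x
      rw [Function.iterate_succ_apply, conj, ih, Function.iterate_succ_apply]
  obtain ⟨G', hG'⟩ : ∃ G' : Set (OnePoint ℂ), G' = {x | ∃ n : ℕ, ∃ z ∈ G, (Rf u)^[n] (φ x) = (z : OnePoint ℂ)} := ⟨_, rfl⟩
  have hmem : ∀ x, x ∈ G' ↔ ∃ n : ℕ, ∃ z ∈ G, (Rf u)^[n] (φ x) = (z : OnePoint ℂ) := fun x => by rw [hG']; rfl
  refine ⟨G', ?_, ?_, ?_, ?_, ?_⟩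
  · intro x hx
    obtain ⟨n, z, hz, hxz⟩ := (hmem x).1 hx
    rw [← js_conj φ (fun y => (conj y).symm) x]
    refine hJb n _ ?_
    rw [hxz]
    exact hGJ z hz
  · intro x
    rw [hmem, hmem, ← conj]
    constructor
    · rintro ⟨n, w, hw, h1⟩
      exact ⟨n + 1, w, hw, by rw [Function.iterate_succ_apply]; exact h1⟩
    · rintro ⟨n, z, hz, h1⟩
      refine ⟨n, _, (hit z hz 1).1, ?_⟩
      rw [← (hit z hz 1).2, ← h1, ← Function.iterate_succ_apply, Function.iterate_succ_apply', Function.iterate_one]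
  · have e : {z : ℂ | (z : OnePoint ℂ) ∈ G'} = ⋃ n : ℕ, {z : ℂ | ∃ w ∈ G, (Rf u)^[n] (φ (z : OnePoint ℂ)) = (w : OnePoint ℂ)} := by
      ext z
      simp only [mem_iUnion]
      exact hmem _
    rw [e]
    exact MeasurableSet.iUnion fun n => tr_m ((hcu.iterate n).comp (φ.continuous.comp OnePoint.continuous_coe)) hGm
  · refine (tr_v bil hGp).trans_le (measure_mono ?_)
    rintro z ⟨w, hw, h1⟩
    exact (hmem _).2 ⟨0, w, hw, h1⟩
  · intro x hx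
    obtain ⟨m, z, hz, hxz'⟩ := (hmem x).1 hx
    refine udn_pre (m := m) ?_
    obtain ⟨x', hx'⟩ : ∃ x', x' = (Rf v)^[m] x := ⟨_, rfl⟩
    have hxz : φ x' = (z : OnePoint ℂ) := by
      rw [hx', ← hconjn, hxz']
    rw [← hx']
    refine udn_lim hcont ?_
    intro O hO hLO ε hε n0
    obtain ⟨N', hN'⟩ : ∃ N' : Set ℂ, N' = {w : ℂ | φ.symm (w : OnePoint ℂ) ∈ O} := ⟨_, rfl⟩
    have hN'o : IsOpen N' := by
      rw [hN']
      exact hO.preimage (φ.symm.continuous.comp OnePoint.continuous_coe)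
    have hcl : IsClosed {w : ℂ | φ.symm (w : OnePoint ℂ) ∈ closure (range fun n : ℕ => (Rf v)^[n] c)} :=
      isClosed_closure.preimage (φ.symm.continuous.comp OnePoint.continuous_coe)
    have hMN : M ⊆ N' := by
      intro w hw
      have h1 := hMm _ hcl (by
        show φ.symm (c1 : OnePoint ℂ) ∈ closure (range fun n : ℕ => (Rf v)^[n] c)
        rw [← hc, φ.symm_apply_apply]
        exact subset_closure ⟨0, rfl⟩) (by
        intro w hw hwM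
        show φ.symm ((Pool.Agent.H61.TT.gg (pol u.1) (pol u.2) w : ℂ) : OnePoint ℂ) ∈ closure (range fun n : ℕ => (Rf v)^[n] c)
        rw [← hrat w (hMb w hwM)]
        have h2 : φ.symm (Rf u (w : OnePoint ℂ)) = Rf v (φ.symm (w : OnePoint ℂ)) := by
          rw [φ.symm_apply_eq, ← conj, φ.apply_symm_apply]
        rw [h2]
        have h3 : φ.symm (w : OnePoint ℂ) ∈ closure (range fun n : ℕ => (Rf v)^[n] c) := hw
        refine closure_mono ?_ (image_closure_subset_closure_image hcont ⟨_, h3, rfl⟩)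
        rintro _ ⟨_, ⟨n, rfl⟩, rfl⟩
        exact ⟨n + 1, Function.iterate_succ_apply' _ _ _⟩) hw
      rw [hN']
      exact hLO h1
    obtain ⟨n, hn, h1⟩ := hGv z hz N' hN'o hMN ε hε n0
    refine ⟨n, hn, h1.trans (le_of_eq ?_)⟩
    have h2 : ({k | k < n ∧ (Pool.Agent.H61.TT.gg (pol u.1) (pol u.2))^[k] z ∈ N'} : Set ℕ) = {k | k < n ∧ (Rf v)^[k] x' ∈ O} := by
      ext k
      refine and_congr_right fun _ => ?_
      rw [hN']
      show φ.symm (((Pool.Agent.H61.TT.gg (pol u.1) (pol u.2))^[k] z : ℂ) : OnePoint ℂ) ∈ O ↔ _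
      rw [← (hit z hz k).2, ← hxz, hconjn, φ.symm_apply_apply]
    rw [h2]

/-- the orbit closure in the plane -/
theorem at_orb {d : ℕ} {u : E d} (hcu : Continuous (Rf u)) {c1 : ℂ} {M : Set ℂ}
    (hM : M = {w : ℂ | (w : OnePoint ℂ) ∈ closure (range fun n : ℕ => (Rf u)^[n] (c1 : OnePoint ℂ))})
    (hinf : OnePoint.infty ∉ closure (range fun n : ℕ => (Rf u)^[n] (c1 : OnePoint ℂ))) :
    IsCompact M ∧ c1 ∈ M ∧ (∀ x ∈ M, (pol u.2).eval x ≠ 0) ∧ (∀ x ∈ M, Pool.Agent.H61.TT.gg (pol u.1) (pol u.2) x ∈ M) ∧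
      ∀ L : Set ℂ, IsClosed L → c1 ∈ L → (∀ x ∈ L, x ∈ M → Pool.Agent.H61.TT.gg (pol u.1) (pol u.2) x ∈ L) → M ⊆ L := by
  obtain ⟨P, hP⟩ : ∃ P : Set (OnePoint ℂ), P = closure (range fun n : ℕ => (Rf u)^[n] (c1 : OnePoint ℂ)) := ⟨_, rfl⟩
  rw [← hP] at hM hinf
  have hPc : IsClosed P := hP ▸ isClosed_closure
  have hPf : ∀ x ∈ P, Rf u x ∈ P := by
    intro x hx
    rw [hP] at hx ⊢
    refine closure_mono ?_ (image_closure_subset_closure_image hcu ⟨_, hx, rfl⟩)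
    rintro _ ⟨_, ⟨n, rfl⟩, rfl⟩
    exact ⟨n + 1, Function.iterate_succ_apply' _ _ _⟩
  have hMP : ∀ w : ℂ, w ∈ M ↔ (w : OnePoint ℂ) ∈ P := fun w => by rw [hM]; rfl
  have hMc : IsCompact M := by
    have e : M = (fun w : ℂ => (w : OnePoint ℂ)) ⁻¹' P := hM
    rw [e]
    refine OnePoint.isOpenEmbedding_coe.isInducing.isCompact_preimage_iff ?_ |>.2 hPc.isCompact
    intro y hy
    have h2 : y ≠ OnePoint.infty := fun h3 => hinf (h3 ▸ hy)
    obtain ⟨w, hw⟩ := OnePoint.ne_infty_iff_exists.1 h2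
    exact ⟨w, hw⟩
  have hMb : ∀ x ∈ M, (pol u.2).eval x ≠ 0 := by
    intro x hx hb
    apply hinf
    have h2 := hPf _ ((hMP x).1 hx)
    have h3 : Rf u (x : OnePoint ℂ) = OnePoint.infty := by
      show rat (pol u.1) (pol u.2) _ = _
      rw [rat_coe]
      unfold pt
      rw [if_pos hb]
    rwa [h3] at h2
  have hrat : ∀ x ∈ M, Rf u (x : OnePoint ℂ) = ((Pool.Agent.H61.TT.gg (pol u.1) (pol u.2) x : ℂ) : OnePoint ℂ) :=
    fun x hx => rat_coe_of_ne (hMb x hx)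
  have hMi : ∀ x ∈ M, Pool.Agent.H61.TT.gg (pol u.1) (pol u.2) x ∈ M := by
    intro x hx
    rw [hMP]
    have h2 := hPf _ ((hMP x).1 hx)
    rwa [hrat x hx] at h2
  have hc1P : (c1 : OnePoint ℂ) ∈ P := by
    rw [hP]
    exact subset_closure ⟨0, rfl⟩
  refine ⟨hMc, (hMP c1).2 hc1P, hMb, hMi, ?_⟩
  intro L hL hcL hLi w hw
  -- the orbit is in `M ∩ L`
  have h1 : ∀ n : ℕ, ∃ y : ℂ, y ∈ M ∧ y ∈ L ∧ (Rf u)^[n] (c1 : OnePoint ℂ) = (y : OnePoint ℂ) := by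
    intro n
    induction n with
    | zero => exact ⟨c1, (hMP c1).2 hc1P, hcL, rfl⟩
    | succ n ih =>
      obtain ⟨y, hyM, hyL, hy⟩ := ih
      refine ⟨_, hMi y hyM, hLi y hyL hyM, ?_⟩
      rw [Function.iterate_succ_apply', hy, hrat y hyM]
  have h2 : IsCompact (((↑) : ℂ → OnePoint ℂ) '' (M ∩ L)) := (hMc.inter_right hL).image OnePoint.continuous_coe
  have h3 : P ⊆ ((↑) : ℂ → OnePoint ℂ) '' (M ∩ L) := by
    rw [hP]
    refine closure_minimal ?_ h2.isClosed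
    rintro _ ⟨n, rfl⟩
    obtain ⟨y, hyM, hyL, hy⟩ := h1 n
    exact ⟨y, ⟨hyM, hyL⟩, hy.symm⟩
  obtain ⟨y, hy, hyw⟩ := h3 ((hMP w).1 hw)
  have h4 : y = w := OnePoint.coe_injective hyw
  rw [← h4]
  exact hy.2

/-- THEOREM ATT+, Julia set not the sphere -/
theorem at_fam_p {d m : ℕ} (hd : 2 ≤ d) (hm : m ≤ d) {x : Em d m} (hcop : IsCoprime (pol x.1) (pol x.2))
    (hdeg : max (pol x.1).natDegree (pol x.2).natDegree = d) (hup : ¬ UpF d m x) (hF : (FS (Rf (ex d m x))).Nonempty)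
    {c : OnePoint ℂ} (hc : IsCrit (Rf (ex d m x)) c) (hcJ : c ∈ JS (Rf (ex d m x))) : AT (Rf (ex d m x)) c := by
  obtain ⟨D, u, φ, K, T, h, -⟩ := Pool.Agent.H31.UDC.cdx hd hm hcop hdeg hup hF
  have hue : ∀ c, IsCrit (Rf (ex d m x)) c → c ∈ JS (Rf (ex d m x)) → ¬ PUE (Rf (ex d m x)) (Rf (ex d m x) c) := fun c hc hcJ =>
    pr_pue (ex_cop hcop) (by rw [ex_deg hdeg]; omega) (pr_end hd hm hcop hdeg hup c hc hcJ)
  have hcu : Continuous (Rf u) := rat_continuous h.ga.cop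
  have hJinf : OnePoint.infty ∉ JS (Rf u) := fun hn => hn h.ga.fi
  have hφJ : φ c ∈ JS (Rf u) := (js_conj φ (fun y => (h.conj y).symm) c).2 hcJ
  obtain ⟨c1, hc1⟩ : ∃ c1 : ℂ, φ c = (c1 : OnePoint ℂ) := by
    have h1 : φ c ≠ OnePoint.infty := fun e => hJinf (e ▸ hφJ)
    obtain ⟨z, hz⟩ := OnePoint.ne_infty_iff_exists.1 h1
    exact ⟨z, hz.symm⟩
  have hc1J : (c1 : OnePoint ℂ) ∈ JS (Rf u) := hc1 ▸ hφJ
  have hPJ : closure (range fun n : ℕ => (Rf u)^[n] (c1 : OnePoint ℂ)) ⊆ JS (Rf u) := by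
    refine closure_minimal ?_ (js_closed _)
    rintro _ ⟨n, rfl⟩
    exact h.ga.js n hc1J
  obtain ⟨M, hM⟩ : ∃ M : Set ℂ, M = {w : ℂ | (w : OnePoint ℂ) ∈ closure (range fun n : ℕ => (Rf u)^[n] (c1 : OnePoint ℂ))} := ⟨_, rfl⟩
  obtain ⟨hMc, hc1M, hMb, hMi, hMm⟩ := at_orb hcu hM (fun hn => hJinf (hPJ hn))
  have hMJ : M ⊆ JC u := fun w hw => by
    rw [hM] at hw
    exact hPJ hw
  have hcc : IsCrit (Rf u) (c1 : OnePoint ℂ) := by
    rw [← hc1]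
    exact (isCrit_conj φ h.conj c).2 hc
  have hcr : Cr (pol u.1) (pol u.2) c1 := ⟨hMb c1 hc1M, crit_coe hcc⟩
  obtain ⟨G, μ, C1, hGm, hGJ, hGi, hGv, -, -, hμ0, -, hμp⟩ := att_cd h hue hMc.isClosed hMJ hMi ⟨c1, hc1M, hcr⟩
  refine at_of (ex_cop hcop) h.bil h.conj hc1 hMb hMm hGm ?_ (fun z hz => hGJ hz) (fun n y hy hn => hy
    ((Pool.Agent.H47.RJ.fs_iff (by omega) h.ga.cop h.ga.deg n y).2 hn)) (fun z hz => h.ga.bne (hGJ hz)) hGi hGv
  refine hμp.trans_le (measure_mono fun z hz => ?_)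
  by_contra hzG
  exact hz (hμ0 z hzG)

end Pool.Agent.H15.LOC
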