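import Pool.Agent.H15.LOC.Tra
import Pool.Agent.H66.IV.Sfg
import Pool.Agent.H78.UX.FA
import Pool.Agent.H43.UP.PfS

/-!
# THEOREM ATT+ (think 2069), Julia set = sphere: finitely many visits off the post-critical set

`FinP v p`: almost all points of the supports of the invariant Beltrami differentials of `Rf v` visit closed sets off `KK (Rf v)` and `p` finitely often. `finp_s`: the chart where `0`, `1`, `∞` are fixed (`sfx_pl`, `no_col`).
`finp_lin`, `finq_comp`: the other charts.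
-/

set_option autoImplicit false

open Filter Topology Polynomial Metric Set MeasureTheory

namespace Pool.Agent.H15.LOC

open Pool.Agent.H44.Fatou (rat rat_continuous rat_coe rat_coe_of_ne pt crit_coe)
open Pool.Agent.H32.BT Pool.Agent.H79.Eul Pool.Agent.H79.Par
open Pool.Agent.H35.EX Pool.Agent.H44.RR Pool.Agent.H56.HR Pool.Agent.H44.RC Pool.Agent.H47.RJ
open Pool.Agent.H47.NM Pool.Agent.H47.NN Pool.Agent.H44.ND Pool.Agent.H79.ES Pool.Agent.H44.RG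
open Pool.Agent.H44.CP Pool.Agent.H47.PS Pool.Agent.H64.NC
open Pool.Agent.H64.JS (KJ kj_inv)
open Pool.Agent.H64.TP (KK)
open Pool.Agent.H61.TT (gg dg ww RatD hasDerivAt_gg measurable_gg)
open Pool.Agent.H66.UX (UP)
open Pool.Agent.H66.IV (sfx_pl no_col le_s)

variable {d : ℕ}

/-- almost all points of the supports of the invariant Beltrami differentials visit closed sets off `KK` and `p` finitely often -/
def FinP (v : E d) (p : OnePoint ℂ) : Prop := ∀ (μ : ℂ → ℂ) (C1 : ℝ), Measurable μ → (∀ z, ‖μ z‖ ≤ C1) →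
  (∀ᵐ z : ℂ, (pol v.2).eval z ≠ 0 → μ (gg (pol v.1) (pol v.2) z) * (starRingEnd ℂ) (dg (pol v.1) (pol v.2) z) =
    μ z * dg (pol v.1) (pol v.2) z) →
  ∀ C0 : Set (OnePoint ℂ), IsClosed C0 → (∀ x ∈ C0, x ∉ KK (Rf v) ∧ x ≠ p) →
    ∀ᵐ z : ℂ, μ z ≠ 0 → ∀ᶠ n : ℕ in atTop, (Rf v)^[n] (z : OnePoint ℂ) ∉ C0

theorem finp_s {v : E d} (hd : 2 ≤ d) (hcop : IsCoprime (pol v.1) (pol v.2))
    (hdeg : max (pol v.1).natDegree (pol v.2).natDegree = d) (hup : ¬ Up v) (hJ : JS (Rf v) = univ)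
    (h0 : Rf v ((0 : ℂ) : OnePoint ℂ) = ((0 : ℂ) : OnePoint ℂ)) (h1 : Rf v ((1 : ℂ) : OnePoint ℂ) = ((1 : ℂ) : OnePoint ℂ))
    (hi : Rf v OnePoint.infty = OnePoint.infty) : FinP v OnePoint.infty := by
  intro μ C1 hm hb hinv C0 hC0 hCK
  have hcont : Continuous (Rf v) := rat_continuous hcop
  have hd1 : 1 ≤ max (pol v.1).natDegree (pol v.2).natDegree := by rw [hdeg]; omega
  have hKc : IsClosed (KK (Rf v)) := isClosed_closure
  have hKf : ∀ x ∈ KK (Rf v), Rf v x ∈ KK (Rf v) := kj_inv hcont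
  have hcK : ∀ c, IsCrit (Rf v) c → Rf v c ∈ KK (Rf v) := fun c hc =>
    subset_closure ⟨c, hc, hJ ▸ mem_univ c, 1, le_rfl, rfl⟩
  obtain ⟨A, hA⟩ : ∃ A : Set ℂ, A = {z : ℂ | ∃ᶠ n : ℕ in atTop, (Rf v)^[n] (z : OnePoint ℂ) ∈ C0} := ⟨_, rfl⟩
  have hAm : MeasurableSet A := by
    have e : A = ⋂ k : ℕ, ⋃ n : ℕ, ⋃ (_ : k ≤ n), (fun z : ℂ => (Rf v)^[n] (z : OnePoint ℂ)) ⁻¹' C0 := by
      rw [hA]
      ext z
      simp only [mem_iInter, mem_iUnion]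
      show (∃ᶠ n : ℕ in atTop, (Rf v)^[n] (z : OnePoint ℂ) ∈ C0) ↔ _
      rw [frequently_atTop]
      constructor
      · intro h k
        obtain ⟨n, h1, h2⟩ := h k
        exact ⟨n, h1, h2⟩
      · intro h k
        obtain ⟨n, h1, h2⟩ := h k
        exact ⟨n, h1, h2⟩
    rw [e]
    exact MeasurableSet.iInter fun k => MeasurableSet.iUnion fun n => MeasurableSet.iUnion fun _ =>
      (hC0.preimage ((hcont.iterate n).comp OnePoint.continuous_coe)).measurableSet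
  have hnull : volume {z ∈ A | μ z ≠ 0} = 0 := by
    by_contra hne
    obtain ⟨E, Y, hh, ν, i0, b0, hX, hE⟩ := sfx_pl hd hcop hdeg hup hJ h0 h1 hi hm hb hinv hAm (pos_iff_ne_zero.2 hne)
    obtain ⟨z, hzE⟩ : E.Nonempty := nonempty_of_measure_ne_zero hX.Ep.ne'
    have hzA : ∃ᶠ n : ℕ in atTop, (Rf v)^[n] (z : OnePoint ℂ) ∈ C0 := by
      have h2 := hE hzE
      rw [hA] at h2
      exact h2
    have hpl : ∀ n : ℕ, (Rf v)^[n] (z : OnePoint ℂ) ≠ OnePoint.infty := by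
      intro n hn
      obtain ⟨m, hm, hmC⟩ := frequently_atTop.1 hzA n
      have h2 : (Rf v)^[m] (z : OnePoint ℂ) = OnePoint.infty := by
        obtain ⟨k, rfl⟩ : ∃ k, m = k + n := ⟨m - n, by omega⟩
        rw [Function.iterate_add_apply, hn]
        exact Function.iterate_fixed hi k
      exact (hCK _ hmC).2 h2
    have hit : ∀ n : ℕ, (Rf v)^[n] (z : OnePoint ℂ) = (((gg (pol v.1) (pol v.2))^[n] z : ℂ) : OnePoint ℂ) ∧
        (gg (pol v.1) (pol v.2))^[n] z ∈ UP (pol v.2) := by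
      have hU : ∀ n : ℕ, (Rf v)^[n] (z : OnePoint ℂ) = (((gg (pol v.1) (pol v.2))^[n] z : ℂ) : OnePoint ℂ) →
          (gg (pol v.1) (pol v.2))^[n] z ∈ UP (pol v.2) := by
        intro n hn hb0
        apply hpl (n + 1)
        rw [Function.iterate_succ_apply', hn]
        show rat (pol v.1) (pol v.2) _ = _
        rw [rat_coe]
        unfold pt
        rw [if_pos hb0]
      intro n
      induction n with
      | zero => exact ⟨rfl, hU 0 rfl⟩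
      | succ n ih =>
        have h2 : (Rf v)^[n + 1] (z : OnePoint ℂ) = (((gg (pol v.1) (pol v.2))^[n + 1] z : ℂ) : OnePoint ℂ) := by
          rw [Function.iterate_succ_apply', ih.1, Function.iterate_succ_apply']
          exact rat_coe_of_ne ih.2
        exact ⟨h2, hU _ h2⟩
    have hCc : IsCompact ((fun w : ℂ => (w : OnePoint ℂ)) ⁻¹' C0) := by
      refine OnePoint.isOpenEmbedding_coe.isInducing.isCompact_preimage_iff ?_ |>.2 hC0.isCompact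
      intro y hy
      obtain ⟨w, hw⟩ := OnePoint.ne_infty_iff_exists.1 (hCK y hy).2
      exact ⟨w, hw⟩
    refine no_col (le_s hd hcop hdeg hup hJ hi) hcop hd1 hi hKc hKf hcK hX hzE (fun k => (hit k).2) hCc
      (fun u hu => (hCK _ hu).1) ?_
    refine hzA.mono fun n hn => ?_
    show (((gg (pol v.1) (pol v.2))^[n] z : ℂ) : OnePoint ℂ) ∈ C0
    rw [← (hit n).1]
    exact hn
  rw [ae_iff]
  refine measure_mono_null (fun z hz => ?_) hnull
  have h2 : ¬ (μ z ≠ 0 → ∀ᶠ n : ℕ in atTop, (Rf v)^[n] (z : OnePoint ℂ) ∉ C0) := hz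
  push Not at h2
  refine ⟨?_, h2.1⟩
  rw [hA]
  exact h2.2

/-- preimages of null sets -/
theorem tr_null {φ : OnePoint ℂ ≃ₜ OnePoint ℂ} {K : ℝ}
    (bil : ∀ x y, chord (φ x) (φ y) ≤ K * chord x y ∧ chord x y ≤ K * chord (φ x) (φ y)) {N : Set ℂ} (hN : volume N = 0) :
    volume {z : ℂ | ∃ w ∈ N, φ (z : OnePoint ℂ) = (w : OnePoint ℂ)} = 0 := by
  by_contra hne
  have h1 := tr_v (φ := φ.symm) (K := K) (fun x y => by
    have h2 := bil (φ.symm x) (φ.symm y)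
    rw [φ.apply_symm_apply, φ.apply_symm_apply] at h2
    exact ⟨h2.2, h2.1⟩) (pos_iff_ne_zero.2 hne)
  refine h1.ne' (measure_mono_null ?_ hN)
  rintro w ⟨z, ⟨w', hw', hz⟩, hw⟩
  have h3 : φ (z : OnePoint ℂ) = (w : OnePoint ℂ) := by
    rw [← hw, φ.apply_symm_apply]
  have h4 : w' = w := OnePoint.coe_injective (hz.symm.trans h3)
  rw [← h4]
  exact hw'

private theorem alg {m m' D Db A Ab Z Zb : ℂ} (h : m' * Db = m * D) (hA : Ab ≠ 0) (hZ : Z ≠ 0) :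
    m' * (A ^ 2 / Ab ^ 2) * (Db * Ab ^ 2 / Zb ^ 2) = m * (Z ^ 2 / Zb ^ 2) * (D * A ^ 2 / Z ^ 2) := by
  have h1 : m' * (A ^ 2 / Ab ^ 2) * (Db * Ab ^ 2 / Zb ^ 2) = m' * Db * (A ^ 2 / Zb ^ 2) := by
    field_simp
  have h2 : m * (Z ^ 2 / Zb ^ 2) * (D * A ^ 2 / Z ^ 2) = m * D * (A ^ 2 / Zb ^ 2) := by
    field_simp
  rw [h1, h2, h]

theorem finp_lin {v : E d} (hd : 2 ≤ d) (hcop : IsCoprime (pol v.1) (pol v.2))
    (hdeg : max (pol v.1).natDegree (pol v.2).natDegree = d) {p : OnePoint ℂ} (h : FinP v p) {s : ℂ} {φ : OnePoint ℂ ≃ₜ OnePoint ℂ} {K : ℝ}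
    (bil : ∀ x y, chord (φ x) (φ y) ≤ K * chord x y ∧ chord x y ≤ K * chord (φ x) (φ y))
    (conj : ∀ x, Rf (Lin s v) (φ x) = φ (Rf v x))
    (hφ1 : ∀ z : ℂ, z ≠ s → φ (z : OnePoint ℂ) = (((z - s)⁻¹ : ℂ) : OnePoint ℂ)) :
    FinP (Lin s v) (φ p) := by
  intro μ' C1 hm hb hinv C0 hC0 hCK
  obtain ⟨a, ha⟩ : ∃ a, a = pol v.1 := ⟨_, rfl⟩
  obtain ⟨b, hbd⟩ : ∃ b, b = pol v.2 := ⟨_, rfl⟩
  obtain ⟨a', ha'⟩ : ∃ a', a' = pol (Lin s v).1 := ⟨_, rfl⟩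
  obtain ⟨b', hb'⟩ : ∃ b', b' = pol (Lin s v).2 := ⟨_, rfl⟩
  have hR : RatD d a b := by
    rw [ha, hbd]
    exact ⟨hd, hcop, hdeg⟩
  have hrat : ∀ z : ℂ, b.eval z ≠ 0 → Rf v (z : OnePoint ℂ) = ((gg a b z : ℂ) : OnePoint ℂ) := fun z hz => by
    rw [ha, hbd] at *
    exact rat_coe_of_ne hz
  have hrat' : ∀ z : ℂ, b'.eval z ≠ 0 → Rf (Lin s v) (z : OnePoint ℂ) = ((gg a' b' z : ℂ) : OnePoint ℂ) := fun z hz => by
    rw [ha', hb'] at *
    exact rat_coe_of_ne hz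
  have hpole' : ∀ z : ℂ, b'.eval z = 0 → Rf (Lin s v) (z : OnePoint ℂ) = OnePoint.infty := by
    intro z hz
    rw [hb'] at hz
    show rat (pol (Lin s v).1) (pol (Lin s v).2) _ = _
    rw [rat_coe]
    unfold pt
    rw [if_pos hz]
  -- the relation
  have hrel : ∀ y : ℂ, y ≠ s → b.eval y ≠ 0 → gg a b y ≠ s → b'.eval ((y - s)⁻¹) ≠ 0 ∧ gg a' b' ((y - s)⁻¹) = (gg a b y - s)⁻¹ := by
    intro y hy hby hgy
    have h1 := conj (y : OnePoint ℂ)
    rw [hφ1 y hy, hrat y hby, hφ1 _ hgy] at h1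
    have h2 : b'.eval ((y - s)⁻¹) ≠ 0 := by
      intro h3
      rw [hpole' _ h3] at h1
      exact OnePoint.coe_ne_infty _ h1.symm
    rw [hrat' _ h2] at h1
    exact ⟨h2, OnePoint.coe_injective h1⟩
  have hder : ∀ z : ℂ, z ≠ s → b.eval z ≠ 0 → gg a b z ≠ s →
      dg a' b' ((z - s)⁻¹) * (-1 / (z - s) ^ 2) = -dg a b z / (gg a b z - s) ^ 2 := by
    intro z hz hbz hgz
    obtain ⟨h1, h2⟩ := hrel z hz hbz hgz
    have hz0 : z - s ≠ 0 := sub_ne_zero.2 hz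
    have hg0 : gg a b z - s ≠ 0 := sub_ne_zero.2 hgz
    have e1 : HasDerivAt (fun y : ℂ => (y - s)⁻¹) (-1 / (z - s) ^ 2) z := ((hasDerivAt_id z).sub_const s).fun_inv hz0
    have e2 : HasDerivAt (fun y : ℂ => gg a' b' ((y - s)⁻¹)) (dg a' b' ((z - s)⁻¹) * (-1 / (z - s) ^ 2)) z :=
      HasDerivAt.comp (h₂ := gg a' b') (h := fun y : ℂ => (y - s)⁻¹) z (hasDerivAt_gg h1) e1
    have e3 : HasDerivAt (fun y : ℂ => (gg a b y - s)⁻¹) (-dg a b z / (gg a b z - s) ^ 2) z :=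
      ((hasDerivAt_gg hbz).sub_const s).fun_inv hg0
    have hcg : ContinuousAt (gg a b) z := (hasDerivAt_gg hbz).continuousAt
    have e4 : (fun y : ℂ => gg a' b' ((y - s)⁻¹)) =ᶠ[𝓝 z] fun y : ℂ => (gg a b y - s)⁻¹ := by
      filter_upwards [continuousAt_id.eventually_ne hz, b.continuous.continuousAt.eventually_ne hbz, hcg.eventually_ne hgz] with y y1 y2 y3
      exact (hrel y y1 y2 y3).2
    exact e2.unique (e3.congr_of_eventuallyEq e4)
  -- the pull back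
  obtain ⟨μ, hμ⟩ : ∃ μ : ℂ → ℂ, μ = fun z => μ' ((z - s)⁻¹) * ((z - s) ^ 2 / (starRingEnd ℂ) (z - s) ^ 2) := ⟨_, rfl⟩
  have hμm : Measurable μ := by
    rw [hμ]
    have e1 : Measurable fun z : ℂ => (z - s)⁻¹ := (measurable_id.sub_const s).inv
    have e2 : Measurable fun z : ℂ => (z - s) ^ 2 / (starRingEnd ℂ) (z - s) ^ 2 :=
      ((measurable_id.sub_const s).pow_const 2).div (((Complex.continuous_conj.measurable).comp (measurable_id.sub_const s)).pow_const 2)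
    exact (hm.comp e1).mul e2
  have hC1 : 0 ≤ C1 := (norm_nonneg _).trans (hb 0)
  have hμb : ∀ z, ‖μ z‖ ≤ C1 := by
    intro z
    rw [hμ]
    show ‖μ' ((z - s)⁻¹) * ((z - s) ^ 2 / (starRingEnd ℂ) (z - s) ^ 2)‖ ≤ C1
    rw [norm_mul, norm_div, norm_pow, norm_pow, RCLike.norm_conj]
    have h1 : ‖z - s‖ ^ 2 / ‖z - s‖ ^ 2 ≤ 1 := div_self_le_one _
    calc ‖μ' ((z - s)⁻¹)‖ * (‖z - s‖ ^ 2 / ‖z - s‖ ^ 2) ≤ C1 * 1 :=
          mul_le_mul (hb _) h1 (by positivity) hC1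
      _ = C1 := mul_one _
  -- almost every point
  have hbn : b ≠ 0 := Pool.Agent.H61.TT.b_ne hR
  have hae : ∀ᵐ z : ℂ, z ≠ s ∧ b.eval z ≠ 0 ∧ gg a b z ≠ s := by
    have f1 : ({s} ∪ (b.roots.toFinset : Set ℂ) ∪ (Pool.Agent.H61.TT.fs a b s : Set ℂ)).Finite :=
      ((finite_singleton s).union (Finset.finite_toSet _)).union (Finset.finite_toSet _)
    filter_upwards [compl_mem_ae_iff.2 (f1.measure_zero volume)] with z hz
    rw [mem_compl_iff, mem_union, mem_union, not_or, not_or] at hz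
    have hbz : b.eval z ≠ 0 := by
      intro h2
      apply hz.1.2
      rw [Finset.mem_coe, Multiset.mem_toFinset, mem_roots hbn]
      exact h2
    exact ⟨hz.1.1, hbz, fun h2 => hz.2 ((Pool.Agent.H43.UP.fs_iff hR).2 ⟨hbz, h2⟩)⟩
  have hinv' : ∀ᵐ z : ℂ, z ≠ s → b'.eval ((z - s)⁻¹) ≠ 0 →
      μ' (gg a' b' ((z - s)⁻¹)) * (starRingEnd ℂ) (dg a' b' ((z - s)⁻¹)) = μ' ((z - s)⁻¹) * dg a' b' ((z - s)⁻¹) := by
    rw [← ha', ← hb'] at hinv
    rw [ae_iff] at hinv ⊢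
    refine measure_mono_null (fun z hz => ?_) (tr_null bil hinv)
    have h2 : ¬ (z ≠ s → b'.eval ((z - s)⁻¹) ≠ 0 →
      μ' (gg a' b' ((z - s)⁻¹)) * (starRingEnd ℂ) (dg a' b' ((z - s)⁻¹)) = μ' ((z - s)⁻¹) * dg a' b' ((z - s)⁻¹)) := hz
    push Not at h2
    refine ⟨(z - s)⁻¹, ?_, hφ1 z h2.1⟩
    intro h3
    exact h2.2.2 (h3 h2.2.1)
  have hμi : ∀ᵐ z : ℂ, (pol v.2).eval z ≠ 0 → μ (gg (pol v.1) (pol v.2) z) * (starRingEnd ℂ) (dg (pol v.1) (pol v.2) z) =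
      μ z * dg (pol v.1) (pol v.2) z := by
    rw [← ha, ← hbd]
    filter_upwards [hae, hinv'] with z hz hz2 _
    obtain ⟨z1, z2, z3⟩ := hz
    obtain ⟨h1, h2⟩ := hrel z z1 z2 z3
    have h3 := hder z z1 z2 z3
    have h4 := hz2 z1 h1
    rw [h2] at h4
    have hz0 : z - s ≠ 0 := sub_ne_zero.2 z1
    have hg0 : gg a b z - s ≠ 0 := sub_ne_zero.2 z3
    have hz0' : (starRingEnd ℂ) (z - s) ≠ 0 := (_root_.map_ne_zero _).2 hz0
    have hg0' : (starRingEnd ℂ) (gg a b z - s) ≠ 0 := (_root_.map_ne_zero _).2 hg0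
    have h5 : dg a b z = dg a' b' ((z - s)⁻¹) * (gg a b z - s) ^ 2 / (z - s) ^ 2 := by
      have h6 : dg a b z = -(-dg a b z / (gg a b z - s) ^ 2) * (gg a b z - s) ^ 2 := by
        field_simp
      rw [h6, ← h3]
      ring
    rw [hμ]
    show μ' ((gg a b z - s)⁻¹) * ((gg a b z - s) ^ 2 / (starRingEnd ℂ) (gg a b z - s) ^ 2) * (starRingEnd ℂ) (dg a b z) =
      μ' ((z - s)⁻¹) * ((z - s) ^ 2 / (starRingEnd ℂ) (z - s) ^ 2) * dg a b z
    rw [h5, map_div₀, map_mul, map_pow, map_pow]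
    exact alg h4 hg0' hz0
  -- the closed set
  have h1 := h μ C1 hμm hμb hμi (φ ⁻¹' C0) (hC0.preimage φ.continuous) (fun x hx => by
    obtain ⟨h2, h3⟩ := hCK (φ x) hx
    refine ⟨fun h4 => h2 ((Pool.Agent.H78.UX.kj_img conj x).2 h4), fun h4 => h3 (by rw [h4])⟩)
  have hconjn : ∀ (n : ℕ) (x : OnePoint ℂ), (Rf (Lin s v))^[n] (φ x) = φ ((Rf v)^[n] x) := by
    intro n
    induction n with
    | zero => exact fun _ => rfl
    | succ n ih =>
      intro x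
      rw [Function.iterate_succ_apply, conj, ih, Function.iterate_succ_apply]
  rw [ae_iff] at h1 ⊢
  have h2 := tr_null (φ := φ.symm) (K := K) (fun x y => by
    have h2 := bil (φ.symm x) (φ.symm y)
    rw [φ.apply_symm_apply, φ.apply_symm_apply] at h2
    exact ⟨h2.2, h2.1⟩) h1
  refine measure_mono_null (fun w hw => ?_) (measure_union_null h2 (measure_singleton (0 : ℂ)))
  have h3 : ¬ (μ' w ≠ 0 → ∀ᶠ n : ℕ in atTop, (Rf (Lin s v))^[n] (w : OnePoint ℂ) ∉ C0) := hw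
  push Not at h3
  by_cases hw0 : w = 0
  · exact Or.inr hw0
  · left
    have hz1 : s + w⁻¹ ≠ s := by
      intro h4
      exact inv_ne_zero hw0 (by linear_combination h4)
    have hz2 : (s + w⁻¹ - s)⁻¹ = w := by
      rw [add_sub_cancel_left, inv_inv]
    have hz3 : φ ((s + w⁻¹ : ℂ) : OnePoint ℂ) = (w : OnePoint ℂ) := by
      rw [hφ1 _ hz1, hz2]
    refine ⟨s + w⁻¹, ?_, by rw [← hz3, φ.symm_apply_apply]⟩
    show ¬ (μ (s + w⁻¹) ≠ 0 → ∀ᶠ n : ℕ in atTop, (Rf v)^[n] ((s + w⁻¹ : ℂ) : OnePoint ℂ) ∉ φ ⁻¹' C0)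
    intro h4
    have h5 : μ (s + w⁻¹) ≠ 0 := by
      rw [hμ]
      show μ' ((s + w⁻¹ - s)⁻¹) * ((s + w⁻¹ - s) ^ 2 / (starRingEnd ℂ) (s + w⁻¹ - s) ^ 2) ≠ 0
      rw [hz2]
      have h6 : s + w⁻¹ - s ≠ 0 := sub_ne_zero.2 hz1
      exact mul_ne_zero h3.1 (div_ne_zero (pow_ne_zero _ h6) (pow_ne_zero _ ((_root_.map_ne_zero _).2 h6)))
    obtain ⟨n, hn1, hn2⟩ := (h3.2.and_eventually (h4 h5)).exists
    apply hn2
    show φ ((Rf v)^[n] ((s + w⁻¹ : ℂ) : OnePoint ℂ)) ∈ C0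
    rw [← hconjn, hz3]
    exact hn1

/-- the property in all charts -/
def FinQ (v : E d) : Prop := ∃ p : OnePoint ℂ, Rf v p = p ∧ FinP v p

theorem finq_comp (hd : 2 ≤ d) {L : E d → E d} (hL : Comp d L) {v : E d} (hcop : IsCoprime (pol v.1) (pol v.2))
    (hdeg : max (pol v.1).natDegree (pol v.2).natDegree = d) (h : FinQ v) :
    IsCoprime (pol (L v).1) (pol (L v).2) ∧ max (pol (L v).1).natDegree (pol (L v).2).natDegree = d ∧ FinQ (L v) := by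
  induction hL with
  | one s =>
    obtain ⟨p, hp, hf⟩ := h
    obtain ⟨G, φ, K, hch, h1, h2, h3⟩ := ch_mob (d := d) hd s
    obtain ⟨e1, e2, e3⟩ := hch.conj v hcop hdeg
    exact ⟨e1, e2, φ p, by rw [e3, hp], finp_lin hd hcop hdeg hf hch.bil e3 h1⟩
  | step s L _ ih =>
    obtain ⟨c1, c2, p, hp, hf⟩ := ih
    obtain ⟨G, φ, K, hch, h1, h2, h3⟩ := ch_mob (d := d) hd s
    obtain ⟨e1, e2, e3⟩ := hch.conj (L v) c1 c2
    exact ⟨e1, e2, φ p, by rw [e3, hp], finp_lin hd c1 c2 hf hch.bil e3 h1⟩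

end Pool.Agent.H15.LOC
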