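import Pool.Agent.H66.UP.KS3
import Pool.Agent.H31.NS.CVT

/-!
# THEOREM ATT+ (think 2069), Julia set = sphere: the kernel identities in any chart

`lgk_g`, `hco_g`, `step_g`, `val0_g`: as `lgk_fin`, `hco`, `step_s`, `val0_s` (H31/NS/IDN, H66/UP/KS2, KS3), without the assumption that `0`, `1`, `∞` are fixed.
-/

set_option autoImplicit false

open Filter Topology Polynomial Metric Set MeasureTheory

namespace Pool.Agent.H15.LOC

open Pool.Agent.H61.TT Pool.Agent.H57.CP Pool.Agent.H3.NC Pool.Agent.H78.NS Pool.Agent.H31.NS Pool.Agent.H18.UP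
open Pool.Agent.H1.PU (KA lagr_ka)
open Pool.Agent.H66.UP (VelP KV velp_lin)

variable {d : ℕ} {a b : Polynomial ℂ}

/-- the Lagrange identity holds at all but finitely many points -/
theorem lgk_g (h : RatD d a b) : {x | ¬ ∃ η : Polynomial ℂ, LgK d a b x η}.Finite := by
  have hf : ({x | ¬ RegV d a b x} ∪ {0, 1, gg a b 0, gg a b 1}).Finite := (reg_finite h).union (by simp)
  refine hf.subset fun x hx => ?_
  by_contra hx2
  rw [mem_union, not_or] at hx2
  obtain ⟨h1, h2⟩ := hx2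
  have h1' : RegV d a b x := not_not.1 h1
  simp only [mem_insert_iff, mem_singleton_iff, not_or] at h2
  obtain ⟨h20, h21, h22, h23⟩ := h2
  refine hx ?_
  obtain ⟨N, hN, hz⟩ := lagr_ka h h1' h20 h21 (by
    intro y hy
    obtain ⟨hb, hg⟩ := (mem_fs h x y).1 hy
    constructor
    · rintro rfl
      exact h22 hg.symm
    · rintro rfl
      exact h23 hg.symm)
  exact ⟨N, hN, fun z hb hg => hz z hb hg⟩

theorem hco_g (h : RatD d a b) : ∃ hh : ℕ → ℂ → ℂ, (∀ j, Integrable (hh j)) ∧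
    ∀ᵐ w : ℂ, LgK d a b w (∑ j ∈ Finset.range (2 * d + 1), C (hh j w) * X ^ j) := by
  have hb : b ≠ 0 := b_ne h
  obtain ⟨F, hF, hFc⟩ := (b.roots.toFinset.finite_toSet).infinite_compl.exists_subset_card_eq (2 * d + 1)
  have hFb : ∀ p ∈ F, b.eval p ≠ 0 := by
    intro p hp1 hp2
    refine hF hp1 ?_
    rw [Finset.mem_coe, Multiset.mem_toFinset, mem_roots hb]
    exact hp2
  have hinj : Set.InjOn (id : ℂ → ℂ) (F : Set ℂ) := Function.injective_id.injOn
  obtain ⟨E, hE⟩ : ∃ E : ℂ → ℂ → ℂ, E = fun p x => b.eval p ^ 2 * (dg a b p * pf a b (Pool.Agent.H1.PU.KA p) x -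
      Pool.Agent.H1.PU.KA (gg a b p) x) := ⟨_, rfl⟩
  have hEi : ∀ p, Integrable (E p) := by
    intro p
    rw [hE]
    exact (((pf_ka h p).const_mul _).sub (Pool.Agent.H1.PU.ka_int _)).const_mul _
  have hEv : ∀ (x : ℂ) (η : Polynomial ℂ), LgK d a b x η → (∀ p ∈ F, gg a b p ≠ x) → ∀ p ∈ F, η.eval p = E p x := by
    intro x η hη hx p hp1
    have h1 := hη.2 p (hFb p hp1) (hx p hp1)
    have h2 := hFb p hp1
    rw [hE]
    simp only
    rw [h1, add_sub_cancel_left]
    field_simp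
  refine ⟨fun j w => ∑ p ∈ F, (Lagrange.basis F id p).coeff j * E p w, fun j => ?_, ?_⟩
  · exact integrable_finsetSum _ fun p _ => (hEi p).const_mul _
  · have hf1 : ((gg a b) '' (F : Set ℂ)).Finite := (Finset.finite_toSet _).image _
    filter_upwards [compl_mem_ae_iff.2 ((lgk_g h).measure_zero volume),
      compl_mem_ae_iff.2 (hf1.measure_zero volume)] with x hx2 hx3
    obtain ⟨η, hη⟩ := not_not.1 hx2
    have hx4 : ∀ p ∈ F, gg a b p ≠ x := fun p hp1 hpx => hx3 ⟨p, hp1, hpx⟩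
    have h1 : η.degree < (F.card : WithBot ℕ) := by
      rw [hFc]
      refine lt_of_le_of_lt degree_le_natDegree ?_
      exact_mod_cast Nat.lt_succ_of_le hη.1
    have h2 := Lagrange.eq_interpolate (v := id) hinj h1
    rw [Lagrange.interpolate_apply] at h2
    have h3 : ∀ j, η.coeff j = ∑ p ∈ F, (Lagrange.basis F id p).coeff j * E p x := by
      intro j
      conv_lhs => rw [h2]
      rw [finsetSum_coeff]
      refine Finset.sum_congr rfl fun p hp1 => ?_
      rw [coeff_C_mul, mul_comm]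
      congr 1
      exact hEv x η hη hx4 p hp1
    have h4 : ∑ j ∈ Finset.range (2 * d + 1), C (∑ p ∈ F, (Lagrange.basis F id p).coeff j * E p x) * X ^ j = η := by
      conv_rhs => rw [η.as_sum_range' (2 * d + 1) (Nat.lt_succ_of_le hη.1)]
      refine Finset.sum_congr rfl fun j _ => ?_
      rw [← h3 j, C_mul_X_pow_eq_monomial]
    rw [h4]
    exact hη

private theorem ks_coeff {N : ℕ} (β : ℕ → ℂ) {j : ℕ} (hj : j ∈ Finset.range (N + 1)) :
    (∑ i ∈ Finset.range (N + 1), C (β i) * X ^ i : Polynomial ℂ).coeff j = β j := by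
  rw [finsetSum_coeff, Finset.sum_eq_single j]
  · rw [coeff_C_mul, coeff_X_pow, if_pos rfl, mul_one]
  · intro i _ hi
    rw [coeff_C_mul, coeff_X_pow, if_neg (fun h => hi h.symm), mul_zero]
  · intro h
    exact absurd hj h

private theorem ks_velp {hh V : ℕ → ℂ → ℂ} (hV : ∀ j ≤ 2 * d, VelP a b (X ^ j) (V j)) {w : ℂ}
    (hw : LgK d a b w (∑ j ∈ Finset.range (2 * d + 1), C (hh j w) * X ^ j)) :
    VelP a b (∑ j ∈ Finset.range (2 * d + 1), C (hh j w) * X ^ j)
      (fun x => ∑ j ∈ Finset.range (2 * d + 1), hh j w * V j x) := by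
  have h1 := velp_lin hV hw.1
  have h2 : (fun x => ∑ j ∈ Finset.range (2 * d + 1), hh j w * V j x) =
      (fun x => ∑ j ∈ Finset.range (2 * d + 1),
        (∑ j ∈ Finset.range (2 * d + 1), C (hh j w) * X ^ j : Polynomial ℂ).coeff j * V j x) := by
    funext x
    refine Finset.sum_congr rfl fun j hj => ?_
    rw [ks_coeff (fun i => hh i w) hj]
  rw [h2]
  exact h1

private theorem ks_ne (p : ℂ) : ∀ᵐ w : ℂ, w ≠ p := compl_mem_ae_iff.2 (measure_singleton p)

theorem step_g {hh V : ℕ → ℂ → ℂ} (hV : ∀ j ≤ 2 * d, VelP a b (X ^ j) (V j))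
    (hl : ∀ᵐ w : ℂ, LgK d a b w (∑ j ∈ Finset.range (2 * d + 1), C (hh j w) * X ^ j)) {x : ℂ} (hb : b.eval x ≠ 0)
    (hx : dg a b x ≠ 0) : ∀ᵐ w : ℂ, KA x w - pf a b (KA x) w = KV (2 * d) hh V x w - KV (2 * d) hh V (gg a b x) w / dg a b x := by
  filter_upwards [hl, ks_ne (gg a b x)] with w hw hne
  have h1 := hw.2 x hb (Ne.symm hne)
  have h2 := (ks_velp hV hw).2.1 x hb
  simp only at h2
  unfold KV
  rw [h2]
  have h3 : KA (gg a b x) w = dg a b x * pf a b (KA x) w -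
      (∑ j ∈ Finset.range (2 * d + 1), C (hh j w) * X ^ j : Polynomial ℂ).eval x / b.eval x ^ 2 := by
    rw [h1]; ring
  rw [h3]
  field_simp
  ring

theorem val0_g {hh V : ℕ → ℂ → ℂ} (hV : ∀ j ≤ 2 * d, VelP a b (X ^ j) (V j))
    (hl : ∀ᵐ w : ℂ, LgK d a b w (∑ j ∈ Finset.range (2 * d + 1), C (hh j w) * X ^ j)) {c : ℂ} (hc : Cr a b c) :
    ∀ᵐ w : ℂ, KV (2 * d) hh V (gg a b c) w = 0 := by
  have hdc : dg a b c = 0 := by
    unfold dg
    rw [hc.2, zero_div]
  filter_upwards [hl, ks_ne (gg a b c)] with w hw hne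
  have h1 := hw.2 c hc.1 (Ne.symm hne)
  have h2 := (ks_velp hV hw).2.1 c hc.1
  simp only at h2
  unfold KV
  rw [h2, hdc, zero_mul, zero_add]
  rw [hdc, zero_mul] at h1
  exact h1.symm

end Pool.Agent.H15.LOC
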