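import Pool.Agent.H47.LI.Ld
import Pool.Agent.H15.LOC.Vel
import Pool.Agent.H15.LOC.Ker

/-!
# THEOREM ATT+ (think 2069), Julia set = sphere: the instance `LD` in any chart

`ld_g`: as `ld_s` (H47/LI/Ld), without the assumption that `0`, `1`, `∞` are fixed.
-/

set_option autoImplicit false

open Filter Topology Polynomial Metric Set MeasureTheory

namespace Pool.Agent.H15.LOC

open Pool.Agent.H44.Fatou (rat rat_continuous rat_coe rat_coe_of_ne pt crit_coe)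
open Pool.Agent.H32.BT Pool.Agent.H79.Eul Pool.Agent.H79.Par
open Pool.Agent.H35.EX Pool.Agent.H44.RR Pool.Agent.H56.HR Pool.Agent.H44.RC Pool.Agent.H47.RJ
open Pool.Agent.H47.NM Pool.Agent.H47.NN Pool.Agent.H44.ND Pool.Agent.H79.ES Pool.Agent.H44.RG
open Pool.Agent.H44.CP Pool.Agent.H47.PS Pool.Agent.H64.NC
open Pool.Agent.H61.TT (gg dg ww RatD pre hasDerivAt_gg differentiableAt_dg)
open Pool.Agent.H31.LOC
open Pool.Agent.H31.NS (LgK)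
open Pool.Agent.H18.UP (Cr pre_open)
open Pool.Agent.H66.UP (VelP sim_s TP KV)
open Pool.Agent.H1.PU (KA)
open Pool.Agent.H47.LI

theorem ld_g {d : ℕ} {v : E d} (hd : 2 ≤ d) (hcop : IsCoprime (pol v.1) (pol v.2))
    (hdeg : max (pol v.1).natDegree (pol v.2).natDegree = d) (hup : ¬ Up v) (hJ : JS (Rf v) = univ)
    {x0 : ℂ} (hx0 : Rf v (x0 : OnePoint ℂ) = (x0 : OnePoint ℂ))
    (hnc : ∀ c c', IsCrit (Rf v) c → IsCrit (Rf v) c' → ∀ n : ℕ, 1 ≤ n → (Rf v)^[n] c ≠ c')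
    {M : Set ℂ} (hM : IsCompact M) (hMi : ∀ x ∈ M, gg (pol v.1) (pol v.2) x ∈ M) (hMb : ∀ x ∈ M, (pol v.2).eval x ≠ 0)
    {c1 : ℂ} (hc1M : c1 ∈ M) (hc1 : Cr (pol v.1) (pol v.2) c1) :
    ∃ (hh V : ℕ → ℂ → ℂ) (δ1 : ℝ), (∀ j, Integrable (hh j)) ∧
      (∀ᵐ w : ℂ, LgK d (pol v.1) (pol v.2) w (∑ j ∈ Finset.range (2 * d + 1), C (hh j w) * X ^ j)) ∧
      (∀ j ≤ 2 * d, VelP (pol v.1) (pol v.2) (X ^ j) (V j)) ∧ 0 < δ1 ∧
      ∀ (N : Set ℂ) (s : ℝ), IsOpen N → Bornology.IsBounded N → M ⊆ N → 0 < s → (∀ z ∈ N, s ≤ ‖z‖) → (∀ z ∈ N, s ≤ ‖z - 1‖) →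
        ∀ δ : ℝ, 0 < δ → δ ≤ δ1 → ∃ C : ℝ, LD d (pol v.1) (pol v.2) M N univ {c | c ∈ M ∧ (ww (pol v.1) (pol v.2)).eval c = 0}
          (Bn (pol v.1) (pol v.2) N) KA rA (2 * d) hh V δ C := by
  have hrd : RatD d (pol v.1) (pol v.2) := ⟨hd, hcop, hdeg⟩
  have hd1 : 1 ≤ max (pol v.1).natDegree (pol v.2).natDegree := by rw [hdeg]; omega
  have hcrit : ∀ {c : ℂ}, (ww (pol v.1) (pol v.2)).eval c = 0 → IsCrit (Rf v) (c : OnePoint ℂ) := fun hc =>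
    Pool.Agent.H32.BT.crit_of_wr hcop hd1 hc
  obtain ⟨V, hV⟩ : ∃ V : ℕ → ℂ → ℂ, ∀ j ≤ 2 * d, VelP (pol v.1) (pol v.2) (X ^ j) (V j) := by
    have h2 : ∀ j, ∃ V : ℂ → ℂ, j ≤ 2 * d → VelP (pol v.1) (pol v.2) (X ^ j) V := by
      intro j
      by_cases hj : j ≤ 2 * d
      · obtain ⟨V, h3⟩ := vel_g hd hcop hdeg hup hJ hx0 (η := X ^ j) ((natDegree_X_pow_le j).trans hj)
        exact ⟨V, fun _ => h3⟩
      · exact ⟨0, fun hc => absurd hc hj⟩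
    choose V hV using h2
    exact ⟨V, hV⟩
  obtain ⟨hh, hint, hl⟩ := hco_g hrd
  have hsim : ∀ c ∈ M, (ww (pol v.1) (pol v.2)).eval c = 0 → (derivative (ww (pol v.1) (pol v.2))).eval c ≠ 0 :=
    fun c hc hw => sim_s (N := 2 * d) (by omega) hV ⟨hMb c hc, hw⟩
  obtain ⟨δ1, B, hδ1, hth, hgs⟩ := gs_of hM hMb hMi hsim
  refine ⟨hh, V, δ1, hint, hl, hV, hδ1, fun N s hN hNb hMN hs0 hN0 hN1 δ hδ hδ' => ?_⟩
  obtain ⟨C1, hkn⟩ := kn_s hM hN hNb hMN hs0 hN0 hN1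
  -- the velocities
  obtain ⟨R, hR1, hMR⟩ : ∃ R : ℝ, 1 ≤ R ∧ M ⊆ closedBall 0 R := by
    obtain ⟨R, hR⟩ := hM.isBounded.subset_closedBall 0
    exact ⟨max R 1, le_max_right _ _, hR.trans (closedBall_subset_closedBall (le_max_left _ _))⟩
  have hwe : ∃ C2 : ℝ, 0 ≤ C2 ∧ ∀ j ≤ 2 * d, (∀ x ∈ M, ‖V j x‖ ≤ C2) ∧ ∀ (L : ℕ) (A x : ℕ → ℂ), (∀ k < L, x k ∈ M) →
      ‖∑ k ∈ Finset.range L, A k * V j (x k)‖ₑ ≤ ENNReal.ofReal C2 * ∫⁻ w in N, ‖Ph KA L A x w‖ₑ := by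
    have h2 : ∀ j, ∃ C2 : ℝ, 0 ≤ C2 ∧ (j ≤ 2 * d → (∀ x ∈ M, ‖V j x‖ ≤ C2) ∧ ∀ (L : ℕ) (A x : ℕ → ℂ), (∀ k < L, x k ∈ M) →
        ‖∑ k ∈ Finset.range L, A k * V j (x k)‖ₑ ≤ ENNReal.ofReal C2 * ∫⁻ w in N, ‖Ph KA L A x w‖ₑ) := by
      intro j
      by_cases hj : j ≤ 2 * d
      · obtain ⟨-, -, htp, C0, hb⟩ := hV j hj
        obtain ⟨C3, ht⟩ := tp_ball htp hb hR1
        obtain ⟨C4, hC4, hw⟩ := wej hkn ht hMR
        refine ⟨C3 + C4, add_nonneg ht.hC hC4, fun _ => ⟨fun x hx => (ht.bd x (hMR hx)).trans (by linarith), fun L A x hx => ?_⟩⟩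
        refine (hw L A x hx).trans (mul_le_mul' (ENNReal.ofReal_le_ofReal ?_) le_rfl)
        linarith [ht.hC]
      · exact ⟨0, le_rfl, fun hc => absurd hc hj⟩
    choose C2 hC2 h2 using h2
    refine ⟨∑ j ∈ Finset.range (2 * d + 1), C2 j, Finset.sum_nonneg fun j _ => hC2 j, fun j hj => ?_⟩
    have h3 : C2 j ≤ ∑ j ∈ Finset.range (2 * d + 1), C2 j :=
      Finset.single_le_sum (f := C2) (fun j _ => hC2 j) (Finset.mem_range.2 (by omega))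
    obtain ⟨h4, h5⟩ := h2 j hj
    exact ⟨fun x hx => (h4 x hx).trans h3, fun L A x hx => (h5 L A x hx).trans (mul_le_mul' (ENNReal.ofReal_le_ofReal h3) le_rfl)⟩
  obtain ⟨C2, hC2, hwe⟩ := hwe
  obtain ⟨C, hCe⟩ : ∃ C : ℝ, C = max (max C1 C2) B := ⟨_, rfl⟩
  have q1 : C1 ≤ C := hCe ▸ (le_max_left _ _).trans (le_max_left _ _)
  have q2 : C2 ≤ C := hCe ▸ (le_max_right _ _).trans (le_max_left _ _)
  have q3 : B ≤ C := hCe ▸ le_max_right _ _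
  -- persistent recurrence
  have hpr : ∀ c, IsCrit (Rf v) c → c ∈ JS (Rf v) → Pool.Agent.H3.NC.PR (Rf v) c :=
    pr_of hd hcop hdeg (fun y hy => Pool.Agent.H64.MJ.fs_att hd hcop hdeg hup hy)
      (fun y hy => Pool.Agent.H44.NR.att_in hd hcop hdeg hup hy) fun c hc hcJ => nc_end hd hcop hdeg hup hc hcJ
  have hww : ww (pol v.1) (pol v.2) ≠ 0 := by
    intro h2
    refine hsim c1 hc1M hc1.2 ?_
    rw [h2, derivative_zero, eval_zero]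
  refine ⟨C, hrd, kn_mono hkn q1, gs_mono (hgs δ hδ hδ') q3, ?_, ⟨c1, hc1M, hc1.2⟩, hMb, subset_univ _, bn_meas hN,
    subset_univ _, fun z hz => bn_b hz, fun z hz => bn_iff hz, ?_, fun j _ => (hint j).integrableOn,
    fun j hj x hx => ((hwe j hj).1 x hx).trans q2, ?_, ?_, ?_, ?_, ?_, ?_, ?_⟩
  · refine ((ww (pol v.1) (pol v.2)).roots.toFinset.finite_toSet).subset fun c hc => ?_
    rw [Finset.mem_coe, Multiset.mem_toFinset, mem_roots hww]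
    exact hc.2
  · refine Eventually.of_forall fun z _ hz => ?_
    exact not_frequently.1 hz
  · intro j hj L A x hx
    exact ((hwe j hj).2 L A x hx).trans (mul_le_mul' (ENNReal.ofReal_le_ofReal q2) le_rfl)
  · intro x hx hdx
    filter_upwards [step_g hV hl (hMb x hx) hdx] with w hw _
    exact hw
  · intro c hc
    filter_upwards [val0_g hV hl (c := c) ⟨hMb c hc.1, hc.2⟩] with w hw _
    exact hw
  · intro c hc
    have hgc : gg (pol v.1) (pol v.2) c ∈ M := hMi c hc.1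
    refine ue_s hM hMb hMi hgc ?_
    have h3 := Pool.Agent.H56.UE.pr_pue hcop hd1 (hpr _ (hcrit hc.2) (hJ ▸ mem_univ _))
    have h4 : rat (pol v.1) (pol v.2) (c : OnePoint ℂ) = ((gg (pol v.1) (pol v.2) c : ℂ) : OnePoint ℂ) := rat_gg (hMb c hc.1)
    rw [h4] at h3
    exact h3
  · intro c hc n hn
    have hgc : gg (pol v.1) (pol v.2) c ∈ M := hMi c hc.1
    have hz : (gg (pol v.1) (pol v.2))^[n] (gg (pol v.1) (pol v.2) c) ∈ M := it_mem hMi hgc n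
    have hw : (ww (pol v.1) (pol v.2)).eval ((gg (pol v.1) (pol v.2))^[n] (gg (pol v.1) (pol v.2) c)) = 0 := by
      unfold Pool.Agent.H61.TT.dg at hn
      rcases div_eq_zero_iff.1 hn with h2 | h2
      · exact h2
      · exact absurd h2 (pow_ne_zero 2 (hMb _ hz))
    refine hnc _ _ (hcrit hc.2) (hcrit hw) (n + 1) (by omega) ?_
    exact it_coe hMb hMi hc.1 (n + 1)
  · intro c hc n hn he
    have h2 := not_pre hd hcop hdeg hup (hcrit hc.2) (hJ ▸ mem_univ _) 1 (n + 1) (by omega)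
    apply h2
    have h3 : (Rf v)^[1] (c : OnePoint ℂ) = (((gg (pol v.1) (pol v.2))^[1] c : ℂ) : OnePoint ℂ) := it_coe hMb hMi hc.1 1
    have h4 : (Rf v)^[n + 1] (c : OnePoint ℂ) = (((gg (pol v.1) (pol v.2))^[n + 1] c : ℂ) : OnePoint ℂ) :=
      it_coe hMb hMi hc.1 (n + 1)
    rw [h3, h4, Function.iterate_succ_apply (gg (pol v.1) (pol v.2)) n c, he, Function.iterate_one]
  · intro y hy ρ hρ
    by_contra hcon
    push Not at hcon
    have hO : IsOpen ((fun z : ℂ => (z : OnePoint ℂ)) '' ball y ρ) := OnePoint.isOpenEmbedding_coe.isOpenMap _ isOpen_ball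
    obtain ⟨n, hn⟩ := Pool.Agent.H66.UX.leo_s hd hcop hdeg hup hJ hO ⟨_, y, mem_ball_self hρ, rfl⟩
    obtain ⟨-, ⟨z, hz, rfl⟩, hzi⟩ := hn n le_rfl OnePoint.infty
    have hz' : ‖z - y‖ < ρ := by rwa [mem_ball, dist_eq_norm] at hz
    have h2 : ∀ i : ℕ, (pol v.2).eval ((gg (pol v.1) (pol v.2))^[i] z) ≠ 0 := by
      intro i
      refine hth _ ?_
      rw [mem_thickening_iff]
      refine ⟨(gg (pol v.1) (pol v.2))^[i] y, it_mem hMi hy i, ?_⟩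
      rw [dist_eq_norm]
      exact (hcon i z hz').trans_le hδ'
    have h3 : (rat (pol v.1) (pol v.2))^[n] (z : OnePoint ℂ) = (((gg (pol v.1) (pol v.2))^[n] z : ℂ) : OnePoint ℂ) :=
      it_of fun i _ => h2 i
    have h4 : (rat (pol v.1) (pol v.2))^[n] (z : OnePoint ℂ) = OnePoint.infty := hzi
    rw [h3] at h4
    exact OnePoint.coe_ne_infty _ h4

end Pool.Agent.H15.LOC
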