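import Pool.Agent.H31.LOC.Cut
import Pool.Agent.H43.UP.Smo
import Pool.Agent.H56.RD.MTM
import Pool.Agent.H78.NS.Defs

/-!
# THEOREM ATT+ (think 2069), step (2): no mass off `M`

`kn_sub`: `KN` for smaller neighbourhoods. `ph_hol`: `Ph q L A x` is holomorphic on `N \ M`. `off_cut`: the mass off `N'` is controlled by the mass on a compact subset of `N' \ M` (Cauchy-Pompeiu with a cut-off
function which is `1` near `M`). `off_lim`: if the masses of a bounded sequence on the compact subsets of an open set `Ω`, dense in `N \ M`, tend to `0`, then the masses off every neighbourhood `N'` of `M` tend to `0`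
(normal family, `mtm`; the limits vanish on `Ω`).
-/

set_option autoImplicit false

open Filter Topology Polynomial Metric Set MeasureTheory

namespace Pool.Agent.H15.LOC

open Pool.Agent.H71.Top (dbar1 pompeiu)
open Pool.Agent.H31.LOC

variable {q r : ℂ → ℂ → ℂ} {M N Z : Set ℂ} {C : ℝ}

theorem kn_sub (h : KN q r M N Z C) {N' : Set ℂ} (ho : IsOpen N') (hM : M ⊆ N') (hN : N' ⊆ N) : KN q r M N' Z C where
  hC := h.hC
  Mc := h.Mc
  No := ho
  Nb := h.Nb.subset hN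
  MN := hM
  NZ := hN.trans h.NZ
  Zm := h.Zm
  qm := h.qm
  eq := fun x hx w hw hne => h.eq x (hN hx) w (hN hw) hne
  rx := fun w hw => (h.rx w (hN hw)).mono hN
  rw := fun x hx => (h.rw x (hN hx)).mono hN
  rb := fun x hx w hw => h.rb x (hN hx) w (hN hw)
  qx := by
    intro w hw hwN
    by_cases hw2 : w ∈ N
    · have h1 : DifferentiableOn ℂ (fun x => 1 / (w - x) + r x w) N' := by
        refine DifferentiableOn.add ?_ ((h.rx w hw2).mono hN)
        refine DifferentiableOn.div (differentiableOn_const _) ((differentiableOn_const _).sub differentiableOn_id) ?_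
        intro x hx hx0
        have : w = x := sub_eq_zero.1 hx0
        exact hwN (this ▸ hx)
      refine h1.congr fun x hx => ?_
      refine h.eq x (hN hx) w hw2 ?_
      rintro rfl
      exact hwN hx
    · exact (h.qx w hw hw2).mono hN
  qi := fun x hx => h.qi x (hN hx)

theorem ph_hol (h : KN q r M N Z C) {L : ℕ} {A x : ℕ → ℂ} (hx : ∀ k < L, x k ∈ M) :
    DifferentiableOn ℂ (Ph q L A x) (N \ M) := by
  unfold Ph
  refine DifferentiableOn.fun_sum fun k hk => ?_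
  have hxM := hx k (Finset.mem_range.1 hk)
  refine DifferentiableOn.const_mul ?_ _
  have h1 : DifferentiableOn ℂ (fun w => 1 / (w - x k) + r (x k) w) (N \ M) := by
    refine DifferentiableOn.add ?_ ((h.rw (x k) (h.MN hxM)).mono sdiff_subset)
    refine DifferentiableOn.div (differentiableOn_const _) (differentiableOn_id.sub (differentiableOn_const _)) ?_
    intro w hw hw0
    have : w = x k := sub_eq_zero.1 hw0
    exact hw.2 (this ▸ hxM)
  refine h1.congr fun w hw => ?_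
  refine h.eq (x k) (h.MN hxM) w hw.1 ?_
  rintro rfl
  exact hw.2 hxM

private theorem db_zero {χ : ℂ → ℂ} {y : ℂ} {c : ℂ} (h2 : χ =ᶠ[𝓝 y] fun _ => c) : dbar1 χ y = 0 := by
  have h1 : fderiv ℝ χ y = 0 := by
    rw [h2.fderiv_eq]
    simp
  unfold dbar1
  simp [h1]

private theorem cut_pt (h : KN q r M N Z C) {K : Set ℂ} (hK : MeasurableSet K) {χ : ℂ → ℂ} {B : ℝ} (h1 : ContDiff ℝ 1 χ)
    (h2 : HasCompactSupport χ)
    (h3 : tsupport χ ⊆ N) (h4 : ∀ x ∈ M, χ x = 1) (h6 : ∀ y, ‖dbar1 χ y‖ ≤ B) (h7 : ∀ y, y ∉ K → dbar1 χ y = 0)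
    {L : ℕ} {A x : ℕ → ℂ}
    (hx : ∀ k < L, x k ∈ M) {w : ℂ} (hw : w ∈ Z) (hN : w ∉ N) :
    ‖Ph q L A x w‖ₑ ≤ ENNReal.ofReal B * ∫⁻ y in K, ‖q y w‖ₑ * ‖Ph q L A x y‖ₑ := by
  obtain ⟨e1, e2, e3⟩ := db_mulh h1 h3 h.No (h.qx w hw hN)
  have e4 : HasCompactSupport (fun y => χ y * q y w) :=
    h2.of_isClosed_subset (isClosed_tsupport _) e2
  have e5 := rep h e1 e4 (e2.trans h3) (A := A) hx
  have e6 : ∑ k ∈ Finset.range L, A k * (fun y => χ y * q y w) (x k) = Ph q L A x w := by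
    unfold Ph
    refine Finset.sum_congr rfl fun k hk => ?_
    simp only [h4 (x k) (hx k (Finset.mem_range.mp hk)), one_mul]
  rw [e6] at e5
  rw [e5, enorm_mul]
  have hp : ‖-((Real.pi : ℂ)⁻¹)‖ₑ ≤ 1 := by
    rw [enorm_neg, ← ofReal_norm, norm_inv, Complex.norm_real, Real.norm_eq_abs, abs_of_pos Real.pi_pos]
    rw [← ENNReal.ofReal_one]
    refine ENNReal.ofReal_le_ofReal (inv_le_one_of_one_le₀ ?_)
    linarith [Real.pi_gt_three]
  refine (mul_le_mul' hp le_rfl).trans ?_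
  rw [one_mul]
  refine (enorm_integral_le_lintegral_enorm _).trans ?_
  rw [← lintegral_const_mul' _ _ ENNReal.ofReal_ne_top, ← lintegral_indicator hK]
  refine lintegral_mono fun y => ?_
  by_cases hy : y ∈ K
  · rw [indicator_of_mem hy, e3 y, enorm_mul, enorm_mul, mul_assoc]
    refine mul_le_mul' ?_ le_rfl
    rw [← ofReal_norm]
    exact ENNReal.ofReal_le_ofReal (h6 y)
  · rw [indicator_of_notMem hy, e3 y, h7 y hy]
    simp

theorem off_cut (h : KN q r M N Z C) : ∃ (K : Set ℂ) (C1 : ℝ), IsCompact K ∧ K ⊆ N \ M ∧ 0 ≤ C1 ∧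
    ∀ (L : ℕ) (A x : ℕ → ℂ), (∀ k < L, x k ∈ M) →
    ∫⁻ w in Z \ N, ‖Ph q L A x w‖ₑ ≤ ENNReal.ofReal C1 * ∫⁻ w in K, ‖Ph q L A x w‖ₑ := by
  obtain ⟨M1, hM1, hMM1, hM1N⟩ := exists_compact_between h.Mc h.No h.MN
  obtain ⟨χ, B, h1, h2, h3, h4, -, h5, h6⟩ := cut_ex hM1 h.No hM1N
  have hC := h.hC
  have hKc : IsCompact (tsupport χ \ interior M1) := h2.isCompact.diff isOpen_interior
  have hKN : tsupport χ \ interior M1 ⊆ N \ M := fun y hy => ⟨h3 hy.1, fun hyM => hy.2 (hMM1 hyM)⟩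
  refine ⟨tsupport χ \ interior M1, B * C, hKc, hKN, mul_nonneg h5 (by linarith), fun L A x hx => ?_⟩
  have hP := ph_meas h L A x
  have h7 : ∀ y, y ∉ tsupport χ \ interior M1 → dbar1 χ y = 0 := by
    intro y hy
    by_cases hy1 : y ∈ tsupport χ
    · have hy2 : y ∈ interior M1 := by
        by_contra hcon
        exact hy ⟨hy1, hcon⟩
      refine db_zero (c := 1) ?_
      filter_upwards [isOpen_interior.mem_nhds hy2] with z hz
      exact h4 z (interior_subset hz)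
    · refine db_zero (c := 0) ?_
      exact notMem_tsupport_iff_eventuallyEq.1 hy1
  have h4' : ∀ x ∈ M, χ x = 1 := fun x hx => h4 x (interior_subset (hMM1 hx))
  have hKm : MeasurableSet (tsupport χ \ interior M1) := hKc.isClosed.measurableSet
  calc ∫⁻ w in Z \ N, ‖Ph q L A x w‖ₑ
      ≤ ∫⁻ w in Z \ N, ENNReal.ofReal B * ∫⁻ y in tsupport χ \ interior M1, ‖q y w‖ₑ * ‖Ph q L A x y‖ₑ := by
        refine setLIntegral_mono' (h.Zm.diff h.No.measurableSet) fun w hw => ?_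
        exact cut_pt h hKm h1 h2 h3 h4' h6 h7 hx hw.1 hw.2
    _ = ENNReal.ofReal B * ∫⁻ w in Z \ N, ∫⁻ y in tsupport χ \ interior M1, ‖q y w‖ₑ * ‖Ph q L A x y‖ₑ :=
        lintegral_const_mul' _ _ ENNReal.ofReal_ne_top
    _ = ENNReal.ofReal B * ∫⁻ y in tsupport χ \ interior M1, ∫⁻ w in Z \ N, ‖q y w‖ₑ * ‖Ph q L A x y‖ₑ := by
        congr 1
        refine lintegral_lintegral_swap (Measurable.aemeasurable ?_)
        have m1 : Measurable (fun p : ℂ × ℂ => q p.2 p.1) := h.qm.comp measurable_swap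
        exact (m1.enorm).mul ((hP.comp measurable_snd).enorm)
    _ ≤ ENNReal.ofReal B * ∫⁻ y in tsupport χ \ interior M1, ENNReal.ofReal C * ‖Ph q L A x y‖ₑ := by
        refine mul_le_mul' le_rfl (setLIntegral_mono' hKm fun y hy => ?_)
        rw [lintegral_mul_const' _ _ enorm_ne_top]
        refine mul_le_mul' ?_ le_rfl
        exact (lintegral_mono_set sdiff_subset).trans (h.qi y (hKN hy).1)
    _ = ENNReal.ofReal (B * C) * ∫⁻ w in tsupport χ \ interior M1, ‖Ph q L A x w‖ₑ := by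
        rw [lintegral_const_mul' _ _ ENNReal.ofReal_ne_top, ENNReal.ofReal_mul h5, mul_assoc]

/-- the pointwise bound -/
theorem pt_bd {F : ℂ → ℂ} (hm : Measurable F) {w : ℂ} {ρ : ℝ} (hρ : 0 < ρ) (hd : DifferentiableOn ℂ F (ball w ρ))
    {T : Set ℂ} (hT : ball w ρ ⊆ T) {b : ℝ} (hb0 : 0 ≤ b) (hb : ∫⁻ z in T, ‖F z‖ₑ ≤ ENNReal.ofReal b) :
    ‖F w‖ ≤ b / (Real.pi * ρ ^ 2) := by
  have h1 : ∫⁻ z in ball w ρ, ‖F z‖ₑ ≤ ENNReal.ofReal b := (lintegral_mono_set hT).trans hb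
  have hi : IntegrableOn F (ball w ρ) := ⟨hm.aestronglyMeasurable, lt_of_le_of_lt h1 ENNReal.ofReal_lt_top⟩
  have h2 := Pool.Agent.H43.UP.area_mean hρ hd hi
  have h3 : ∫ z in ball w ρ, ‖F z‖ ≤ b := by
    have h4 : ENNReal.ofReal (∫ z in ball w ρ, ‖F z‖) ≤ ENNReal.ofReal b := by
      rw [ofReal_integral_norm_eq_lintegral_enorm hi]
      exact h1
    exact (ENNReal.ofReal_le_ofReal_iff hb0).1 h4
  rw [le_div_iff₀ (by positivity)]
  exact h2.trans h3

theorem off_lim (h : KN q r M N Z C) {Ω : Set ℂ} (hΩo : IsOpen Ω) (hΩd : N \ M ⊆ closure Ω) {L : ℕ → ℕ} {A x : ℕ → ℕ → ℂ}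
    (hx : ∀ n, ∀ k < L n, x n k ∈ M) {b : ℝ} (hb0 : 0 ≤ b)
    (hb : ∀ n, ∫⁻ w in Z, ‖Ph q (L n) (A n) (x n) w‖ₑ ≤ ENNReal.ofReal b)
    (hΩ : ∀ K ⊆ Ω, K ⊆ N → IsCompact K → Tendsto (fun n => ∫⁻ w in K, ‖Ph q (L n) (A n) (x n) w‖ₑ) atTop (𝓝 0))
    {N' : Set ℂ} (ho : IsOpen N') (hM : M ⊆ N') (hN : N' ⊆ N) :
    Tendsto (fun n => ∫⁻ w in Z \ N', ‖Ph q (L n) (A n) (x n) w‖ₑ) atTop (𝓝 0) := by
  obtain ⟨K, C1, hK, hKN, hC1, hcut⟩ := off_cut (kn_sub h ho hM hN)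
  have hU : IsOpen (N \ M) := h.No.sdiff h.Mc.isClosed
  have hKU : K ⊆ N \ M := hKN.trans (sdiff_subset_sdiff_left hN)
  obtain ⟨F, hF⟩ : ∃ F : ℕ → ℂ → ℂ, F = fun n => Ph q (L n) (A n) (x n) := ⟨_, rfl⟩
  have hFm : ∀ n, Measurable (F n) := fun n => by rw [hF]; exact ph_meas h _ _ _
  have hFd : ∀ n, DifferentiableOn ℂ (F n) (N \ M) := fun n => by rw [hF]; exact ph_hol h (hx n)
  have hFb : ∀ n, ∫⁻ w in N, ‖F n w‖ₑ ≤ ENNReal.ofReal b := fun n => by
    rw [hF]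
    exact (lintegral_mono_set h.NZ).trans (hb n)
  have hFΩ : ∀ K ⊆ Ω, K ⊆ N → IsCompact K → Tendsto (fun n => ∫⁻ w in K, ‖F n w‖ₑ) atTop (𝓝 0) := fun K h1 h2 h3 => by
    rw [hF]
    exact hΩ K h1 h2 h3
  have hFK : Tendsto (fun n => ∫⁻ w in K, ‖F n w‖ₑ) atTop (𝓝 0) := by
    refine tendsto_of_subseq_tendsto fun ns hns => ?_
    obtain ⟨σ, G, hσ, hG, hJC⟩ := Pool.Agent.H56.RD.mtm (F := fun k => F (ns k)) hU (fun k => hFd (ns k)) (by
      intro z hz
      obtain ⟨ρ, hρ, hball⟩ := Metric.isOpen_iff.1 hU z hz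
      refine ⟨ρ / 2, by linarith, b / (Real.pi * (ρ / 2) ^ 2), Eventually.of_forall fun k w hw => ?_⟩
      have hsub : ball w (ρ / 2) ⊆ N \ M := by
        intro y hy
        apply hball
        rw [mem_ball] at hy hw ⊢
        linarith [dist_triangle y w z]
      exact pt_bd (hFm _) (by linarith) ((hFd _).mono hsub) (hsub.trans sdiff_subset) hb0 (hFb _))
    refine ⟨σ, ?_⟩
    have hpt : ∀ z ∈ N \ M, Tendsto (fun k => F (ns (σ k)) z) atTop (𝓝 (G z)) := by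
      intro z hz
      exact (hJC z hz).comp (tendsto_id.prodMk tendsto_const_nhds)
    have hG0 : ∀ z ∈ N \ M, z ∈ Ω → G z = 0 := by
      intro z hz hzΩ
      obtain ⟨ρ, hρ, hball⟩ := Metric.isOpen_iff.1 (hU.inter hΩo) z ⟨hz, hzΩ⟩
      have hcl : closedBall z (ρ / 2) ⊆ (N \ M) ∩ Ω := (closedBall_subset_ball (by linarith)).trans hball
      have h1 := hFΩ (closedBall z (ρ / 2)) (fun y hy => (hcl hy).2) (fun y hy => (hcl hy).1.1)
        (isCompact_closedBall z (ρ / 2))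
      have h2 : Tendsto (fun k => ∫⁻ w in closedBall z (ρ / 2), ‖F (ns (σ k)) w‖ₑ) atTop (𝓝 0) :=
        h1.comp (hns.comp hσ.tendsto_atTop)
      have h3 : Tendsto (fun k => (∫⁻ w in closedBall z (ρ / 2), ‖F (ns (σ k)) w‖ₑ).toReal / (Real.pi * (ρ / 2) ^ 2))
          atTop (𝓝 0) := by
        have := ((ENNReal.tendsto_toReal ENNReal.zero_ne_top).comp h2).div_const (Real.pi * (ρ / 2) ^ 2)
        rwa [ENNReal.toReal_zero, zero_div] at this
      have h4 : Tendsto (fun k => F (ns (σ k)) z) atTop (𝓝 0) := by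
        refine squeeze_zero_norm (fun k => ?_) h3
        have hsub : ball z (ρ / 2) ⊆ N \ M := (ball_subset_closedBall.trans hcl).trans inter_subset_left
        have hfin : ∫⁻ w in closedBall z (ρ / 2), ‖F (ns (σ k)) w‖ₑ ≠ ⊤ :=
          ne_top_of_le_ne_top ENNReal.ofReal_ne_top ((lintegral_mono_set (fun y hy => (hcl hy).1.1)).trans (hFb (ns (σ k))))
        refine pt_bd (hFm _) (by linarith) ((hFd _).mono hsub) ball_subset_closedBall ENNReal.toReal_nonneg ?_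
        rw [ENNReal.ofReal_toReal hfin]
      exact tendsto_nhds_unique (hpt z hz) h4
    have hG1 : ∀ z ∈ N \ M, G z = 0 := by
      intro z hz
      by_contra hne
      have hc : ContinuousAt G z := (hG.continuousOn z hz).continuousAt (hU.mem_nhds hz)
      have h1 : ∀ᶠ w in 𝓝 z, G w ≠ 0 ∧ w ∈ N \ M := (hc.eventually_ne hne).and (hU.mem_nhds hz)
      obtain ⟨w, ⟨hw1, hw2⟩, hw3⟩ := mem_closure_iff_nhds.1 (hΩd hz) _ h1
      exact hw1 (hG0 w hw2 hw3)
    -- dominated convergence on `K`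
    obtain ⟨ρ, hρ, hthick⟩ := hK.exists_thickening_subset_open hU hKU
    have hbd : ∀ w ∈ K, ∀ k, ‖F (ns (σ k)) w‖ ≤ b / (Real.pi * ρ ^ 2) := by
      intro w hw k
      have hsub : ball w ρ ⊆ N \ M := (ball_subset_thickening hw ρ).trans hthick
      exact pt_bd (hFm _) hρ ((hFd _).mono hsub) (hsub.trans sdiff_subset) hb0 (hFb _)
    have h0 : (0 : ENNReal) = ∫⁻ _ in K, (0 : ENNReal) := by simp
    rw [h0]
    refine tendsto_lintegral_of_dominated_convergence (fun _ => ENNReal.ofReal (b / (Real.pi * ρ ^ 2)))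
      (fun k => (hFm _).enorm) ?_ ?_ ?_
    · intro k
      rw [Filter.EventuallyLE, ae_restrict_iff' hK.isClosed.measurableSet]
      refine Eventually.of_forall fun w hw => ?_
      rw [← ofReal_norm]
      exact ENNReal.ofReal_le_ofReal (hbd w hw k)
    · rw [setLIntegral_const]
      exact ENNReal.mul_ne_top ENNReal.ofReal_ne_top hK.measure_lt_top.ne
    · rw [ae_restrict_iff' hK.isClosed.measurableSet]
      refine Eventually.of_forall fun w hw => ?_
      have h1 := (hpt w (hKU hw)).enorm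
      rwa [hG1 w (hKU hw), enorm_zero] at h1
  have h2 : Tendsto (fun n => ENNReal.ofReal C1 * ∫⁻ w in K, ‖F n w‖ₑ) atTop (𝓝 0) := by
    have := ENNReal.Tendsto.const_mul hFK (Or.inr (ENNReal.ofReal_ne_top (r := C1)))
    rwa [mul_zero] at this
  refine tendsto_of_tendsto_of_tendsto_of_le_of_le tendsto_const_nhds h2 (fun n => bot_le) fun n => ?_
  rw [hF]
  exact hcut (L n) (A n) (x n) (hx n)

/-- no mass on the compact subsets of `Ω`, for almost invariant sums of kernels with poles in `M` -/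
def NMs (a b : Polynomial ℂ) (q : ℂ → ℂ → ℂ) (M N Z Ω : Set ℂ) : Prop := ∀ (L : ℕ → ℕ) (A x : ℕ → ℕ → ℂ),
  (∀ n, ∀ k < L n, x n k ∈ M) → (∀ n, ∫⁻ w in Z, ‖Ph q (L n) (A n) (x n) w‖ₑ ≤ 1) →
  Tendsto (fun n => ∫⁻ w in Z, ‖Ph q (L n) (A n) (x n) w - Pool.Agent.H78.NS.pf a b (Ph q (L n) (A n) (x n)) w‖ₑ) atTop (𝓝 0) →
  ∀ K ⊆ Ω, K ⊆ N → IsCompact K → Tendsto (fun n => ∫⁻ w in K, ‖Ph q (L n) (A n) (x n) w‖ₑ) atTop (𝓝 0)

end Pool.Agent.H15.LOC
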