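import Pool.Agent.H31.LOC.Tlp
import Pool.Agent.H15.LOC.Abd

/-!
# THEOREM ATT+ (think 2069): frequencies of visits

`Vr a b N n z`: the number of visits of `z` in `N` before time `n`. `Es a b N β`: the points with at most `β n + A` visits for all `n`, for some `A`.
`es_inv`: `Es` is completely invariant. `ind`: multiplication with an indicator function on `L ^ 1 (Z)` (from `Pool.Agent.H31.LOC.Loa`, there private). `ind_T`: it commutes with `T` for completely invariant sets.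
`vis`: the resolvent solutions of `u = 1_E u`, `E = Es a b N β`, have mass at most `β ‖u‖ + ε` in `N`.
-/

set_option autoImplicit false

open Filter Topology Polynomial Metric Set MeasureTheory

namespace Pool.Agent.H15.LOC

open Pool.Agent.H61.TT Pool.Agent.H57.CP Pool.Agent.H18.UP
open Pool.Agent.H78.NS (pf)
open Pool.Agent.H31.LOC

variable {d : ℕ} {a b : Polynomial ℂ} {Z N : Set ℂ}

/-- the number of visits in `N` before time `n` -/
noncomputable def Vr (a b : Polynomial ℂ) (N : Set ℂ) (n : ℕ) (z : ℂ) : ℝ :=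
  ∑ k ∈ Finset.range n, ((pre a b)^[k] N).indicator (fun _ => (1 : ℝ)) z

/-- the points with at most `β n + A` visits for all `n` -/
def Ea (a b : Polynomial ℂ) (N : Set ℂ) (β : ℝ) (A : ℕ) : Set ℂ := {z | ∀ n : ℕ, Vr a b N n z ≤ β * n + A}

/-- the points with frequency of visits at most `β` -/
def Es (a b : Polynomial ℂ) (N : Set ℂ) (β : ℝ) : Set ℂ := {z | ∃ A : ℕ, ∀ n : ℕ, Vr a b N n z ≤ β * n + A}

theorem it_meas (hN : MeasurableSet N) (k : ℕ) : MeasurableSet ((pre a b)^[k] N) := by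
  induction k with
  | zero => exact hN
  | succ k ih =>
      rw [Function.iterate_succ_apply']
      exact measurableSet_pre ih

theorem it_sub (hNZ : N ⊆ Z) (hp : pre a b Z ⊆ Z) (k : ℕ) : (pre a b)^[k] N ⊆ Z := by
  induction k with
  | zero => exact hNZ
  | succ k ih =>
      rw [Function.iterate_succ_apply']
      exact fun y hy => hp ⟨hy.1, ih hy.2⟩

theorem it_mono {N' : Set ℂ} (h : N' ⊆ N) (k : ℕ) : (pre a b)^[k] N' ⊆ (pre a b)^[k] N := by
  induction k with
  | zero => exact h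
  | succ k ih =>
      rw [Function.iterate_succ_apply', Function.iterate_succ_apply']
      exact fun y hy => ⟨hy.1, ih hy.2⟩

theorem vr_meas (hN : MeasurableSet N) (n : ℕ) : Measurable (Vr a b N n) := by
  unfold Vr
  exact Finset.measurable_fun_sum _ fun k _ => measurable_const.indicator (it_meas hN k)

theorem vr_nonneg (n : ℕ) (z : ℂ) : 0 ≤ Vr a b N n z :=
  Finset.sum_nonneg fun _ _ => indicator_nonneg (fun _ _ => zero_le_one) z

theorem vr_le (n : ℕ) (z : ℂ) : Vr a b N n z ≤ n := by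
  unfold Vr
  calc ∑ k ∈ Finset.range n, ((pre a b)^[k] N).indicator (fun _ => (1 : ℝ)) z ≤ ∑ _k ∈ Finset.range n, (1 : ℝ) :=
        Finset.sum_le_sum fun k _ => indicator_le_self' (fun _ _ => zero_le_one) z
    _ = n := by simp

theorem vr_mono {N' : Set ℂ} (h : N' ⊆ N) (n : ℕ) (z : ℂ) : Vr a b N' n z ≤ Vr a b N n z :=
  Finset.sum_le_sum fun k _ => indicator_le_indicator_of_subset (it_mono h k) (fun _ => zero_le_one) z

theorem vr_add {m n : ℕ} (h : m ≤ n) (z : ℂ) : Vr a b N m z ≤ Vr a b N n z := by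
  unfold Vr
  exact Finset.sum_le_sum_of_subset_of_nonneg (Finset.range_subset_range.2 h)
    fun k _ _ => indicator_nonneg (fun _ _ => zero_le_one) z

theorem vr_succ {z : ℂ} (hz : b.eval z ≠ 0) (n : ℕ) :
    Vr a b N (n + 1) z = N.indicator (fun _ => (1 : ℝ)) z + Vr a b N n (gg a b z) := by
  unfold Vr
  rw [Finset.sum_range_succ', add_comm]
  refine congrArg₂ (· + ·) rfl (Finset.sum_congr rfl fun k _ => ?_)
  rw [Function.iterate_succ_apply']
  by_cases h : gg a b z ∈ (pre a b)^[k] N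
  · rw [indicator_of_mem h, indicator_of_mem (show z ∈ pre a b ((pre a b)^[k] N) from ⟨hz, h⟩)]
  · rw [indicator_of_notMem h, indicator_of_notMem fun h1 : z ∈ pre a b ((pre a b)^[k] N) => h h1.2]

theorem vr_card (n : ℕ) (z : ℂ) : Vr a b N n z = ({k | k < n ∧ z ∈ (pre a b)^[k] N} : Set ℕ).ncard := by
  classical
  have h1 : ({k | k < n ∧ z ∈ (pre a b)^[k] N} : Set ℕ) = ((Finset.range n).filter (fun k => z ∈ (pre a b)^[k] N) : Finset ℕ) := by
    ext k
    simp
  rw [h1, Set.ncard_coe_finset, Finset.card_filter]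
  push_cast
  unfold Vr
  refine Finset.sum_congr rfl fun k _ => ?_
  by_cases h : z ∈ (pre a b)^[k] N
  · rw [indicator_of_mem h, if_pos h]
  · rw [indicator_of_notMem h, if_neg h]

theorem ea_meas (hN : MeasurableSet N) (β : ℝ) (A : ℕ) : MeasurableSet (Ea a b N β A) := by
  have h1 : Ea a b N β A = ⋂ n : ℕ, {z | Vr a b N n z ≤ β * n + A} := by
    ext z
    simp [Ea]
  rw [h1]
  exact MeasurableSet.iInter fun n => measurableSet_le (vr_meas hN n) measurable_const

theorem es_eq (β : ℝ) : Es a b N β = ⋃ A : ℕ, Ea a b N β A := by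
  ext z
  simp [Es, Ea]

theorem es_meas (hN : MeasurableSet N) (β : ℝ) : MeasurableSet (Es a b N β) := by
  rw [es_eq]
  exact MeasurableSet.iUnion fun A => ea_meas hN β A

theorem es_mono {N' : Set ℂ} (h : N' ⊆ N) {β β' : ℝ} (hβ : β ≤ β') : Es a b N β ⊆ Es a b N' β' := by
  rintro z ⟨A, hA⟩
  refine ⟨A, fun n => (vr_mono h n z).trans ((hA n).trans ?_)⟩
  have : (0 : ℝ) ≤ n := Nat.cast_nonneg n
  nlinarith

theorem es_inv {β : ℝ} (h0 : 0 ≤ β) (h1 : β ≤ 1) {z : ℂ} (hz : b.eval z ≠ 0) : gg a b z ∈ Es a b N β ↔ z ∈ Es a b N β := by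
  constructor
  · rintro ⟨A, hA⟩
    refine ⟨A + 1, fun n => ?_⟩
    rcases n with _ | n
    · have h2 : Vr a b N 0 z = 0 := by simp [Vr]
      rw [h2]
      positivity
    · rw [vr_succ hz]
      have h2 := hA n
      have h3 : N.indicator (fun _ => (1 : ℝ)) z ≤ 1 := indicator_le_self' (fun _ _ => zero_le_one) z
      push_cast
      nlinarith
  · rintro ⟨A, hA⟩
    refine ⟨A + 1, fun n => ?_⟩
    have h2 := hA (n + 1)
    rw [vr_succ hz] at h2
    have h3 : 0 ≤ N.indicator (fun _ => (1 : ℝ)) z := indicator_nonneg (fun _ _ => zero_le_one) z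
    push_cast at h2 ⊢
    nlinarith

theorem es_fin {β : ℝ} (h0 : 0 ≤ β) {z : ℂ} (h : ∀ᶠ n : ℕ in atTop, z ∉ (pre a b)^[n] N) : z ∈ Es a b N β := by
  obtain ⟨m, hm⟩ := eventually_atTop.1 h
  refine ⟨m, fun n => ?_⟩
  have h1 : Vr a b N n z ≤ m := by
    have h2 : Vr a b N n z ≤ Vr a b N m z := by
      rcases le_total n m with h3 | h3
      · exact vr_add h3 z
      · unfold Vr
        rw [← Finset.sum_range_add_sum_Ico _ h3]
        have h4 : ∑ k ∈ Finset.Ico m n, ((pre a b)^[k] N).indicator (fun _ => (1 : ℝ)) z = 0 := by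
          refine Finset.sum_eq_zero fun k hk => ?_
          exact indicator_of_notMem (hm k (Finset.mem_Ico.1 hk).1) _
        rw [h4, add_zero]
    exact h2.trans (vr_le m z)
  have h2 : 0 ≤ β * n := mul_nonneg h0 (Nat.cast_nonneg n)
  linarith

theorem es_not {β ε : ℝ} (h0 : 0 ≤ β) (hβ : 1 - ε ≤ β) {N' : Set ℂ} (hN : N' ⊆ N) {z : ℂ} (h : z ∉ Es a b N' β) (n0 : ℕ) :
    ∃ n ≥ n0, (1 - ε) * n ≤ Vr a b N n z := by
  by_contra hcon
  push Not at hcon
  apply h
  refine ⟨n0, fun n => ?_⟩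
  have hn : (0 : ℝ) ≤ n := Nat.cast_nonneg n
  have h1 : (1 - ε) * n ≤ β * n := mul_le_mul_of_nonneg_right hβ hn
  rcases le_total n0 n with h2 | h2
  · have h3 := vr_mono (a := a) (b := b) hN n z
    have h4 := hcon n h2
    have h5 : (0 : ℝ) ≤ n0 := Nat.cast_nonneg n0
    linarith
  · have h3 := vr_le (a := a) (b := b) (N := N') n z
    have h4 : (n : ℝ) ≤ n0 := by exact_mod_cast h2
    have h5 : 0 ≤ β * n := mul_nonneg h0 hn
    linarith

theorem n1 (u : Lp ℂ 1 (volume.restrict Z)) : ‖u‖ₑ = ∫⁻ w in Z, ‖(u : ℂ → ℂ) w‖ₑ := by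
  rw [Lp.enorm_def, eLpNorm_one_eq_lintegral_enorm]

theorem n2 (u : Lp ℂ 1 (volume.restrict Z)) : ENNReal.ofReal ‖u‖ = ∫⁻ w in Z, ‖(u : ℂ → ℂ) w‖ₑ := by
  rw [← n1, ofReal_norm]

theorem n4 (u : Lp ℂ 1 (volume.restrict Z)) : ∫⁻ w in Z, ‖(u : ℂ → ℂ) w‖ₑ ≠ ⊤ := by
  rw [← n2]
  exact ENNReal.ofReal_ne_top

/-- multiplication with the indicator function -/
noncomputable def ind (Z : Set ℂ) {B : Set ℂ} (hB : MeasurableSet B) :
    Lp ℂ 1 (volume.restrict Z) →L[ℂ] Lp ℂ 1 (volume.restrict Z) :=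
  LinearMap.mkContinuous
    { toFun := fun u => ((Lp.memLp u).indicator hB).toLp (B.indicator (u : ℂ → ℂ))
      map_add' := by
        intro u v
        apply Lp.ext
        filter_upwards [((Lp.memLp (u + v)).indicator hB).coeFn_toLp, ((Lp.memLp u).indicator hB).coeFn_toLp,
          ((Lp.memLp v).indicator hB).coeFn_toLp, Lp.coeFn_add u v,
          Lp.coeFn_add (((Lp.memLp u).indicator hB).toLp (B.indicator (u : ℂ → ℂ)))
            (((Lp.memLp v).indicator hB).toLp (B.indicator (v : ℂ → ℂ)))] with w h1 h2 h3 h4 h5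
        rw [h1, h5, Pi.add_apply, h2, h3]
        by_cases hw : w ∈ B
        · rw [indicator_of_mem hw, indicator_of_mem hw, indicator_of_mem hw, h4, Pi.add_apply]
        · rw [indicator_of_notMem hw, indicator_of_notMem hw, indicator_of_notMem hw, add_zero]
      map_smul' := by
        intro c u
        apply Lp.ext
        filter_upwards [((Lp.memLp (c • u)).indicator hB).coeFn_toLp, ((Lp.memLp u).indicator hB).coeFn_toLp,
          Lp.coeFn_smul c u, Lp.coeFn_smul c (((Lp.memLp u).indicator hB).toLp (B.indicator (u : ℂ → ℂ)))] with w h1 h2 h4 h5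
        rw [h1, RingHom.id_apply, h5, Pi.smul_apply, h2]
        by_cases hw : w ∈ B
        · rw [indicator_of_mem hw, indicator_of_mem hw, h4, Pi.smul_apply]
        · rw [indicator_of_notMem hw, indicator_of_notMem hw, smul_zero] } 1 (by
      intro u
      rw [one_mul]
      change ‖((Lp.memLp u).indicator hB).toLp (B.indicator (u : ℂ → ℂ))‖ ≤ ‖u‖
      rw [Lp.norm_toLp, Lp.norm_def]
      exact ENNReal.toReal_mono (Lp.eLpNorm_ne_top u) (eLpNorm_indicator_le _))

theorem ind_ae {B : Set ℂ} (hB : MeasurableSet B) (u : Lp ℂ 1 (volume.restrict Z)) :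
    (ind Z hB u : ℂ → ℂ) =ᵐ[volume.restrict Z] B.indicator (u : ℂ → ℂ) :=
  ((Lp.memLp u).indicator hB).coeFn_toLp

theorem ind_le {B : Set ℂ} (hB : MeasurableSet B) (u : Lp ℂ 1 (volume.restrict Z)) : ‖ind Z hB u‖ ≤ ‖u‖ := by
  change ‖((Lp.memLp u).indicator hB).toLp (B.indicator (u : ℂ → ℂ))‖ ≤ ‖u‖
  rw [Lp.norm_toLp, Lp.norm_def]
  exact ENNReal.toReal_mono (Lp.eLpNorm_ne_top u) (eLpNorm_indicator_le _)

theorem ind_no {N : Set ℂ} (hN : MeasurableSet N) (hNZ : N ⊆ Z) (u : Lp ℂ 1 (volume.restrict Z)) :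
    ENNReal.ofReal ‖ind Z hN u‖ = ∫⁻ w in N, ‖(u : ℂ → ℂ) w‖ₑ := by
  rw [n2]
  have h1 : ∫⁻ w in Z, ‖(ind Z hN u : ℂ → ℂ) w‖ₑ = ∫⁻ w in Z, N.indicator (fun w => ‖(u : ℂ → ℂ) w‖ₑ) w := by
    apply lintegral_congr_ae
    filter_upwards [ind_ae hN u] with w hw
    rw [hw]
    by_cases hwN : w ∈ N
    · rw [indicator_of_mem hwN, indicator_of_mem hwN]
    · rw [indicator_of_notMem hwN, indicator_of_notMem hwN, enorm_zero]
  rw [h1, lintegral_indicator hN, Measure.restrict_restrict hN, inter_eq_left.2 hNZ]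

theorem ind_ind {B : Set ℂ} (hB : MeasurableSet B) (u : Lp ℂ 1 (volume.restrict Z)) :
    ind Z hB (ind Z hB u) = ind Z hB u := by
  apply Lp.ext
  filter_upwards [ind_ae hB u, ind_ae hB (ind Z hB u)] with w h1 h2
  rw [h2]
  by_cases hw : w ∈ B
  · rw [indicator_of_mem hw]
  · rw [indicator_of_notMem hw, h1, indicator_of_notMem hw]

theorem ind_comm {B B' : Set ℂ} (hB : MeasurableSet B) (hB' : MeasurableSet B') (u : Lp ℂ 1 (volume.restrict Z)) :
    ind Z hB (ind Z hB' u) = ind Z hB' (ind Z hB u) := by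
  apply Lp.ext
  filter_upwards [ind_ae hB u, ind_ae hB' u, ind_ae hB (ind Z hB' u), ind_ae hB' (ind Z hB u)] with w h1 h2 h3 h4
  rw [h3, h4]
  by_cases hw : w ∈ B
  · by_cases hw' : w ∈ B'
    · rw [indicator_of_mem hw, indicator_of_mem hw', h1, h2, indicator_of_mem hw, indicator_of_mem hw']
    · rw [indicator_of_mem hw, indicator_of_notMem hw', h2, indicator_of_notMem hw']
  · by_cases hw' : w ∈ B'
    · rw [indicator_of_notMem hw, indicator_of_mem hw', h1, indicator_of_notMem hw]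
    · rw [indicator_of_notMem hw, indicator_of_notMem hw']

/-- `T` commutes with the indicator functions of completely invariant sets -/
theorem ind_T (h : RatD d a b) {T : Lp ℂ 1 (volume.restrict Z) →L[ℂ] Lp ℂ 1 (volume.restrict Z)} (hT : IsT a b Z T)
    {E : Set ℂ} (hE : MeasurableSet E) (hi : ∀ z : ℂ, b.eval z ≠ 0 → (gg a b z ∈ E ↔ z ∈ E)) (u : Lp ℂ 1 (volume.restrict Z)) :
    T (ind Z hE u) = ind Z hE (T u) := by
  obtain ⟨ψ, hψm, hψ⟩ : ∃ ψ : ℂ → ℂ, Measurable ψ ∧ (u : ℂ → ℂ) =ᵐ[volume.restrict Z] ψ :=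
    ⟨(Lp.aestronglyMeasurable u).mk _, (Lp.aestronglyMeasurable u).stronglyMeasurable_mk.measurable,
      (Lp.aestronglyMeasurable u).ae_eq_mk⟩
  have h1 : (ind Z hE u : ℂ → ℂ) =ᵐ[volume.restrict Z] E.indicator ψ := by
    filter_upwards [ind_ae hE u, hψ] with w h2 h3
    rw [h2]
    by_cases hw : w ∈ E
    · rw [indicator_of_mem hw, indicator_of_mem hw, h3]
    · rw [indicator_of_notMem hw, indicator_of_notMem hw]
  apply Lp.ext
  filter_upwards [hT _ _ (hψm.indicator hE) h1, hT u ψ hψm hψ, ind_ae hE (T u)] with w h2 h3 h4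
  rw [h2, h4]
  unfold pf
  by_cases hw : w ∈ E
  · rw [indicator_of_mem hw, h3]
    unfold pf
    refine Finset.sum_congr rfl fun y hy => ?_
    have h5 := (Pool.Agent.H43.UP.fs_iff h).1 hy
    rw [indicator_of_mem ((hi y h5.1).1 (by rw [h5.2]; exact hw))]
  · rw [indicator_of_notMem hw]
    refine Finset.sum_eq_zero fun y hy => ?_
    have h5 := (Pool.Agent.H43.UP.fs_iff h).1 hy
    rw [indicator_of_notMem fun h6 => hw (by rw [← h5.2]; exact (hi y h5.1).2 h6), zero_div]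

/-- the mass of `T ^ k u` in `N` -/
theorem ind_it (h : RatD d a b) (hZ : MeasurableSet Z) (hp : pre a b Z ⊆ Z)
    {T : Lp ℂ 1 (volume.restrict Z) →L[ℂ] Lp ℂ 1 (volume.restrict Z)} (hT : IsT a b Z T)
    (hN : MeasurableSet N) (hNZ : N ⊆ Z) (u : Lp ℂ 1 (volume.restrict Z)) (k : ℕ) :
    ‖ind Z hN ((T ^ k) u)‖ ≤ ∫ z in Z, ((pre a b)^[k] N).indicator (fun z => ‖(u : ℂ → ℂ) z‖) z := by
  have hw : Integrable (fun z => ‖(u : ℂ → ℂ) z‖) (volume.restrict Z) := (L1.integrable_coeFn u).norm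
  have hm := it_meas (a := a) (b := b) hN k
  have h1 : 0 ≤ ∫ z in Z, ((pre a b)^[k] N).indicator (fun z => ‖(u : ℂ → ℂ) z‖) z :=
    integral_nonneg fun z => indicator_nonneg (fun _ _ => norm_nonneg _) z
  refine (ENNReal.ofReal_le_ofReal_iff h1).1 ?_
  rw [ind_no hN hNZ, ofReal_integral_eq_lintegral_ofReal (hw.indicator hm)
    (Eventually.of_forall fun z => indicator_nonneg (fun _ _ => norm_nonneg _) z)]
  refine (tlp_it h hZ hp hT k u hN hNZ).trans (le_of_eq ?_)
  have h2 : ∫⁻ w in (pre a b)^[k] N, ‖(u : ℂ → ℂ) w‖ₑ =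
      ∫⁻ w in Z, ((pre a b)^[k] N).indicator (fun w => ‖(u : ℂ → ℂ) w‖ₑ) w := by
    rw [lintegral_indicator hm, Measure.restrict_restrict hm, inter_eq_left.2 (it_sub hNZ hp k)]
  rw [h2]
  refine lintegral_congr fun w => ?_
  by_cases hwN : w ∈ (pre a b)^[k] N
  · rw [indicator_of_mem hwN, indicator_of_mem hwN, ofReal_norm]
  · rw [indicator_of_notMem hwN, indicator_of_notMem hwN, ENNReal.ofReal_zero]

/-- the mass of the resolvent solutions of `u = 1_E u` in `N` -/
theorem vis (h : RatD d a b) (hZ : MeasurableSet Z) (hp : pre a b Z ⊆ Z)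
    {T : Lp ℂ 1 (volume.restrict Z) →L[ℂ] Lp ℂ 1 (volume.restrict Z)} (hT1 : ∀ u, ‖T u‖ ≤ ‖u‖) (hT : IsT a b Z T)
    (hN : MeasurableSet N) (hNZ : N ⊆ Z) {β : ℝ} (h0 : 0 ≤ β)
    (u : Lp ℂ 1 (volume.restrict Z)) (hu : ind Z (es_meas (a := a) (b := b) hN β) u = u) (ε : ℝ) (hε : 0 < ε) :
    ∃ η : ℝ, 0 < η ∧ ∀ t : ℝ, 0 < t → t < 1 → 1 - t < η → ∀ y : Lp ℂ 1 (volume.restrict Z),
      y - (t : ℂ) • T y = (1 - t : ℂ) • u → ‖ind Z hN y‖ ≤ β * ‖u‖ + ε := by
  obtain ⟨w, hwd⟩ : ∃ w : ℂ → ℝ, w = fun z => ‖(u : ℂ → ℂ) z‖ := ⟨_, rfl⟩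
  have hw0 : ∀ z, 0 ≤ w z := fun z => by rw [hwd]; exact norm_nonneg _
  have hw : Integrable w (volume.restrict Z) := by
    rw [hwd]
    exact (L1.integrable_coeFn u).norm
  have hwu : ∫ z in Z, w z = ‖u‖ := by
    rw [hwd, L1.norm_eq_integral_norm]
  have huE : ∀ᵐ z ∂(volume.restrict Z), z ∉ Es a b N β → w z = 0 := by
    have h1 := ind_ae (Z := Z) (es_meas (a := a) (b := b) hN β) u
    rw [hu] at h1
    filter_upwards [h1] with z hz hzE
    rw [indicator_of_notMem hzE] at hz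
    rw [hwd]
    simp only [hz, norm_zero]
  -- the part with few visits
  have hlim : Tendsto (fun A : ℕ => ∫ z in Z, (Ea a b N β A)ᶜ.indicator w z) atTop (𝓝 0) := by
    have h1 : (0 : ℝ) = ∫ _ in Z, (0 : ℝ) := by simp
    rw [h1]
    refine tendsto_integral_of_dominated_convergence w ?_ hw ?_ ?_
    · intro A
      exact (hw.indicator (ea_meas hN β A).compl).aestronglyMeasurable
    · intro A
      refine Eventually.of_forall fun z => ?_
      rw [Real.norm_of_nonneg (indicator_nonneg (fun z _ => hw0 z) z)]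
      exact indicator_le_self' (fun z _ => hw0 z) z
    · filter_upwards [huE] with z hz
      by_cases hzE : z ∈ Es a b N β
      · obtain ⟨A, hA⟩ := hzE
        refine tendsto_const_nhds.congr' ?_
        filter_upwards [eventually_ge_atTop A] with A' hA'
        have h2 : z ∉ (Ea a b N β A')ᶜ := by
          rw [mem_compl_iff, not_not]
          intro n
          have h3 : (A : ℝ) ≤ A' := by exact_mod_cast hA'
          exact (hA n).trans (by linarith)
        rw [indicator_of_notMem h2]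
      · have h2 : ∀ A : ℕ, (Ea a b N β A)ᶜ.indicator w z = 0 := by
          intro A
          by_cases h3 : z ∈ (Ea a b N β A)ᶜ
          · rw [indicator_of_mem h3, hz hzE]
          · rw [indicator_of_notMem h3]
        simp only [h2]
        exact tendsto_const_nhds
  obtain ⟨A, hA⟩ := (hlim.eventually (gt_mem_nhds (show (0 : ℝ) < ε / 2 by linarith))).exists
  have hEm := ea_meas (a := a) (b := b) hN β A
  obtain ⟨c, hc⟩ : ∃ c : ℕ → ℝ, c = fun k => ∫ z in Z, ((pre a b)^[k] N ∩ Ea a b N β A).indicator w z := ⟨_, rfl⟩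
  have hint : ∀ k : ℕ, Integrable (((pre a b)^[k] N ∩ Ea a b N β A).indicator w) (volume.restrict Z) := fun k =>
    hw.indicator ((it_meas hN k).inter hEm)
  have hpk : ∀ k : ℕ, ‖ind Z hN ((T ^ k) u)‖ ≤ c k + ε / 2 := by
    intro k
    have h1 := ind_it h hZ hp hT hN hNZ u k
    rw [← hwd] at h1
    have h2 : ∫ z in Z, ((pre a b)^[k] N).indicator w z ≤
        ∫ z in Z, (((pre a b)^[k] N ∩ Ea a b N β A).indicator w z + (Ea a b N β A)ᶜ.indicator w z) := by
      refine integral_mono (hw.indicator (it_meas hN k)) ((hint k).add (hw.indicator hEm.compl)) fun z => ?_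
      show _ ≤ ((pre a b)^[k] N ∩ Ea a b N β A).indicator w z + (Ea a b N β A)ᶜ.indicator w z
      by_cases hz : z ∈ Ea a b N β A
      · by_cases hz2 : z ∈ (pre a b)^[k] N
        · rw [indicator_of_mem hz2, indicator_of_mem (show z ∈ (pre a b)^[k] N ∩ Ea a b N β A from ⟨hz2, hz⟩)]
          have := indicator_nonneg (s := (Ea a b N β A)ᶜ) (f := w) (fun z _ => hw0 z) z
          linarith
        · rw [indicator_of_notMem hz2]
          exact add_nonneg (indicator_nonneg (fun z _ => hw0 z) z) (indicator_nonneg (fun z _ => hw0 z) z)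
      · rw [indicator_of_mem (show z ∈ (Ea a b N β A)ᶜ from hz)]
        have h3 := indicator_le_self' (s := (pre a b)^[k] N) (f := w) (fun z _ => hw0 z) z
        have h4 := indicator_nonneg (s := (pre a b)^[k] N ∩ Ea a b N β A) (f := w) (fun z _ => hw0 z) z
        linarith
    rw [integral_add (hint k) (hw.indicator hEm.compl)] at h2
    rw [hc]
    show _ ≤ (∫ z in Z, ((pre a b)^[k] N ∩ Ea a b N β A).indicator w z) + ε / 2
    linarith
  have hsum : ∀ n : ℕ, ∑ k ∈ Finset.range n, c k ≤ A * ‖u‖ + β * ‖u‖ * n := by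
    intro n
    have h1 : ∑ k ∈ Finset.range n, c k =
        ∫ z in Z, ∑ k ∈ Finset.range n, ((pre a b)^[k] N ∩ Ea a b N β A).indicator w z := by
      rw [integral_finsetSum _ fun k _ => hint k, hc]
    have h2 : ∫ z in Z, ∑ k ∈ Finset.range n, ((pre a b)^[k] N ∩ Ea a b N β A).indicator w z ≤
        ∫ z in Z, (β * n + A) * w z := by
      refine integral_mono (integrable_finsetSum _ fun k _ => hint k) (hw.const_mul _) fun z => ?_
      show ∑ k ∈ Finset.range n, ((pre a b)^[k] N ∩ Ea a b N β A).indicator w z ≤ (β * n + A) * w z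
      have hn : (0 : ℝ) ≤ β * n + A := by positivity
      by_cases hz : z ∈ Ea a b N β A
      · have h3 : ∑ k ∈ Finset.range n, ((pre a b)^[k] N ∩ Ea a b N β A).indicator w z = Vr a b N n z * w z := by
          unfold Vr
          rw [Finset.sum_mul]
          refine Finset.sum_congr rfl fun k _ => ?_
          by_cases hz2 : z ∈ (pre a b)^[k] N
          · rw [indicator_of_mem (show z ∈ (pre a b)^[k] N ∩ Ea a b N β A from ⟨hz2, hz⟩), indicator_of_mem hz2, one_mul]
          · rw [indicator_of_notMem fun h4 : z ∈ (pre a b)^[k] N ∩ Ea a b N β A => hz2 h4.1, indicator_of_notMem hz2,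
              zero_mul]
        rw [h3]
        exact mul_le_mul_of_nonneg_right (hz n) (hw0 z)
      · have h3 : ∑ k ∈ Finset.range n, ((pre a b)^[k] N ∩ Ea a b N β A).indicator w z = 0 := by
          refine Finset.sum_eq_zero fun k _ => ?_
          exact indicator_of_notMem (fun h4 => hz h4.2) _
        rw [h3]
        exact mul_nonneg hn (hw0 z)
    rw [integral_const_mul, hwu] at h2
    rw [h1]
    linarith
  refine ⟨ε / (4 * (A * ‖u‖ + 1)), by positivity, fun t ht0 ht1 ht y hy => ?_⟩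
  have hexp := ab_exp T hT1 (fun u => ‖ind Z hN u‖) (fun u => ind_le hN u)
    (fun u v => by rw [map_add]; exact norm_add_le _ _) (fun c u => by rw [map_smul, norm_smul]) u ht0 ht1 y hy
  obtain ⟨K, hK⟩ : ∃ K : ℕ, t ^ K * ‖u‖ < ε / 4 := by
    have h1 : Tendsto (fun K : ℕ => t ^ K * ‖u‖) atTop (𝓝 0) := by
      have := (tendsto_pow_atTop_nhds_zero_of_lt_one ht0.le ht1).mul_const ‖u‖
      rwa [zero_mul] at this
    exact (h1.eventually (gt_mem_nhds (show (0 : ℝ) < ε / 4 by linarith))).exists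
  have hgeo : (1 - t) * ∑ k ∈ Finset.range K, t ^ k ≤ 1 := by
    rw [mul_neg_geom_sum t K]
    have := pow_nonneg ht0.le K
    linarith
  have h1 : ∑ k ∈ Finset.range K, t ^ k * ‖ind Z hN ((T ^ k) u)‖ ≤
      (A * ‖u‖ + β * ‖u‖ * ∑ k ∈ Finset.range K, t ^ k) + (∑ k ∈ Finset.range K, t ^ k) * (ε / 2) := by
    have h2 : ∑ k ∈ Finset.range K, t ^ k * ‖ind Z hN ((T ^ k) u)‖ ≤ ∑ k ∈ Finset.range K, (t ^ k * c k + t ^ k * (ε / 2)) := by
      refine Finset.sum_le_sum fun k _ => ?_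
      rw [← mul_add]
      exact mul_le_mul_of_nonneg_left (hpk k) (pow_nonneg ht0.le k)
    rw [Finset.sum_add_distrib, ← Finset.sum_mul] at h2
    have h3 := abel_fin hsum ht0 ht1 K
    linarith
  have h2 := mul_le_mul_of_nonneg_left h1 (show (0 : ℝ) ≤ 1 - t by linarith)
  have h3 := hexp K
  have h4 : (1 - t) * (A * ‖u‖) ≤ ε / 4 := by
    have h5 : (1 - t) * (A * ‖u‖ + 1) ≤ ε / (4 * (A * ‖u‖ + 1)) * (A * ‖u‖ + 1) :=
      mul_le_mul_of_nonneg_right ht.le (by positivity)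
    have h6 : ε / (4 * (A * ‖u‖ + 1)) * (A * ‖u‖ + 1) = ε / 4 := by
      field_simp
    nlinarith
  have h5 : (1 - t) * ((A * ‖u‖ + β * ‖u‖ * ∑ k ∈ Finset.range K, t ^ k) + (∑ k ∈ Finset.range K, t ^ k) * (ε / 2)) =
      (1 - t) * (A * ‖u‖) + ((1 - t) * ∑ k ∈ Finset.range K, t ^ k) * (β * ‖u‖) +
        ((1 - t) * ∑ k ∈ Finset.range K, t ^ k) * (ε / 2) := by ring
  have h6 : ((1 - t) * ∑ k ∈ Finset.range K, t ^ k) * (β * ‖u‖) ≤ 1 * (β * ‖u‖) :=
    mul_le_mul_of_nonneg_right hgeo (by positivity)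
  have h7 : ((1 - t) * ∑ k ∈ Finset.range K, t ^ k) * (ε / 2) ≤ 1 * (ε / 2) :=
    mul_le_mul_of_nonneg_right hgeo (by linarith)
  linarith

end Pool.Agent.H15.LOC
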