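import Pool.Agent.H15.LOC.Apf
import Pool.Agent.H15.LOC.Off
import Pool.Agent.H15.LOC.Vis
import Pool.Agent.H31.LOC.Inv

/-!
# THEOREM ATT+ (think 2069), abstract form

`lod`: in the setting `LD` (`B`: any completely invariant set such that almost all other points visit `N` finitely often), let `Ω` be an open set, dense in `N \ M`, such that almost all points of the
supports of the invariant Beltrami differentials visit compact subsets of `Ω` finitely often. Then there are a completely invariant set `G` in `B` and an invariant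
bounded `μ`, not zero, which vanishes off `G`, such that all points of `G` visit every neighbourhood of `M` with upper density one.
-/

set_option autoImplicit false

open Filter Topology Polynomial Metric Set MeasureTheory

namespace Pool.Agent.H15.LOC

open Pool.Agent.H61.TT Pool.Agent.H57.CP Pool.Agent.H18.UP
open Pool.Agent.H78.NS (pf)
open Pool.Agent.H31.LOC

variable {d : ℕ} {a b : Polynomial ℂ} {M N Z S B : Set ℂ} {q r : ℂ → ℂ → ℂ} {D : ℕ} {φ X : ℕ → ℂ → ℂ} {δ C : ℝ}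

private theorem ph_smul (c : ℂ) (L : ℕ) (A x : ℕ → ℂ) (w : ℂ) :
    Ph q L (fun k => c * A k) x w = c * Ph q L A x w := by
  unfold Ph
  rw [Finset.mul_sum]
  exact Finset.sum_congr rfl fun k _ => mul_assoc _ _ _

private theorem pf_smul (c : ℂ) (ψ : ℂ → ℂ) (w : ℂ) :
    pf a b (fun y => c * ψ y) w = c * pf a b ψ w := by
  unfold pf
  rw [Finset.mul_sum]
  exact Finset.sum_congr rfl fun y _ => mul_div_assoc _ _ _

/-- normalized approximate solutions -/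
theorem apn (h : LD d a b M N Z S B q r D φ X δ C) : ∃ C1 : ℝ, 0 ≤ C1 ∧ ∀ σ : ℝ, 0 < σ → σ < 1 →
    ∃ (L : ℕ) (A x : ℕ → ℂ) (t : ℕ → ℂ), (∀ k < L, x k ∈ M) ∧ IntegrableOn (Ph q L A x) Z ∧
      ∫⁻ w in Z, ‖Ph q L A x w‖ₑ = 1 ∧ (∀ j ≤ D, ‖t j‖ ≤ C1) ∧
      ∫⁻ w in Z, ‖Ph q L A x w - σ * pf a b (Ph q L A x) w - (1 - σ) * ∑ j ∈ Finset.range (D + 1), t j * φ j w‖ₑ ≤
        ENNReal.ofReal ((1 - σ) ^ 2) := by
  obtain ⟨C1, hC1, hap⟩ := apf h
  refine ⟨C1, by linarith, fun σ hσ0 hσ1 => ?_⟩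
  obtain ⟨L, A, x, t, hx, hi, h0, ht, he⟩ := hap σ hσ0 hσ1
  obtain ⟨m, hm⟩ : ∃ m, m = (∫⁻ w in Z, ‖Ph q L A x w‖ₑ).toReal := ⟨_, rfl⟩
  have hfin : ∫⁻ w in Z, ‖Ph q L A x w‖ₑ ≠ ⊤ := hi.2.ne
  have hmo : ENNReal.ofReal m = ∫⁻ w in Z, ‖Ph q L A x w‖ₑ := by rw [hm, ENNReal.ofReal_toReal hfin]
  have hm0 : 0 < m := by rw [hm]; exact ENNReal.toReal_pos h0 hfin
  obtain ⟨c, hc⟩ : ∃ c : ℂ, c = ((m⁻¹ : ℝ) : ℂ) := ⟨_, rfl⟩
  have hcn : ‖c‖ₑ = ENNReal.ofReal m⁻¹ := by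
    rw [← ofReal_norm, hc, Complex.norm_real, Real.norm_of_nonneg (inv_nonneg.2 hm0.le)]
  have hcm : ENNReal.ofReal m⁻¹ * ENNReal.ofReal m = 1 := by
    rw [← ENNReal.ofReal_mul (inv_nonneg.2 hm0.le), inv_mul_cancel₀ hm0.ne', ENNReal.ofReal_one]
  have hfe : Ph q L (fun k => c * A k) x = fun w => c * Ph q L A x w := funext fun w => ph_smul c L A x w
  refine ⟨L, fun k => c * A k, x, fun j => c * t j, hx, ?_, ?_, ?_, ?_⟩
  · rw [hfe]
    exact hi.const_mul c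
  · rw [hfe]
    have h1 : ∫⁻ w in Z, ‖c * Ph q L A x w‖ₑ = ‖c‖ₑ * ∫⁻ w in Z, ‖Ph q L A x w‖ₑ := by
      rw [← lintegral_const_mul' _ _ enorm_ne_top]
      exact lintegral_congr fun w => enorm_mul _ _
    rw [h1, hcn, ← hmo, hcm]
  · intro j hj
    have h1 := ht j hj
    rw [← hmo, ← ENNReal.ofReal_mul (by linarith), ← ofReal_norm] at h1
    have h2 := (ENNReal.ofReal_le_ofReal_iff (mul_nonneg (by linarith) hm0.le)).1 h1
    rw [norm_mul, hc, Complex.norm_real, Real.norm_of_nonneg (inv_nonneg.2 hm0.le), inv_mul_le_iff₀ hm0, mul_comm]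
    exact h2
  · rw [hfe]
    have h1 : ∀ w, ‖c * Ph q L A x w - σ * pf a b (fun w => c * Ph q L A x w) w -
        (1 - σ) * ∑ j ∈ Finset.range (D + 1), (c * t j) * φ j w‖ₑ =
        ‖c‖ₑ * ‖Ph q L A x w - σ * pf a b (Ph q L A x) w - (1 - σ) * ∑ j ∈ Finset.range (D + 1), t j * φ j w‖ₑ := by
      intro w
      rw [← enorm_mul, pf_smul]
      have h2 : ∑ j ∈ Finset.range (D + 1), (c * t j) * φ j w = c * ∑ j ∈ Finset.range (D + 1), t j * φ j w := by
        rw [Finset.mul_sum]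
        exact Finset.sum_congr rfl fun j _ => mul_assoc _ _ _
      rw [h2]
      refine congrArg _ ?_
      ring
    rw [lintegral_congr h1, lintegral_const_mul' _ _ enorm_ne_top, hcn]
    refine (mul_le_mul' le_rfl he).trans (le_of_eq ?_)
    rw [← hmo, mul_comm (ENNReal.ofReal ((1 - σ) ^ 2)), ← mul_assoc, hcm, one_mul]

/-- functions off the supports of the invariant differentials -/
private theorem kill (h : RatD d a b) (hZ : MeasurableSet Z) (hp : pre a b Z ⊆ Z)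
    {T : Lp ℂ 1 (volume.restrict Z) →L[ℂ] Lp ℂ 1 (volume.restrict Z)} (hT : IsT a b Z T) {L0 : Set ℂ}
    (hL0 : ∀ (μ : ℂ → ℂ) (C1 : ℝ), Measurable μ → (∀ z, ‖μ z‖ ≤ C1) →
      (∀ᵐ z : ℂ, z ∈ pre a b Z → μ (gg a b z) * (starRingEnd ℂ) (dg a b z) = μ z * dg a b z) →
      ∀ᵐ z : ℂ, z ∈ Z → z ∉ L0 → μ z = 0) (u : Lp ℂ 1 (volume.restrict Z))
    (hu : ∀ᵐ z ∂(volume.restrict Z), z ∈ L0 → (u : ℂ → ℂ) z = 0) :
    u ∈ closure (Set.range fun v : Lp ℂ 1 (volume.restrict Z) => v - T v) := by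
  refine ab_hb T u fun ℓ hℓ => ?_
  obtain ⟨μ, C2, hμm, hμb, hμl, hμi⟩ := inv_mu h hZ hp hT hℓ
  rw [hμl]
  have h1 := hL0 μ C2 hμm hμb hμi
  have h2 : (fun x => (u : ℂ → ℂ) x * μ x) =ᵐ[volume.restrict Z] fun _ => (0 : ℂ) := by
    filter_upwards [hu, ae_restrict_of_ae h1, ae_restrict_mem hZ] with w g1 g2 g3
    by_cases hw : w ∈ L0
    · rw [g1 hw, zero_mul]
    · rw [g2 g3 hw, mul_zero]
  rw [integral_congr_ae h2]
  simp

/-- the masses on `K` -/
private theorem small_K (h : RatD d a b) (hZ : MeasurableSet Z) (hp : pre a b Z ⊆ Z)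
    {T : Lp ℂ 1 (volume.restrict Z) →L[ℂ] Lp ℂ 1 (volume.restrict Z)} (hT1 : ∀ u, ‖T u‖ ≤ ‖u‖) (hT : IsT a b Z T) {L0 : Set ℂ}
    (L0m : MeasurableSet L0)
    (hL0 : ∀ (μ : ℂ → ℂ) (C1 : ℝ), Measurable μ → (∀ z, ‖μ z‖ ≤ C1) →
      (∀ᵐ z : ℂ, z ∈ pre a b Z → μ (gg a b z) * (starRingEnd ℂ) (dg a b z) = μ z * dg a b z) →
      ∀ᵐ z : ℂ, z ∈ Z → z ∉ L0 → μ z = 0) {K : Set ℂ} (hK : MeasurableSet K) (hKZ : K ⊆ Z)
    (hfin : ∀ᵐ z : ℂ, z ∈ Z → z ∈ L0 → ∀ᶠ n : ℕ in atTop, z ∉ (pre a b)^[n] K) (u : Lp ℂ 1 (volume.restrict Z))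
    {ε : ℝ} (hε : 0 < ε) :
    ∃ η : ℝ, 0 < η ∧ ∀ s : ℝ, 0 < s → s < 1 → 1 - s < η → ∀ x : Lp ℂ 1 (volume.restrict Z),
      x - (s : ℂ) • T x = (1 - s : ℂ) • u → ‖ind Z hK x‖ ≤ ε := by
  obtain ⟨v, hv⟩ : ∃ v, v = ind Z L0m u := ⟨_, rfl⟩
  have hva := ind_ae (Z := Z) L0m u
  rw [← hv] at hva
  have h0 : u - v ∈ closure (Set.range fun v : Lp ℂ 1 (volume.restrict Z) => v - T v) := by
    refine kill h hZ hp hT hL0 _ ?_
    filter_upwards [hva, Lp.coeFn_sub u v] with w h1 h2 hw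
    rw [h2, Pi.sub_apply, h1, indicator_of_mem hw, sub_self]
  obtain ⟨δ₁, hδ₁, h1⟩ := ab_one T hT1 (u - v) h0 (half_pos hε)
  have hQ : Tendsto (fun k : ℕ => ‖ind Z hK ((T ^ k) v)‖) atTop (𝓝 0) := by
    have hlim : Tendsto (fun k : ℕ => ∫ z in Z, ((pre a b)^[k] K).indicator (fun z => ‖(v : ℂ → ℂ) z‖) z) atTop (𝓝 0) := by
      have hw : Integrable (fun z => ‖(v : ℂ → ℂ) z‖) (volume.restrict Z) := (L1.integrable_coeFn v).norm
      have e0 : (0 : ℝ) = ∫ _ in Z, (0 : ℝ) := by simp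
      rw [e0]
      refine tendsto_integral_of_dominated_convergence (fun z => ‖(v : ℂ → ℂ) z‖) ?_ hw ?_ ?_
      · intro k
        exact (hw.indicator (it_meas hK k)).aestronglyMeasurable
      · intro k
        refine Eventually.of_forall fun z => ?_
        rw [Real.norm_of_nonneg (indicator_nonneg (fun z _ => norm_nonneg _) z)]
        exact indicator_le_self' (fun z _ => norm_nonneg _) z
      · filter_upwards [hva, ae_restrict_of_ae hfin, ae_restrict_mem hZ] with w g1 g2 g3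
        by_cases hw : w ∈ L0
        · refine tendsto_const_nhds.congr' ?_
          filter_upwards [g2 g3 hw] with k hk
          rw [indicator_of_notMem hk]
        · have : ∀ k : ℕ, ((pre a b)^[k] K).indicator (fun z => ‖(v : ℂ → ℂ) z‖) w = 0 := by
            intro k
            by_cases hk : w ∈ (pre a b)^[k] K
            · rw [indicator_of_mem hk, g1, indicator_of_notMem hw, norm_zero]
            · rw [indicator_of_notMem hk]
          simp only [this]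
          exact tendsto_const_nhds
    exact squeeze_zero (fun k => norm_nonneg _) (fun k => ind_it h hZ hp hT hK hKZ v k) hlim
  obtain ⟨δ₂, hδ₂, h2⟩ := ab_two T hT1 (fun u => ‖ind Z hK u‖) (fun u => norm_nonneg _) (fun u => ind_le hK u)
    (fun u v => by rw [map_add]; exact norm_add_le _ _) (fun c u => by rw [map_smul, norm_smul]) v hQ (half_pos hε)
  refine ⟨min δ₁ δ₂, lt_min hδ₁ hδ₂, fun s hs0 hs1 hs x hx => ?_⟩
  obtain ⟨x₁, hx₁⟩ := ab_sol T hT1 hs0 hs1 ((1 - s : ℂ) • (u - v))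
  have h3 := h1 s hs0 hs1 (hs.trans_le (min_le_left _ _)) x₁ hx₁
  have h4 : (x - x₁) - (s : ℂ) • T (x - x₁) = (1 - s : ℂ) • v := by
    rw [map_sub, smul_sub, ← sub_sub_cancel u v, smul_sub (1 - s : ℂ) u (u - v), ← hx, ← hx₁]
    abel
  have h5 := h2 s hs0 hs1 (hs.trans_le (min_le_right _ _)) (x - x₁) h4
  have h6 : ‖ind Z hK x‖ ≤ ‖ind Z hK x₁‖ + ‖ind Z hK (x - x₁)‖ := by
    have := norm_add_le (ind Z hK x₁) (ind Z hK (x - x₁))
    rwa [← map_add, add_sub_cancel] at this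
  have h7 := ind_le (Z := Z) hK x₁
  linarith

/-- normalized approximate solutions and resolvent solutions for a fixed vector -/
theorem lod_seq (h : LD d a b M N Z S B q r D φ X δ C)
    {T : Lp ℂ 1 (volume.restrict Z) →L[ℂ] Lp ℂ 1 (volume.restrict Z)} (hT1 : ∀ u, ‖T u‖ ≤ ‖u‖) (hT : IsT a b Z T) :
    ∃ (L : ℕ → ℕ) (A x : ℕ → ℕ → ℂ) (s : ℕ → ℝ) (u₀ : Lp ℂ 1 (volume.restrict Z)) (y Ψ : ℕ → Lp ℂ 1 (volume.restrict Z)),
      (∀ n, ∀ k < L n, x n k ∈ M) ∧ (∀ n, 0 < s n) ∧ (∀ n, s n < 1) ∧ Tendsto s atTop (𝓝 1) ∧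
      (∀ n, (Ψ n : ℂ → ℂ) =ᵐ[volume.restrict Z] Ph q (L n) (A n) (x n)) ∧ (∀ n, ‖Ψ n‖ = 1) ∧
      (∀ n, y n - (s n : ℂ) • T (y n) = (1 - s n : ℂ) • u₀) ∧ Tendsto (fun n => ‖Ψ n - y n‖) atTop (𝓝 0) := by
  obtain ⟨C1, hC1, hap⟩ := apn h
  have hs0 : ∀ n : ℕ, (0 : ℝ) < 1 - 1 / ((n : ℝ) + 2) := by
    intro n
    have h1 : 1 / ((n : ℝ) + 2) < 1 := by
      rw [div_lt_one (by positivity)]
      have : (0 : ℝ) ≤ n := Nat.cast_nonneg n
      linarith
    linarith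
  have hs1 : ∀ n : ℕ, 1 - 1 / ((n : ℝ) + 2) < 1 := by
    intro n
    have : 0 < 1 / ((n : ℝ) + 2) := by positivity
    linarith
  choose L A x t hx hi hone ht he using fun n : ℕ => hap (1 - 1 / ((n : ℝ) + 2)) (hs0 n) (hs1 n)
  obtain ⟨s, hs⟩ : ∃ s : ℕ → ℝ, s = fun n : ℕ => 1 - 1 / ((n : ℝ) + 2) := ⟨_, rfl⟩
  have hφ : ∀ j : Fin (D + 1), MemLp (φ j) 1 (volume.restrict Z) := fun j =>
    memLp_one_iff_integrable.2 (h.φi j (Nat.lt_succ_iff.1 j.2))
  obtain ⟨Φ, hΦ⟩ : ∃ Φ : Fin (D + 1) → Lp ℂ 1 (volume.restrict Z), Φ = fun j => (hφ j).toLp (φ j) := ⟨_, rfl⟩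
  have hΦa : ∀ j, (Φ j : ℂ → ℂ) =ᵐ[volume.restrict Z] φ j := fun j => by rw [hΦ]; exact (hφ j).coeFn_toLp
  have hψL : ∀ n, MemLp (Ph q (L n) (A n) (x n)) 1 (volume.restrict Z) := fun n => memLp_one_iff_integrable.2 (hi n)
  obtain ⟨Ψ, hΨ⟩ : ∃ Ψ : ℕ → Lp ℂ 1 (volume.restrict Z), Ψ = fun n => (hψL n).toLp (Ph q (L n) (A n) (x n)) := ⟨_, rfl⟩
  have hΨa : ∀ n, (Ψ n : ℂ → ℂ) =ᵐ[volume.restrict Z] Ph q (L n) (A n) (x n) := fun n => by
    rw [hΨ]
    exact (hψL n).coeFn_toLp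
  have hΨn : ∀ n, ‖Ψ n‖ = 1 := by
    intro n
    have h1 : ENNReal.ofReal ‖Ψ n‖ = 1 := by
      rw [n2]
      refine Eq.trans ?_ (hone n)
      apply lintegral_congr_ae
      filter_upwards [hΨa n] with w hw
      rw [hw]
    rw [← ENNReal.toReal_ofReal (norm_nonneg (Ψ n)), h1, ENNReal.toReal_one]
  have hΨe : ∀ n, ‖Ψ n - (s n : ℂ) • T (Ψ n) - (1 - s n : ℂ) • ∑ j : Fin (D + 1), t n j • Φ j‖ ≤ (1 - s n) ^ 2 := by
    intro n
    have h1 := he n
    have hsn : (1 - 1 / ((n : ℝ) + 2)) = s n := by rw [hs]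
    rw [hsn] at h1
    refine (ENNReal.ofReal_le_ofReal_iff (sq_nonneg _)).1 (le_trans (le_of_eq ?_) h1)
    rw [n2]
    apply lintegral_congr_ae
    have hTΨ := hT (Ψ n) _ (ph_meas h.kn (L n) (A n) (x n)) (hΨa n)
    have hsum : ((∑ j : Fin (D + 1), t n j • Φ j : Lp ℂ 1 (volume.restrict Z)) : ℂ → ℂ)
        =ᵐ[volume.restrict Z] fun w => ∑ j ∈ Finset.range (D + 1), t n j * φ j w := by
      have e1 := Lp.coeFn_finsetSum (p := 1) (μ := volume.restrict Z) Finset.univ (fun j : Fin (D + 1) => t n j • Φ j)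
      have e2 : ∀ᵐ w ∂(volume.restrict Z), ∀ j : Fin (D + 1),
          (t n j • Φ j : Lp ℂ 1 (volume.restrict Z)) w = t n j * φ j w := by
        rw [ae_all_iff]
        intro j
        filter_upwards [Lp.coeFn_smul (t n j) (Φ j), hΦa j] with w g1 g2
        rw [g1, Pi.smul_apply, g2, smul_eq_mul]
      filter_upwards [e1, e2] with w g1 g2
      rw [g1, Finset.sum_range, Finset.sum_apply]
      exact Finset.sum_congr rfl fun j _ => g2 j
    filter_upwards [hΨa n, hTΨ, hsum, Lp.coeFn_smul (s n : ℂ) (T (Ψ n)), Lp.coeFn_sub (Ψ n) ((s n : ℂ) • T (Ψ n)),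
      Lp.coeFn_smul (1 - s n : ℂ) (∑ j : Fin (D + 1), t n j • Φ j : Lp ℂ 1 (volume.restrict Z)),
      Lp.coeFn_sub (Ψ n - (s n : ℂ) • T (Ψ n))
        ((1 - s n : ℂ) • ∑ j : Fin (D + 1), t n j • Φ j)] with w g1 g2 g3 g4 g5 g6 g7
    rw [g7, Pi.sub_apply, g5, Pi.sub_apply, g1, g4, Pi.smul_apply, g2, g6, Pi.smul_apply, g3, smul_eq_mul, smul_eq_mul]
  have hbd : Bornology.IsBounded (Metric.closedBall (0 : Fin (D + 1) → ℂ) C1) := Metric.isBounded_closedBall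
  obtain ⟨t₀, -, f, hf, hlim⟩ := tendsto_subseq_of_bounded hbd (x := fun n (j : Fin (D + 1)) => t n j) fun n => by
    rw [mem_closedBall_zero_iff, pi_norm_le_iff_of_nonneg hC1]
    exact fun j => ht n j (Nat.lt_succ_iff.1 j.2)
  obtain ⟨u₀, hu₀⟩ : ∃ u₀ : Lp ℂ 1 (volume.restrict Z), u₀ = ∑ j : Fin (D + 1), t₀ j • Φ j := ⟨_, rfl⟩
  have hl1 : Tendsto (fun k : ℕ => 1 / ((f k : ℝ) + 2)) atTop (𝓝 0) := by
    have h1 : Tendsto (fun k : ℕ => ((f k : ℕ) : ℝ) + 2) atTop atTop :=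
      tendsto_atTop_add_const_right _ _ (tendsto_natCast_atTop_atTop.comp hf.tendsto_atTop)
    have h2 := h1.inv_tendsto_atTop
    refine h2.congr fun k => ?_
    rw [one_div]
    rfl
  have hl2 : Tendsto (fun k : ℕ => ‖∑ j : Fin (D + 1), t (f k) j • Φ j - u₀‖) atTop (𝓝 0) := by
    rw [← tendsto_iff_norm_sub_tendsto_zero, hu₀]
    refine tendsto_finsetSum _ fun j _ => ?_
    exact ((tendsto_pi_nhds.1 hlim) j).smul_const (Φ j)
  have hl3 : Tendsto (fun k : ℕ => 1 / ((f k : ℝ) + 2) + ‖∑ j : Fin (D + 1), t (f k) j • Φ j - u₀‖) atTop (𝓝 0) := by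
    have := hl1.add hl2
    rwa [add_zero] at this
  choose y hy using fun k : ℕ => ab_sol T hT1 (hs0 (f k)) (hs1 (f k)) ((1 - s (f k) : ℂ) • u₀)
  have hsk : ∀ k, s (f k) = 1 - 1 / ((f k : ℝ) + 2) := fun k => by rw [hs]
  refine ⟨fun k => L (f k), fun k => A (f k), fun k => x (f k), fun k => s (f k), u₀, y, fun k => Ψ (f k),
    fun n => hx (f n), fun n => (hs0 (f n)).trans_eq (hsk n).symm, fun n => (hsk n).trans_lt (hs1 (f n)), ?_,
    fun n => hΨa (f n), fun n => hΨn (f n), fun n => ?_, ?_⟩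
  · have h1 : Tendsto (fun k : ℕ => 1 - 1 / ((f k : ℝ) + 2)) atTop (𝓝 (1 - 0)) := tendsto_const_nhds.sub hl1
    rw [sub_zero] at h1
    exact h1.congr fun k => (hsk k).symm
  · have h1 := hy n
    rw [← hsk] at h1
    exact h1
  · refine squeeze_zero (fun k => norm_nonneg _) (fun k => ?_) hl3
    have hs0' : 0 < s (f k) := by rw [hsk]; exact hs0 (f k)
    have hs1' : s (f k) < 1 := by rw [hsk]; exact hs1 (f k)
    have h1s : 1 - s (f k) = 1 / ((f k : ℝ) + 2) := by rw [hsk]; ring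
    have hyk : y k - (s (f k) : ℂ) • T (y k) = (1 - s (f k) : ℂ) • u₀ := by
      have h1 := hy k
      rw [← hsk] at h1
      exact h1
    rw [← h1s]
    refine ab_bnd T hT1 hs0' hs1' _ ((Ψ (f k) - y k) - (s (f k) : ℂ) • T (Ψ (f k) - y k)) ?_ rfl
    have h5 : (Ψ (f k) - y k) - (s (f k) : ℂ) • T (Ψ (f k) - y k) =
        (Ψ (f k) - (s (f k) : ℂ) • T (Ψ (f k)) - (1 - s (f k) : ℂ) • ∑ j : Fin (D + 1), t (f k) j • Φ j) +
          (1 - s (f k) : ℂ) • (∑ j : Fin (D + 1), t (f k) j • Φ j - u₀) := by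
      rw [map_sub, smul_sub, smul_sub, ← hyk]
      abel
    rw [h5]
    refine (norm_add_le _ _).trans ?_
    rw [norm_smul, ab_norm hs1']
    have h6 := hΨe (f k)
    have h7 : (1 - s (f k)) * ((1 - s (f k)) + ‖∑ j : Fin (D + 1), t (f k) j • Φ j - u₀‖) =
        (1 - s (f k)) ^ 2 + (1 - s (f k)) * ‖∑ j : Fin (D + 1), t (f k) j • Φ j - u₀‖ := by ring
    rw [h7]
    exact add_le_add h6 le_rfl

private theorem ind_congr {E E' : Set ℂ} (hE : MeasurableSet E) (hE' : MeasurableSet E') (h : E = E') : ind Z hE = ind Z hE' := by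
  subst h
  rfl

theorem lod (h : LD d a b M N Z S B q r D φ X δ C) {Ω : Set ℂ} (hΩo : IsOpen Ω) (hΩd : N \ M ⊆ closure Ω)
    (hfin : (∀ K ⊆ Ω, K ⊆ N → IsCompact K → ∀ (μ : ℂ → ℂ) (C1 : ℝ), Measurable μ → (∀ z, ‖μ z‖ ≤ C1) →
      (∀ᵐ z : ℂ, z ∈ pre a b Z → μ (gg a b z) * (starRingEnd ℂ) (dg a b z) = μ z * dg a b z) →
      ∀ᵐ z : ℂ, z ∈ Z → μ z ≠ 0 → ∀ᶠ n : ℕ in atTop, z ∉ (pre a b)^[n] K) ∨ NMs a b q M N Z Ω) :
    ∃ (G : Set ℂ) (μ : ℂ → ℂ) (C1 : ℝ), MeasurableSet G ∧ G ⊆ B ∧ (∀ z : ℂ, b.eval z ≠ 0 → (gg a b z ∈ G ↔ z ∈ G)) ∧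
      (∀ z ∈ G, ∀ N' : Set ℂ, IsOpen N' → M ⊆ N' → ∀ ε : ℝ, 0 < ε → ∀ n0 : ℕ, ∃ n ≥ n0, (1 - ε) * n ≤ Vr a b N' n z) ∧
      Measurable μ ∧ (∀ z, ‖μ z‖ ≤ C1) ∧ (∀ z, z ∉ G → μ z = 0) ∧
      (∀ᵐ z : ℂ, b.eval z ≠ 0 → μ (gg a b z) * (starRingEnd ℂ) (dg a b z) = μ z * dg a b z) ∧
      0 < volume {z | μ z ≠ 0} := by
  obtain ⟨T, hT1, hT⟩ := tlp h.rt h.kn.Zm h.Zp
  have hZ := h.kn.Zm
  obtain ⟨L, A, x, s, u₀, y, Ψ, hxM, hs0, hs1, hsl, hΨa, hΨn, hy, hΨy⟩ := lod_seq h hT1 hT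
  -- the neighbourhoods and the sets
  obtain ⟨Ni, hNi⟩ : ∃ Ni : ℕ → Set ℂ, Ni = fun i : ℕ => N ∩ thickening (1 / ((i : ℝ) + 1)) M := ⟨_, rfl⟩
  have hpos : ∀ i : ℕ, (0 : ℝ) < 1 / ((i : ℝ) + 1) := fun i => by positivity
  have hNio : ∀ i, IsOpen (Ni i) := fun i => by rw [hNi]; exact h.kn.No.inter isOpen_thickening
  have hNiN : ∀ i, Ni i ⊆ N := fun i => by rw [hNi]; exact inter_subset_left
  have hNiM : ∀ i, M ⊆ Ni i := fun i => by rw [hNi]; exact subset_inter h.kn.MN (self_subset_thickening (hpos i) M)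
  have hdec : ∀ i j : ℕ, i ≤ j → 1 / ((j : ℝ) + 1) ≤ 1 / ((i : ℝ) + 1) := by
    intro i j hij
    have h1 : (i : ℝ) ≤ j := by exact_mod_cast hij
    exact one_div_le_one_div_of_le (by positivity) (by linarith)
  have hNia : ∀ i j, i ≤ j → Ni j ⊆ Ni i := fun i j hij => by
    rw [hNi]
    exact inter_subset_inter_right _ (thickening_mono (hdec i j hij) M)
  obtain ⟨β, hβ⟩ : ∃ β : ℕ → ℝ, β = fun i : ℕ => 1 - 1 / ((i : ℝ) + 1) := ⟨_, rfl⟩
  have hβ0 : ∀ i, 0 ≤ β i := by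
    intro i
    have h1 : 1 / ((i : ℝ) + 1) ≤ 1 := by
      rw [div_le_one (by positivity)]
      have : (0 : ℝ) ≤ i := Nat.cast_nonneg i
      linarith
    rw [hβ]
    show 0 ≤ 1 - 1 / ((i : ℝ) + 1)
    linarith
  have hβ1 : ∀ i, β i < 1 := by
    intro i
    rw [hβ]
    show 1 - 1 / ((i : ℝ) + 1) < 1
    linarith [hpos i]
  have hβm : ∀ i j, i ≤ j → β i ≤ β j := by
    intro i j hij
    rw [hβ]
    show 1 - 1 / ((i : ℝ) + 1) ≤ 1 - 1 / ((j : ℝ) + 1)
    linarith [hdec i j hij]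
  obtain ⟨E, hE⟩ : ∃ E : ℕ → Set ℂ, E = fun i => Es a b (Ni i) (β i) := ⟨_, rfl⟩
  have hEi : ∀ i, E i = Es a b (Ni i) (β i) := fun i => by rw [hE]
  have hEm : ∀ i, MeasurableSet (E i) := fun i => by rw [hEi]; exact es_meas (hNio i).measurableSet _
  have hEinv : ∀ i, ∀ z : ℂ, b.eval z ≠ 0 → (gg a b z ∈ E i ↔ z ∈ E i) := fun i z hz => by
    rw [hEi]
    exact es_inv (hβ0 i) (hβ1 i).le hz
  have hEmono : ∀ i j, i ≤ j → E i ⊆ E j := fun i j hij => by
    rw [hEi, hEi]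
    exact es_mono (hNia i j hij) (hβm i j hij)
  have hEout : ∀ᵐ z : ℂ, z ∈ Z → z ∉ B → ∀ i, z ∈ E i := by
    filter_upwards [h.out] with z hz hzZ hzB i
    rw [hEi]
    refine es_fin (hβ0 i) ?_
    filter_upwards [hz hzZ hzB] with n hn hn2
    exact hn (it_mono (hNiN i) n hn2)
  -- the masses on compact subsets of `Ω`
  have hmass : ∀ K ⊆ Ω, K ⊆ N → IsCompact K → Tendsto (fun n => ∫⁻ w in K, ‖Ph q (L n) (A n) (x n) w‖ₑ) atTop (𝓝 0) := by
    rcases hfin with hfin | hNM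
    on_goal 2 =>
      refine hNM L A x hxM (fun n => ?_) ?_
      · refine le_of_eq ?_
        have h1 : ENNReal.ofReal ‖Ψ n‖ = 1 := by rw [hΨn, ENNReal.ofReal_one]
        rw [← h1, n2]
        apply lintegral_congr_ae
        filter_upwards [hΨa n] with w hw
        rw [hw]
      · have hyb : ∀ n, ‖y n‖ ≤ ‖u₀‖ := by
          intro n
          have h1 : y n = (s n : ℂ) • T (y n) + (1 - s n : ℂ) • u₀ := by rw [← hy n]; abel
          have h2 : ‖(s n : ℂ) • T (y n)‖ ≤ s n * ‖y n‖ := by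
            rw [norm_smul, Complex.norm_real, Real.norm_of_nonneg (hs0 n).le]
            exact mul_le_mul_of_nonneg_left (hT1 _) (hs0 n).le
          have h3 : ‖(1 - s n : ℂ) • u₀‖ = (1 - s n) * ‖u₀‖ := by
            rw [norm_smul]
            have h4 : (1 - s n : ℂ) = ((1 - s n : ℝ) : ℂ) := by push_cast; ring
            rw [h4, Complex.norm_real, Real.norm_of_nonneg (by linarith [hs1 n])]
          have h5 : ‖y n‖ ≤ s n * ‖y n‖ + (1 - s n) * ‖u₀‖ := by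
            calc ‖y n‖ = ‖(s n : ℂ) • T (y n) + (1 - s n : ℂ) • u₀‖ := by rw [← h1]
              _ ≤ _ := (norm_add_le _ _).trans (by rw [h3]; linarith)
          have h6 : 0 < 1 - s n := by linarith [hs1 n]
          have h7 : (1 - s n) * ‖y n‖ ≤ (1 - s n) * ‖u₀‖ := by nlinarith
          exact le_of_mul_le_mul_left h7 h6
        have hlim : Tendsto (fun n => ‖Ψ n - T (Ψ n)‖) atTop (𝓝 0) := by
          have h1 : Tendsto (fun n => 2 * ‖Ψ n - y n‖ + (1 - s n) * (2 * ‖u₀‖)) atTop (𝓝 0) := by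
            have h2 := (hΨy.const_mul 2).add ((tendsto_const_nhds.sub hsl).mul_const (2 * ‖u₀‖) (a := (1 : ℝ) - 1))
            rwa [mul_zero, sub_self, zero_mul, add_zero] at h2
          refine squeeze_zero (fun n => norm_nonneg _) (fun n => ?_) h1
          have h2 : Ψ n - T (Ψ n) = (Ψ n - y n) - T (Ψ n - y n) + ((1 - s n : ℂ) • u₀ - (1 - s n : ℂ) • T (y n)) := by
            rw [← hy n, map_sub, sub_smul, one_smul]
            abel
          have h3 := norm_add_le ((Ψ n - y n) - T (Ψ n - y n)) ((1 - s n : ℂ) • u₀ - (1 - s n : ℂ) • T (y n))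
          have h4 := norm_sub_le (Ψ n - y n) (T (Ψ n - y n))
          have h5 := norm_sub_le ((1 - s n : ℂ) • u₀) ((1 - s n : ℂ) • T (y n))
          have h6 := hT1 (Ψ n - y n)
          have h7 := hT1 (y n)
          have h8 := hyb n
          have h9 : ∀ w : Lp ℂ 1 (volume.restrict Z), ‖(1 - s n : ℂ) • w‖ = (1 - s n) * ‖w‖ := by
            intro w
            rw [norm_smul]
            have h4 : (1 - s n : ℂ) = ((1 - s n : ℝ) : ℂ) := by push_cast; ring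
            rw [h4, Complex.norm_real, Real.norm_of_nonneg (by linarith [hs1 n])]
          rw [h9, h9] at h5
          have h10 : 0 ≤ 1 - s n := by linarith [hs1 n]
          have h11 : (1 - s n) * ‖T (y n)‖ ≤ (1 - s n) * ‖u₀‖ := mul_le_mul_of_nonneg_left (h7.trans h8) h10
          rw [h2]
          linarith
        have h1 : ∀ n, ENNReal.ofReal ‖Ψ n - T (Ψ n)‖ =
            ∫⁻ w in Z, ‖Ph q (L n) (A n) (x n) w - pf a b (Ph q (L n) (A n) (x n)) w‖ₑ := by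
          intro n
          rw [n2]
          apply lintegral_congr_ae
          filter_upwards [hΨa n, hT (Ψ n) _ (ph_meas h.kn (L n) (A n) (x n)) (hΨa n), Lp.coeFn_sub (Ψ n) (T (Ψ n))] with w g1 g2 g3
          rw [g3, Pi.sub_apply, g1, g2]
        have h2 := ENNReal.tendsto_ofReal hlim
        rw [ENNReal.ofReal_zero] at h2
        exact h2.congr h1
    intro K hKΩ hKN hK
    have hKm : MeasurableSet K := hK.isClosed.measurableSet
    have hKZ : K ⊆ Z := hKN.trans h.kn.NZ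
    have h1 : Tendsto (fun n => ‖ind Z hKm (y n)‖) atTop (𝓝 0) := by
      rw [Metric.tendsto_atTop]
      intro ε hε
      have hL0m : MeasurableSet {z : ℂ | ∀ᶠ n : ℕ in atTop, z ∉ (pre a b)^[n] K} := by
        have e : {z : ℂ | ∀ᶠ n : ℕ in atTop, z ∉ (pre a b)^[n] K} = ⋃ m : ℕ, ⋂ n : ℕ, ⋂ _ : m ≤ n, ((pre a b)^[n] K)ᶜ := by
          ext z
          simp only [mem_iUnion, mem_iInter, mem_compl_iff]
          exact eventually_atTop
        rw [e]
        exact MeasurableSet.iUnion fun m => MeasurableSet.iInter fun n => MeasurableSet.iInter fun _ => (it_meas hKm n).compl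
      obtain ⟨η, hη, h2⟩ := small_K h.rt hZ h.Zp hT1 hT hL0m (fun μ C1 h1 h2 h3 => by
        filter_upwards [hfin K hKΩ hKN hK μ C1 h1 h2 h3] with z hz hzZ hzL
        by_contra hne
        exact hzL (hz hzZ hne)) hKm hKZ (Eventually.of_forall fun z _ hz => hz) u₀ (half_pos hε)
      refine eventually_atTop.1 ?_
      filter_upwards [hsl.eventually (lt_mem_nhds (show (1 - η : ℝ) < 1 by linarith))] with n hn
      have h3 := h2 (s n) (hs0 n) (hs1 n) (by linarith) (y n) (hy n)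
      rw [Real.dist_0_eq_abs, abs_of_nonneg (norm_nonneg _)]
      linarith
    have h2 : Tendsto (fun n => ‖ind Z hKm (Ψ n)‖) atTop (𝓝 0) := by
      have h3 := h1.add hΨy
      rw [add_zero] at h3
      refine squeeze_zero (fun n => norm_nonneg _) (fun n => ?_) h3
      have h4 := norm_add_le (ind Z hKm (y n)) (ind Z hKm (Ψ n - y n))
      rw [← map_add, add_sub_cancel] at h4
      have h5 := ind_le (Z := Z) hKm (Ψ n - y n)
      linarith
    have h3 : Tendsto (fun n => ENNReal.ofReal ‖ind Z hKm (Ψ n)‖) atTop (𝓝 0) := by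
      have := ENNReal.tendsto_ofReal h2
      rwa [ENNReal.ofReal_zero] at this
    refine h3.congr fun n => ?_
    rw [ind_no hKm hKZ]
    apply lintegral_congr_ae
    filter_upwards [ae_restrict_of_ae_restrict_of_subset hKZ (hΨa n)] with w hw
    rw [hw]
  have hΨ1 : ∀ n, ∫⁻ w in Z, ‖Ph q (L n) (A n) (x n) w‖ₑ ≤ ENNReal.ofReal 1 := by
    intro n
    refine le_of_eq ?_
    rw [← hΨn n, n2]
    apply lintegral_congr_ae
    filter_upwards [hΨa n] with w hw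
    rw [hw]
  have hoff : ∀ i, Tendsto (fun n => ‖y n - ind Z (hNio i).measurableSet (y n)‖) atTop (𝓝 0) := by
    intro i
    have h1 := off_lim h.kn hΩo hΩd hxM zero_le_one hΨ1 hmass (hNio i) (hNiM i) (hNiN i)
    have h2 : ∀ n, ENNReal.ofReal ‖Ψ n - ind Z (hNio i).measurableSet (Ψ n)‖ =
        ∫⁻ w in Z \ Ni i, ‖Ph q (L n) (A n) (x n) w‖ₑ := by
      intro n
      rw [n2]
      have h3 : ∫⁻ w in Z \ Ni i, ‖Ph q (L n) (A n) (x n) w‖ₑ =
          ∫⁻ w in Z, (Ni i)ᶜ.indicator (fun w => ‖Ph q (L n) (A n) (x n) w‖ₑ) w := by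
        rw [lintegral_indicator (hNio i).measurableSet.compl, Measure.restrict_restrict (hNio i).measurableSet.compl,
          inter_comm, ← sdiff_eq]
      rw [h3]
      apply lintegral_congr_ae
      filter_upwards [hΨa n, ind_ae (hNio i).measurableSet (Ψ n),
        Lp.coeFn_sub (Ψ n) (ind Z (hNio i).measurableSet (Ψ n))] with w g1 g2 g3
      rw [g3, Pi.sub_apply, g2]
      by_cases hw : w ∈ Ni i
      · rw [indicator_of_mem hw, indicator_of_notMem (fun h4 : w ∈ (Ni i)ᶜ => h4 hw), sub_self, enorm_zero]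
      · rw [indicator_of_notMem hw, indicator_of_mem (show w ∈ (Ni i)ᶜ from hw), sub_zero, g1]
    have h3 : Tendsto (fun n => ‖Ψ n - ind Z (hNio i).measurableSet (Ψ n)‖) atTop (𝓝 0) := by
      have h4 := (ENNReal.tendsto_toReal ENNReal.zero_ne_top).comp h1
      rw [ENNReal.toReal_zero] at h4
      refine h4.congr fun n => ?_
      show (∫⁻ w in Z \ Ni i, ‖Ph q (L n) (A n) (x n) w‖ₑ).toReal = _
      rw [← h2, ENNReal.toReal_ofReal (norm_nonneg _)]
    have h4 := h3.add (hΨy.const_mul 2)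
    rw [mul_zero, add_zero] at h4
    refine squeeze_zero (fun n => norm_nonneg _) (fun n => ?_) h4
    have h5 : y n - ind Z (hNio i).measurableSet (y n) = (Ψ n - ind Z (hNio i).measurableSet (Ψ n)) -
        ((Ψ n - y n) - ind Z (hNio i).measurableSet (Ψ n - y n)) := by
      rw [map_sub]
      abel
    rw [h5]
    have h6 := norm_sub_le (Ψ n - ind Z (hNio i).measurableSet (Ψ n))
      ((Ψ n - y n) - ind Z (hNio i).measurableSet (Ψ n - y n))
    have h7 := norm_sub_le (Ψ n - y n) (ind Z (hNio i).measurableSet (Ψ n - y n))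
    have h8 := ind_le (Z := Z) (hNio i).measurableSet (Ψ n - y n)
    linarith
  -- the projections are in the closure of the range
  have hcl : ∀ i, ind Z (hEm i) u₀ ∈ closure (Set.range fun v : Lp ℂ 1 (volume.restrict Z) => v - T v) := by
    intro i
    refine abd T (ind Z (hNio i).measurableSet) (ind Z (hEm i)) hT1 (ind_le _) (ind_le _) (ind_ind _)
      (ind_T h.rt hT (hEm i) (hEinv i)) (ind_comm _ _) u₀ s hs0 hs1 hsl y hy (hoff i) (hβ0 i) (hβ1 i) ?_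
    intro u hu
    rw [ind_congr (hEm i) (es_meas (hNio i).measurableSet (β i)) (hEi i)] at hu
    exact vis h.rt hZ h.Zp hT1 hT (hNio i).measurableSet ((hNiN i).trans h.kn.NZ) (hβ0 i) u hu
  -- the functional
  have hu₀ : u₀ ∉ closure (Set.range fun v : Lp ℂ 1 (volume.restrict Z) => v - T v) := by
    intro hmem
    obtain ⟨η, hη, h1⟩ := ab_one T hT1 u₀ hmem (show (0 : ℝ) < 1 / 4 by norm_num)
    obtain ⟨n, hn1, hn2⟩ := ((hsl.eventually (lt_mem_nhds (show (1 - η : ℝ) < 1 by linarith))).and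
      (hΨy.eventually (gt_mem_nhds (show (0 : ℝ) < 1 / 4 by norm_num)))).exists
    have h2 := h1 (s n) (hs0 n) (hs1 n) (by linarith) (y n) (hy n)
    have h3 := norm_add_le (y n) (Ψ n - y n)
    rw [add_sub_cancel, hΨn n] at h3
    linarith
  obtain ⟨ℓ, hℓ, hℓu⟩ : ∃ ℓ : Lp ℂ 1 (volume.restrict Z) →L[ℂ] ℂ, (∀ u, ℓ (T u) = ℓ u) ∧ ℓ u₀ ≠ 0 := by
    by_contra hcon
    push Not at hcon
    exact hu₀ (ab_hb T u₀ hcon)
  have hℓcl : ∀ w ∈ closure (Set.range fun v : Lp ℂ 1 (volume.restrict Z) => v - T v), ℓ w = 0 := by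
    intro w hw
    have h1 : IsClosed {w : Lp ℂ 1 (volume.restrict Z) | ℓ w = 0} := isClosed_eq ℓ.continuous continuous_const
    refine closure_minimal ?_ h1 hw
    rintro _ ⟨v, rfl⟩
    show ℓ (v - T v) = 0
    rw [map_sub, hℓ, sub_self]
  obtain ⟨μ0, C2, hμm, hμb, hμl, hμi⟩ := inv_mu h.rt hZ h.Zp hT hℓ
  obtain ⟨F, hF⟩ : ∃ F : ℂ → ℂ, F = fun z => (u₀ : ℂ → ℂ) z * μ0 z := ⟨_, rfl⟩
  have hFi : Integrable F (volume.restrict Z) := by
    rw [hF]
    exact (L1.integrable_coeFn u₀).mul_bdd (c := C2) hμm.aestronglyMeasurable (Eventually.of_forall hμb)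
  have hFu : ∫ z in Z, F z ≠ 0 := by
    rw [hF, ← hμl]
    exact hℓu
  have hFE : ∀ i, ∫ z in Z, (E i).indicator F z = 0 := by
    intro i
    have h1 := hℓcl _ (hcl i)
    rw [hμl] at h1
    rw [← h1]
    apply integral_congr_ae
    filter_upwards [ind_ae (Z := Z) (hEm i) u₀] with w hw
    rw [hw, hF]
    by_cases hwE : w ∈ E i
    · rw [indicator_of_mem hwE, indicator_of_mem hwE]
    · rw [indicator_of_notMem hwE, indicator_of_notMem hwE, zero_mul]
  have hUm : MeasurableSet (⋃ i, E i) := MeasurableSet.iUnion hEm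
  have hFU : ∫ z in Z, (⋃ i, E i).indicator F z = 0 := by
    have h1 : Tendsto (fun i => ∫ z in Z, (E i).indicator F z) atTop (𝓝 (∫ z in Z, (⋃ i, E i).indicator F z)) := by
      refine tendsto_integral_of_dominated_convergence (fun z => ‖F z‖) ?_ hFi.norm ?_ ?_
      · intro i
        exact (hFi.indicator (hEm i)).aestronglyMeasurable
      · intro i
        exact Eventually.of_forall fun z => norm_indicator_le_norm_self F z
      · refine Eventually.of_forall fun z => ?_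
        by_cases hz : z ∈ ⋃ i, E i
        · obtain ⟨i, hi⟩ := mem_iUnion.1 hz
          rw [indicator_of_mem hz]
          refine tendsto_const_nhds.congr' ?_
          filter_upwards [eventually_ge_atTop i] with j hj
          rw [indicator_of_mem (hEmono i j hj hi)]
        · have h2 : ∀ i, (E i).indicator F z = 0 := fun i => indicator_of_notMem (fun h3 => hz (mem_iUnion.2 ⟨i, h3⟩)) _
          rw [indicator_of_notMem hz]
          simp only [h2]
          exact tendsto_const_nhds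
    simp only [hFE] at h1
    exact (tendsto_nhds_unique h1 tendsto_const_nhds)
  obtain ⟨G, hG⟩ : ∃ G : Set ℂ, G = B \ ⋃ i, E i := ⟨_, rfl⟩
  have hGm : MeasurableSet G := by rw [hG]; exact h.Bm.diff hUm
  have hGB : G ⊆ B := by rw [hG]; exact sdiff_subset
  have hGi : ∀ z : ℂ, b.eval z ≠ 0 → (gg a b z ∈ G ↔ z ∈ G) := by
    intro z hz
    rw [hG]
    simp only [Set.mem_sdiff, mem_iUnion]
    rw [h.Bi z hz]
    simp only [hEinv _ z hz]
  refine ⟨G, G.indicator μ0, C2, hGm, hGB, hGi, ?_, hμm.indicator hGm, ?_, ?_, ?_, ?_⟩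
  · intro z hz N' hN' hMN' ε hε n0
    obtain ⟨ρ, hρ, hthick⟩ := h.kn.Mc.exists_thickening_subset_open hN' hMN'
    obtain ⟨i, hi⟩ := exists_nat_one_div_lt (lt_min hρ hε)
    have h1 : Ni i ⊆ N' := by
      rw [hNi]
      exact inter_subset_right.trans ((thickening_mono (hi.le.trans (min_le_left _ _)) M).trans hthick)
    have h2 : z ∉ Es a b (Ni i) (β i) := by
      rw [← hEi]
      rw [hG] at hz
      exact fun h3 => hz.2 (mem_iUnion.2 ⟨i, h3⟩)
    refine es_not (hβ0 i) ?_ h1 h2 n0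
    rw [hβ]
    show 1 - ε ≤ 1 - 1 / ((i : ℝ) + 1)
    linarith [hi.le.trans (min_le_right _ _)]
  · intro z
    by_cases hz : z ∈ G
    · rw [indicator_of_mem hz]; exact hμb z
    · rw [indicator_of_notMem hz, norm_zero]
      exact le_trans (norm_nonneg _) (hμb z)
  · intro z hz
    exact indicator_of_notMem hz _
  · filter_upwards [hμi] with z hz hb
    by_cases hzG : z ∈ G
    · have h1 : gg a b z ∈ G := (hGi z hb).2 hzG
      rw [indicator_of_mem hzG, indicator_of_mem h1]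
      exact hz ⟨hb, h.BZ (hGB h1)⟩
    · have h1 : gg a b z ∉ G := fun h2 => hzG ((hGi z hb).1 h2)
      rw [indicator_of_notMem hzG, indicator_of_notMem h1, zero_mul, zero_mul]
  · rw [pos_iff_ne_zero]
    intro h0
    apply hFu
    have h1 : ∀ᵐ z : ℂ, G.indicator μ0 z = 0 := by
      rw [ae_iff]
      exact h0
    rw [← hFU]
    apply integral_congr_ae
    filter_upwards [ae_restrict_of_ae h1, ae_restrict_of_ae hEout, ae_restrict_mem hZ] with w g1 g2 g3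
    by_cases hw : w ∈ ⋃ i, E i
    · rw [indicator_of_mem hw]
    · rw [indicator_of_notMem hw]
      have hwG : w ∈ G := by
        rw [hG]
        refine ⟨?_, hw⟩
        by_contra hwB
        exact hw (mem_iUnion.2 ⟨0, g2 g3 hwB 0⟩)
      rw [indicator_of_mem hwG] at g1
      rw [hF]
      show (u₀ : ℂ → ℂ) w * μ0 w = 0
      rw [g1, mul_zero]

end Pool.Agent.H15.LOC
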