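import Pool.Agent.H15.LOC.Off
import Pool.Agent.H31.LOC.Tlp
import Pool.Agent.H35.EX.SerP
import Pool.Agent.H1.PU.Defs
import Pool.Agent.H66.UX.LEO
import Pool.Agent.H47.LI.Ue

/-!
# THEOREM ATT+ (think 2069), Julia set = sphere: no mass off `M` if a critical point is not attracted to `M`

`lim_le`: pointwise limits `ψ` of almost invariant `L ^ 1` functions satisfy `‖ψ z‖ ≤ ‖ψ (gg z)‖ * ‖dg z‖ ^ 2` (the push forward of `ψ` is `ψ`, and the norms are equal, so the terms are aligned).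
`lim_zero`: so `ψ = 0`, if there is a critical point `e` whose value is not in `M` (zeros on the backward orbit of `e`). `nm_zero`: no mass on compact sets off `M`.
-/

set_option autoImplicit false

open Filter Topology Polynomial Metric Set MeasureTheory

namespace Pool.Agent.H15.LOC

open Pool.Agent.H44.Fatou (rat rat_continuous rat_coe rat_coe_of_ne pt crit_coe)
open Pool.Agent.H32.BT Pool.Agent.H79.Eul Pool.Agent.H79.Par
open Pool.Agent.H35.EX Pool.Agent.H44.RR Pool.Agent.H44.RC Pool.Agent.H47.RJ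
open Pool.Agent.H47.NM Pool.Agent.H47.NN Pool.Agent.H44.ND Pool.Agent.H79.ES Pool.Agent.H44.RG
open Pool.Agent.H61.TT (gg dg ww RatD pre fs area null_pre ww_ne hasDerivAt_gg measurable_dg measurable_gg)
open Pool.Agent.H43.UP (fs_iff)
open Pool.Agent.H78.NS (pf)
open Pool.Agent.H31.LOC
open Pool.Agent.H1.PU (KA)

variable {d : ℕ} {a b : Polynomial ℂ} {M N : Set ℂ}

theorem lim_le (h : RatD d a b) (hMc : IsClosed M) (hMi : ∀ x ∈ M, gg a b x ∈ M) {F : ℕ → ℂ → ℂ} {ψ : ℂ → ℂ} {W : Set ℂ}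
    (hW : W = {w : ℂ | w ∉ M ∧ w ≠ 0 ∧ w ≠ 1}) (hFm : ∀ k, Measurable (F k)) (hψ : ContinuousOn ψ W)
    (hpt : ∀ z ∈ W, Tendsto (fun k => F k z) atTop (𝓝 (ψ z))) (hb : ∀ k, ∫⁻ w, ‖F k w‖ₑ ≤ 1)
    (hi : Tendsto (fun k => ∫⁻ w, ‖F k w - pf a b (F k) w‖ₑ) atTop (𝓝 0)) :
    ∀ z ∈ W, b.eval z ≠ 0 → gg a b z ∈ W → ‖ψ z‖ ≤ ‖ψ (gg a b z)‖ * ‖dg a b z‖ ^ 2 := by
  classical
  have hWo : IsOpen W := by
    have e : W = Mᶜ ∩ ({0}ᶜ ∩ {1}ᶜ) := by
      rw [hW]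
      ext w
      rfl
    rw [e]
    exact hMc.isOpen_compl.inter (isOpen_compl_singleton.inter isOpen_compl_singleton)
  have hWm : MeasurableSet W := hWo.measurableSet
  have hdm : Measurable (dg a b) := measurable_dg
  obtain ⟨ψ', hψ'⟩ : ∃ ψ' : ℂ → ℂ, ψ' = W.indicator ψ := ⟨_, rfl⟩
  have hψW : ∀ w ∈ W, ψ' w = ψ w := fun w hw => by rw [hψ', indicator_of_mem hw]
  have hψn : ∀ w, w ∉ W → ψ' w = 0 := fun w hw => by rw [hψ', indicator_of_notMem hw]
  have hψm : Measurable ψ' := by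
    have h1 : Measurable (W.piecewise ψ (0 : ℂ → ℂ)) := hψ.measurable_piecewise continuousOn_const hWm
    rwa [Set.piecewise_eq_indicator, ← hψ'] at h1
  obtain ⟨W', hW'⟩ : ∃ W' : Set ℂ, W' = {w : ℂ | w ∈ W ∧ w ≠ gg a b 0 ∧ w ≠ gg a b 1} := ⟨_, rfl⟩
  have hW'm : MeasurableSet W' := by
    have e : W' = W ∩ ({gg a b 0}ᶜ ∩ {gg a b 1}ᶜ) := by
      rw [hW']
      ext w
      rfl
    rw [e]
    exact hWm.inter ((measurableSet_singleton _).compl.inter (measurableSet_singleton _).compl)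
  have hfsW : ∀ w ∈ W', ∀ y ∈ fs a b w, y ∈ W := by
    intro w hw y hy
    rw [hW'] at hw
    obtain ⟨h1, h2, h3⟩ := hw
    obtain ⟨-, hy2⟩ := (fs_iff h).1 hy
    rw [hW] at h1 ⊢
    refine ⟨fun hyM => h1.1 (hy2 ▸ hMi y hyM), ?_, ?_⟩
    · rintro rfl
      exact h2 hy2.symm
    · rintro rfl
      exact h3 hy2.symm
  have hpf : ∀ w ∈ W', Tendsto (fun k => pf a b (F k) w) atTop (𝓝 (pf a b ψ' w)) := by
    intro w hw
    unfold pf
    refine tendsto_finsetSum _ fun y hy => ?_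
    rw [hψW y (hfsW w hw y hy)]
    exact (hpt y (hfsW w hw y hy)).div_const _
  have hFi : ∀ k, Integrable (F k) := fun k => ⟨(hFm k).aestronglyMeasurable, (hb k).trans_lt ENNReal.one_lt_top⟩
  have hψ1 : ∫⁻ w, ‖ψ' w‖ₑ ≤ 1 := by
    have h1 : ∀ w, ‖ψ' w‖ₑ ≤ liminf (fun k => ‖F k w‖ₑ) atTop := by
      intro w
      by_cases hw : w ∈ W
      · have h2 := ((hpt w hw).enorm).liminf_eq
        rw [h2, hψW w hw]
      · rw [hψn w hw, enorm_zero]
        exact bot_le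
    refine (lintegral_mono h1).trans ((lintegral_liminf_le fun k => (hFm k).enorm).trans ?_)
    exact (liminf_le_liminf (Eventually.of_forall hb)).trans (by simp)
  have hψi : Integrable ψ' := ⟨hψm.aestronglyMeasurable, hψ1.trans_lt ENNReal.one_lt_top⟩
  -- the push forward
  have hae : ∀ᵐ w : ℂ, w ∈ W → ψ' w = pf a b ψ' w := by
    have h0 : ∫⁻ w in W', ‖ψ' w - pf a b ψ' w‖ₑ = 0 := by
      rw [← nonpos_iff_eq_zero]
      have h1 : ∫⁻ w in W', ‖ψ' w - pf a b ψ' w‖ₑ ≤ ∫⁻ w in W', liminf (fun k => ‖F k w - pf a b (F k) w‖ₑ) atTop := by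
        refine setLIntegral_mono' hW'm fun w hw => ?_
        have hwW : w ∈ W := by
          rw [hW'] at hw
          exact hw.1
        have h2 := (((hpt w hwW).sub (hpf w hw)).enorm).liminf_eq
        rw [h2, hψW w hwW]
      refine h1.trans ((lintegral_liminf_le' fun k => ?_).trans ?_)
      · exact ((hFi k).sub (Pool.Agent.H31.NS.pf_int h (hFm k) (hFi k)).1).aestronglyMeasurable.aemeasurable.enorm.restrict
      · have h3 : Tendsto (fun k => ∫⁻ w in W', ‖F k w - pf a b (F k) w‖ₑ) atTop (𝓝 0) :=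
          tendsto_of_tendsto_of_tendsto_of_le_of_le tendsto_const_nhds hi (fun k => bot_le) fun k => setLIntegral_le_lintegral _ _
        exact h3.liminf_eq.le
    have h1 : (fun w => ‖ψ' w - pf a b ψ' w‖ₑ) =ᵐ[volume.restrict W'] 0 := by
      refine (lintegral_eq_zero_iff' ?_).1 h0
      exact (hψi.sub (Pool.Agent.H31.NS.pf_int h hψm hψi).1).aestronglyMeasurable.aemeasurable.enorm.restrict
    rw [Filter.EventuallyEq, ae_restrict_iff' hW'm] at h1
    have h2 : ({gg a b 0, gg a b 1} : Set ℂ).Finite := by simp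
    filter_upwards [h1, compl_mem_ae_iff.2 (h2.measure_zero volume)] with w g1 g2 hw
    have hwW' : w ∈ W' := by
      rw [hW']
      refine ⟨hw, fun h3 => g2 (by rw [h3]; simp), fun h3 => g2 (by rw [h3]; simp)⟩
    have h3 := g1 hwW'
    rw [Pi.zero_apply, enorm_eq_zero] at h3
    exact sub_eq_zero.1 h3
  -- the norms
  obtain ⟨E, hE⟩ : ∃ E : ℂ → ENNReal, E = fun y => ‖ψ' y / dg a b y ^ 2‖ₑ := ⟨_, rfl⟩
  have hEm : Measurable E := by
    rw [hE]
    exact (hψm.div (hdm.pow_const 2)).enorm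
  have hEle : ∀ y, E y * ENNReal.ofReal (‖dg a b y‖ ^ 2) ≤ ‖ψ' y‖ₑ := by
    intro y
    by_cases hy : dg a b y = 0
    · rw [hy]; simp
    · rw [hE]
      simp only
      rw [← ofReal_norm, ← ofReal_norm, ← ENNReal.ofReal_mul (norm_nonneg _)]
      apply ENNReal.ofReal_le_ofReal
      rw [norm_div, norm_pow]
      have : ‖dg a b y‖ ≠ 0 := norm_ne_zero_iff.2 hy
      apply le_of_eq
      field_simp
  have hEae : (fun w => ‖ψ' w‖ₑ) =ᵐ[volume.restrict W] fun w => ∑ y ∈ fs a b w, E y := by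
    refine ae_eq_of_ae_le_of_lintegral_le ?_ ?_ ?_ ?_
    · refine (ae_restrict_iff' hWm).2 ?_
      filter_upwards [hae] with w hw hwW
      rw [hw hwW, hE]
      exact enorm_sum_le _ _
    · exact ne_top_of_le_ne_top ENNReal.one_ne_top ((setLIntegral_le_lintegral _ _).trans hψ1)
    · exact (fs_aem h hEm).restrict
    · calc ∫⁻ w in W, ∑ y ∈ fs a b w, E y = ∫⁻ y in pre a b W, E y * ENNReal.ofReal (‖dg a b y‖ ^ 2) := area h hWm hEm
        _ ≤ ∫⁻ y in pre a b W, ‖ψ' y‖ₑ := lintegral_mono hEle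
        _ ≤ ∫⁻ y, ‖ψ' y‖ₑ := setLIntegral_le_lintegral _ _
        _ = ∫⁻ y in W, ‖ψ' y‖ₑ := by
          rw [← lintegral_indicator hWm]
          refine lintegral_congr fun y => ?_
          by_cases hy : y ∈ W
          · rw [indicator_of_mem hy]
          · rw [indicator_of_notMem hy, hψn y hy, enorm_zero]
  have hEz : ∀ᵐ z : ℂ, b.eval z ≠ 0 → gg a b z ∈ W → E z ≤ ‖ψ' (gg a b z)‖ₑ := by
    have h1 : ∀ᵐ w : ℂ, w ∈ W → ∀ y ∈ fs a b w, E y ≤ ‖ψ' w‖ₑ := by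
      have h2 := (ae_restrict_iff' hWm).1 hEae
      filter_upwards [h2] with w hw hwW y hy
      rw [hw hwW]
      exact Finset.single_le_sum (f := E) (fun i _ => bot_le) hy
    rw [ae_iff] at h1
    have h2 := null_pre h h1
    have h3 : ∀ᵐ z : ℂ, z ∉ pre a b {w | ¬ (w ∈ W → ∀ y ∈ fs a b w, E y ≤ ‖ψ' w‖ₑ)} := compl_mem_ae_iff.2 h2
    filter_upwards [h3] with z hz hbz hzW
    by_contra hcon
    refine hz ⟨hbz, fun h4 => hcon (h4 hzW z ((fs_iff h).2 ⟨hbz, rfl⟩))⟩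
  have hcr : ∀ᵐ z : ℂ, b.eval z ≠ 0 → dg a b z ≠ 0 := by
    have h1 : ((ww a b).roots.toFinset : Set ℂ).Finite := Finset.finite_toSet _
    filter_upwards [compl_mem_ae_iff.2 (h1.measure_zero volume)] with z hz hbz hdz
    apply hz
    rw [Finset.mem_coe, Multiset.mem_toFinset, mem_roots (ww_ne h)]
    unfold Pool.Agent.H61.TT.dg at hdz
    rcases div_eq_zero_iff.1 hdz with h2 | h2
    · exact h2
    · exact absurd h2 (pow_ne_zero 2 hbz)
  -- continuity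
  intro z0 hz0 hbz0 hgz0
  by_contra hcon
  rw [not_le] at hcon
  have hcg : ContinuousAt (gg a b) z0 := (hasDerivAt_gg hbz0).continuousAt
  have hcd : ContinuousAt (dg a b) z0 := by
    unfold Pool.Agent.H61.TT.dg
    exact ((ww a b).continuous.continuousAt).div ((b.continuous.continuousAt).pow 2) (pow_ne_zero 2 hbz0)
  have c1 : ContinuousAt ψ z0 := hψ.continuousAt (hWo.mem_nhds hz0)
  have c2 : ContinuousAt (fun z => ψ (gg a b z)) z0 :=
    ContinuousAt.comp (g := ψ) (hψ.continuousAt (hWo.mem_nhds hgz0)) hcg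
  have hev : ∀ᶠ z in 𝓝 z0, z ∈ W ∧ b.eval z ≠ 0 ∧ gg a b z ∈ W ∧ ‖ψ (gg a b z)‖ * ‖dg a b z‖ ^ 2 < ‖ψ z‖ := by
    filter_upwards [hWo.mem_nhds hz0, b.continuous.continuousAt.eventually_ne hbz0, hcg (hWo.mem_nhds hgz0),
      (c2.norm.mul (hcd.norm.pow 2)).eventually_lt c1.norm hcon] with z y1 y2 y3 y4
    exact ⟨y1, y2, y3, y4⟩
  obtain ⟨V, hV, hVo, hzV⟩ := _root_.mem_nhds_iff.1 hev
  have hVp : 0 < volume V := hVo.measure_pos volume ⟨z0, hzV⟩
  obtain ⟨z, hzV2, hz1, hz2⟩ : ∃ z ∈ V, (b.eval z ≠ 0 → gg a b z ∈ W → E z ≤ ‖ψ' (gg a b z)‖ₑ) ∧ (b.eval z ≠ 0 → dg a b z ≠ 0) := by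
    by_contra hno
    push Not at hno
    have h1 : V ⊆ {z | ¬ ((b.eval z ≠ 0 → gg a b z ∈ W → E z ≤ ‖ψ' (gg a b z)‖ₑ) ∧ (b.eval z ≠ 0 → dg a b z ≠ 0))} := by
      intro z hz hcc
      obtain ⟨h2, h3⟩ := hno z hz hcc.1
      exact hcc.2 h2 h3
    exact hVp.ne' (measure_mono_null h1 (ae_iff.1 (hEz.and hcr)))
  obtain ⟨y1, y2, y3, y4⟩ := hV hzV2
  have h1 := hz1 y2 y3
  have h2 := hz2 y2
  have hE2 : E z = ‖ψ z / dg a b z ^ 2‖ₑ := by
    rw [hE]
    show ‖ψ' z / dg a b z ^ 2‖ₑ = _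
    rw [hψW z y1]
  rw [hψW _ y3, hE2, ← ofReal_norm, ← ofReal_norm, ENNReal.ofReal_le_ofReal_iff (norm_nonneg _), norm_div, norm_pow,
    div_le_iff₀ (pow_pos (norm_pos_iff.2 h2) 2)] at h1
  linarith

theorem lim_zero {v : E d} (hd : 2 ≤ d) (hcop : IsCoprime (pol v.1) (pol v.2))
    (hdeg : max (pol v.1).natDegree (pol v.2).natDegree = d) (hup : ¬ Up v) (hJ : JS (Rf v) = univ)
    (hMc : IsClosed M) (hMi : ∀ x ∈ M, gg (pol v.1) (pol v.2) x ∈ M) (hMb : ∀ x ∈ M, (pol v.2).eval x ≠ 0)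
    {e : ℂ} (hbe : (pol v.2).eval e ≠ 0) (hde : dg (pol v.1) (pol v.2) e = 0) (hgM : gg (pol v.1) (pol v.2) e ∉ M)
    (hg0 : gg (pol v.1) (pol v.2) e ≠ 0) (hg1 : gg (pol v.1) (pol v.2) e ≠ 1)
    (h0 : ∀ n : ℕ, (Rf v)^[n] ((0 : ℂ) : OnePoint ℂ) ≠ (e : OnePoint ℂ))
    (h1 : ∀ n : ℕ, (Rf v)^[n] ((1 : ℂ) : OnePoint ℂ) ≠ (e : OnePoint ℂ))
    (hi : ∀ n : ℕ, (Rf v)^[n] OnePoint.infty ≠ (e : OnePoint ℂ))
    {W : Set ℂ} (hW : W = {w : ℂ | w ∉ M ∧ w ≠ 0 ∧ w ≠ 1}) {ψ : ℂ → ℂ} (hψ : ContinuousOn ψ W)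
    (hle : ∀ z ∈ W, (pol v.2).eval z ≠ 0 → gg (pol v.1) (pol v.2) z ∈ W →
      ‖ψ z‖ ≤ ‖ψ (gg (pol v.1) (pol v.2) z)‖ * ‖dg (pol v.1) (pol v.2) z‖ ^ 2) :
    ∀ z ∈ W, ψ z = 0 := by
  have hWo : IsOpen W := by
    have e : W = Mᶜ ∩ ({0}ᶜ ∩ {1}ᶜ) := by
      rw [hW]
      ext w
      rfl
    rw [e]
    exact hMc.isOpen_compl.inter (isOpen_compl_singleton.inter isOpen_compl_singleton)
  have heM : e ∉ M := fun h2 => hgM (hMi e h2)
  have heW : e ∈ W := by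
    rw [hW]
    refine ⟨heM, ?_, ?_⟩
    · rintro rfl
      exact h0 0 rfl
    · rintro rfl
      exact h1 0 rfl
  have hgW : gg (pol v.1) (pol v.2) e ∈ W := by
    rw [hW]
    exact ⟨hgM, hg0, hg1⟩
  have he0 : ψ e = 0 := by
    have h2 := hle e heW hbe hgW
    rw [hde, norm_zero, zero_pow two_ne_zero, mul_zero] at h2
    exact norm_le_zero_iff.1 h2
  have hback : ∀ (n : ℕ) (z : ℂ), z ∈ W → (Rf v)^[n] (z : OnePoint ℂ) = (e : OnePoint ℂ) → ψ z = 0 := by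
    intro n
    induction n with
    | zero =>
      intro z _ hz
      have h2 : z = e := OnePoint.coe_injective hz
      rw [h2, he0]
    | succ n ih =>
      intro z hzW hz
      rw [Function.iterate_succ_apply] at hz
      have hbz : (pol v.2).eval z ≠ 0 := by
        intro hb
        have h3 : Rf v (z : OnePoint ℂ) = OnePoint.infty := by
          show rat (pol v.1) (pol v.2) _ = _
          rw [rat_coe]
          unfold pt
          rw [if_pos hb]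
        rw [h3] at hz
        exact hi n hz
      have h3 : Rf v (z : OnePoint ℂ) = ((gg (pol v.1) (pol v.2) z : ℂ) : OnePoint ℂ) := rat_coe_of_ne hbz
      rw [h3] at hz
      have hgz : gg (pol v.1) (pol v.2) z ∈ W := by
        rw [hW]
        refine ⟨fun hm => heM ?_, fun h4 => ?_, fun h4 => ?_⟩
        · have h4 : (Rf v)^[n] ((gg (pol v.1) (pol v.2) z : ℂ) : OnePoint ℂ) =
              (((gg (pol v.1) (pol v.2))^[n] (gg (pol v.1) (pol v.2) z) : ℂ) : OnePoint ℂ) :=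
            Pool.Agent.H47.LI.it_coe hMb hMi hm n
          rw [h4] at hz
          rw [← OnePoint.coe_injective hz]
          exact Pool.Agent.H47.LI.it_mem hMi hm n
        · rw [h4] at hz
          exact h0 n hz
        · rw [h4] at hz
          exact h1 n hz
      have h4 := hle z hzW hbz hgz
      rw [ih _ hgz hz, norm_zero, zero_mul] at h4
      exact norm_le_zero_iff.1 h4
  intro z0 hz0
  by_contra hne
  have hev : ∀ᶠ z in 𝓝 z0, ψ z ≠ 0 ∧ z ∈ W :=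
    ((hψ.continuousAt (hWo.mem_nhds hz0)).eventually_ne hne).and (hWo.mem_nhds hz0)
  obtain ⟨V, hV, hVo, hzV⟩ := _root_.mem_nhds_iff.1 hev
  have hO : IsOpen ((fun z : ℂ => (z : OnePoint ℂ)) '' V) := OnePoint.isOpenEmbedding_coe.isOpenMap _ hVo
  obtain ⟨n, hn⟩ := Pool.Agent.H66.UX.leo_s hd hcop hdeg hup hJ hO ⟨_, z0, hzV, rfl⟩
  obtain ⟨-, ⟨z, hz, rfl⟩, hze⟩ := hn n le_rfl (e : OnePoint ℂ)
  exact (hV hz).1 (hback n z (hV hz).2 hze)

theorem nm_zero {v : E d} (hd : 2 ≤ d) (hcop : IsCoprime (pol v.1) (pol v.2))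
    (hdeg : max (pol v.1).natDegree (pol v.2).natDegree = d) (hup : ¬ Up v) (hJ : JS (Rf v) = univ)
    (hMc : IsClosed M) (hMi : ∀ x ∈ M, gg (pol v.1) (pol v.2) x ∈ M) (hMb : ∀ x ∈ M, (pol v.2).eval x ≠ 0)
    {e : ℂ} (hbe : (pol v.2).eval e ≠ 0) (hde : dg (pol v.1) (pol v.2) e = 0) (hgM : gg (pol v.1) (pol v.2) e ∉ M)
    (hg0 : gg (pol v.1) (pol v.2) e ≠ 0) (hg1 : gg (pol v.1) (pol v.2) e ≠ 1)
    (h0 : ∀ n : ℕ, (Rf v)^[n] ((0 : ℂ) : OnePoint ℂ) ≠ (e : OnePoint ℂ))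
    (h1 : ∀ n : ℕ, (Rf v)^[n] ((1 : ℂ) : OnePoint ℂ) ≠ (e : OnePoint ℂ))
    (hi : ∀ n : ℕ, (Rf v)^[n] OnePoint.infty ≠ (e : OnePoint ℂ)) {r : ℂ → ℂ → ℂ} {C : ℝ} (hkn : KN KA r M N univ C)
    (hN0 : (0 : ℂ) ∉ N) (hN1 : (1 : ℂ) ∉ N) : NMs (pol v.1) (pol v.2) KA M N univ Mᶜ := by
  have hrd : RatD d (pol v.1) (pol v.2) := ⟨hd, hcop, hdeg⟩
  intro L A x hx hb hinv K hKΩ hKN hK
  obtain ⟨W, hW⟩ : ∃ W : Set ℂ, W = {w : ℂ | w ∉ M ∧ w ≠ 0 ∧ w ≠ 1} := ⟨_, rfl⟩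
  have hWo : IsOpen W := by
    have e : W = Mᶜ ∩ ({0}ᶜ ∩ {1}ᶜ) := by
      rw [hW]
      ext w
      rfl
    rw [e]
    exact hMc.isOpen_compl.inter (isOpen_compl_singleton.inter isOpen_compl_singleton)
  have hKW : K ⊆ W := by
    intro w hw
    rw [hW]
    refine ⟨hKΩ hw, ?_, ?_⟩
    · rintro rfl
      exact hN0 (hKN hw)
    · rintro rfl
      exact hN1 (hKN hw)
  obtain ⟨F, hF⟩ : ∃ F : ℕ → ℂ → ℂ, F = fun n => Ph KA (L n) (A n) (x n) := ⟨_, rfl⟩
  have hFm : ∀ n, Measurable (F n) := fun n => by rw [hF]; exact ph_meas hkn _ _ _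
  have hFd : ∀ n, DifferentiableOn ℂ (F n) W := by
    intro n
    rw [hF]
    show DifferentiableOn ℂ (Ph KA (L n) (A n) (x n)) W
    unfold Pool.Agent.H31.LOC.Ph
    refine DifferentiableOn.fun_sum fun k hk => ?_
    have hxM := hx n k (Finset.mem_range.1 hk)
    refine DifferentiableOn.const_mul ?_ _
    unfold Pool.Agent.H1.PU.KA
    refine DifferentiableOn.div (differentiableOn_const _) ((differentiableOn_id.mul (differentiableOn_id.sub (differentiableOn_const _))).mul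
      (differentiableOn_id.sub (differentiableOn_const _))) ?_
    intro w hw
    rw [hW] at hw
    refine mul_ne_zero (mul_ne_zero hw.2.1 (sub_ne_zero.2 hw.2.2)) (sub_ne_zero.2 ?_)
    intro h2
    exact hw.1 (h2 ▸ hxM)
  have hFb : ∀ n, ∫⁻ w, ‖F n w‖ₑ ≤ 1 := fun n => by
    have h2 := hb n
    rw [Measure.restrict_univ] at h2
    rw [hF]
    exact h2
  have hFb' : ∀ n, ∫⁻ w in univ, ‖F n w‖ₑ ≤ ENNReal.ofReal 1 := fun n => by
    rw [ENNReal.ofReal_one, Measure.restrict_univ]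
    exact hFb n
  have hFi : Tendsto (fun n => ∫⁻ w, ‖F n w - pf (pol v.1) (pol v.2) (F n) w‖ₑ) atTop (𝓝 0) := by
    rw [Measure.restrict_univ] at hinv
    rw [hF]
    exact hinv
  show Tendsto (fun n => ∫⁻ w in K, ‖Ph KA (L n) (A n) (x n) w‖ₑ) atTop (𝓝 0)
  have hFK : Tendsto (fun n => ∫⁻ w in K, ‖F n w‖ₑ) atTop (𝓝 0) := by
    refine tendsto_of_subseq_tendsto fun ns hns => ?_
    obtain ⟨σ, G, hσ, hG, hJC⟩ := Pool.Agent.H56.RD.mtm (F := fun k => F (ns k)) hWo (fun k => hFd (ns k)) (by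
      intro z hz
      obtain ⟨ρ, hρ, hball⟩ := Metric.isOpen_iff.1 hWo z hz
      refine ⟨ρ / 2, by linarith, 1 / (Real.pi * (ρ / 2) ^ 2), Eventually.of_forall fun k w hw => ?_⟩
      have hsub : ball w (ρ / 2) ⊆ W := by
        intro y hy
        apply hball
        rw [mem_ball] at hy hw ⊢
        linarith [dist_triangle y w z]
      exact pt_bd (hFm _) (by linarith) ((hFd _).mono hsub) (subset_univ _) zero_le_one (hFb' _))
    refine ⟨σ, ?_⟩
    have hpt : ∀ z ∈ W, Tendsto (fun k => F (ns (σ k)) z) atTop (𝓝 (G z)) := by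
      intro z hz
      exact (hJC z hz).comp (tendsto_id.prodMk tendsto_const_nhds)
    have hG1 : ∀ z ∈ W, G z = 0 :=
      lim_zero hd hcop hdeg hup hJ hMc hMi hMb hbe hde hgM hg0 hg1 h0 h1 hi hW hG.continuousOn
        (lim_le hrd hMc hMi hW (fun k => hFm (ns (σ k))) hG.continuousOn hpt (fun k => hFb (ns (σ k)))
          (hFi.comp (hns.comp hσ.tendsto_atTop)))
    -- dominated convergence on `K`
    obtain ⟨ρ, hρ, hthick⟩ := hK.exists_thickening_subset_open hWo hKW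
    have hbd : ∀ w ∈ K, ∀ k, ‖F (ns (σ k)) w‖ ≤ 1 / (Real.pi * ρ ^ 2) := by
      intro w hw k
      have hsub : ball w ρ ⊆ W := (ball_subset_thickening hw ρ).trans hthick
      exact pt_bd (hFm _) hρ ((hFd _).mono hsub) (subset_univ _) zero_le_one (hFb' _)
    have h0 : (0 : ENNReal) = ∫⁻ _ in K, (0 : ENNReal) := by simp
    rw [h0]
    refine tendsto_lintegral_of_dominated_convergence (fun _ => ENNReal.ofReal (1 / (Real.pi * ρ ^ 2)))
      (fun k => (hFm _).enorm) ?_ ?_ ?_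
    · intro k
      rw [Filter.EventuallyLE, ae_restrict_iff' hK.isClosed.measurableSet]
      refine Eventually.of_forall fun w hw => ?_
      rw [← ofReal_norm]
      exact ENNReal.ofReal_le_ofReal (hbd w hw k)
    · rw [setLIntegral_const]
      exact ENNReal.mul_ne_top ENNReal.ofReal_ne_top hK.measure_lt_top.ne
    · rw [ae_restrict_iff' hK.isClosed.measurableSet]
      refine Eventually.of_forall fun w hw => ?_
      have h1 := (hpt w (hKW hw)).enorm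
      rwa [hG1 w (hKW hw), enorm_zero] at h1
  rw [hF] at hFK
  exact hFK

end Pool.Agent.H15.LOC
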