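import Pool.Agent.H15.LOC.Lod
import Pool.Agent.H31.LOC.Loc

/-!
# THEOREM ATT+ (think 2069), Julia set not the sphere, in the chart

`out_q`: orbits off the Julia set leave the neighbourhoods of `J` (second part of `out_p`). `ld_q`: the data of `lod` for a closed invariant `M` in `J` with a critical point, `B = J`
(as `ld_p` of `Pool.Agent.H31.LOC.Ldp`, where `M` is a piece of the post-critical set). `att_cd`: THEOREM ATT+ for `M` = closure of the orbit of a critical point.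
-/

set_option autoImplicit false

open Filter Topology Polynomial Metric Set MeasureTheory

namespace Pool.Agent.H15.LOC

open Pool.Agent.H44.Fatou (rat rat_continuous rat_coe rat_coe_of_ne pt crit_coe)
open Pool.Agent.H56.HR (FS EqAt)
open Pool.Agent.H32.BT Pool.Agent.H79.Eul Pool.Agent.H79.Par
open Pool.Agent.H35.EX Pool.Agent.H44.RR Pool.Agent.H44.RC Pool.Agent.H47.RJ
open Pool.Agent.H47.NN Pool.Agent.H44.ND Pool.Agent.H79.ES Pool.Agent.H44.TH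
open Pool.Agent.H64.NC Pool.Agent.H61.TT Pool.Agent.H57.CP Pool.Agent.H3.NC
open Pool.Agent.H57.CF Pool.Agent.H47.NM
open Pool.Agent.H18.UP (PJ Cr NJ ZV US0 US VP us0 thk)
open Pool.Agent.H27.BR (CD ps_ga jc_comp geo_cd cu_cd pj_sub jc_int)
open Pool.Agent.H83.UP (qq vp_ga z_meas z_pre z_bd z_ball hcoP step_p val0_p us_of)
open Pool.Agent.H56.UE (PUE pr_pue)
open Pool.Agent.H31.LOC

private theorem ot_it {d : ℕ} {u : E d} {z : ℂ} {n : ℕ}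
    (hb : ∀ i < n, (pol u.2).eval ((Pool.Agent.H61.TT.gg (pol u.1) (pol u.2))^[i] z) ≠ 0) :
    (Rf u)^[n] (z : OnePoint ℂ) = (((Pool.Agent.H61.TT.gg (pol u.1) (pol u.2))^[n] z : ℂ) : OnePoint ℂ) := by
  induction n with
  | zero => rfl
  | succ n ih =>
    rw [Function.iterate_succ_apply', Function.iterate_succ_apply', ih fun i hi => hb i (by omega)]
    unfold Rf
    rw [rat_coe_of_ne (hb n (by omega))]
    rfl

theorem out_q {d : ℕ} {u : E d} {T : Set (OnePoint ℂ)} (hT : GA u T) :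
    ∃ ε0 : ℝ, 0 < ε0 ∧ ∀ ε : ℝ, ε ≤ ε0 → ∀ M ⊆ JC u, ∀ z : ℂ, z ∉ JC u →
      ∀ᶠ n : ℕ in atTop, z ∉ (pre (pol u.1) (pol u.2))^[n] (thickening ε M) := by
  obtain ⟨T', -, hG'⟩ := Pool.Agent.H66.IL.gt_ex hT
  have hJc : IsCompact (JC u) := Pool.Agent.H27.BR.jc_comp hT
  have hCc : IsClosed {z : ℂ | (z : OnePoint ℂ) ∈ T'} := hG'.tr.closed.preimage OnePoint.continuous_coe
  have hdis : Disjoint (JC u) {z : ℂ | (z : OnePoint ℂ) ∈ T'} := by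
    rw [Set.disjoint_left]
    intro z hz hz2
    exact hz (hT.af _ (hG'.tr.att _ hz2))
  obtain ⟨δa, hδa, hda⟩ := hdis.exists_thickenings hJc hCc
  refine ⟨δa, hδa, fun ε hεle M hMJ z hzJ => ?_⟩
  have hzF : (z : OnePoint ℂ) ∈ FS (Rf u) := by
    by_contra h1
    exact hzJ h1
  obtain ⟨k, hk⟩ := hG'.en _ hzF
  have hk2 : ∀ m : ℕ, (Rf u)^[k + m] (z : OnePoint ℂ) ∈ T' := by
    intro m
    induction m with
    | zero => exact hk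
    | succ m ih =>
      rw [← add_assoc, Function.iterate_succ_apply']
      exact interior_subset (hG'.tr.maps _ ih)
  filter_upwards [eventually_ge_atTop k] with n hn hnp
  obtain ⟨hb, hM2⟩ := mem_pre.1 hnp
  obtain ⟨m, rfl⟩ : ∃ m, n = k + m := ⟨n - k, by omega⟩
  have h1 := ot_it hb
  have h2 := hk2 m
  rw [h1] at h2
  have h3 : (Pool.Agent.H61.TT.gg (pol u.1) (pol u.2))^[k + m] z ∈ thickening δa {z : ℂ | (z : OnePoint ℂ) ∈ T'} :=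
    self_subset_thickening hδa _ h2
  exact Set.disjoint_left.1 hda (thickening_subset_of_subset _ hMJ (thickening_mono hεle _ hM2)) h3

theorem ld_q {d D : ℕ} {u : E d} {T : Set (OnePoint ℂ)} (hT : GA u T) {δ0 R0 : ℝ}
    (hU : US0 d D (pol u.1) (pol u.2) (JC u) δ0 R0) {C0 : ℝ} {X : ℕ → ℂ → ℂ} (hV : VP D (pol u.1) (pol u.2) (JC u) C0 X)
    {δ : ℝ} {η : ℂ → ℂ → ℂ} {ρ : ℝ}
    (h : Pool.Agent.H56.UD.PS (Pool.Agent.H61.TT.gg (pol u.1) (pol u.2)) {z | (pol u.2).eval z ≠ 0} (JC u)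
      (PJ (pol u.1) (pol u.2) (JC u)) {c | c ∈ JC u ∧ Cr (pol u.1) (pol u.2) c} δ η ρ)
    {M : Set ℂ} (hM : IsClosed M) (hMJ : M ⊆ JC u)
    (hMi : ∀ x ∈ M, Pool.Agent.H61.TT.gg (pol u.1) (pol u.2) x ∈ M)
    (hMC : ∃ c ∈ M, Cr (pol u.1) (pol u.2) c)
    (hue : ∀ c ∈ M, Cr (pol u.1) (pol u.2) c → ∀ ε : ℝ, 0 < ε → ∃ A : ℝ, ∀ n : ℕ,
      ‖Dn (Pool.Agent.H61.TT.gg (pol u.1) (pol u.2)) n (Pool.Agent.H61.TT.gg (pol u.1) (pol u.2) c)‖ ≤ A * Real.exp (ε * n)) :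
    ∃ (N Z : Set ℂ) (φ : ℕ → ℂ → ℂ) (δ' C : ℝ), (∀ z : ℂ, z ∉ JC u →
        ∀ᶠ n : ℕ in atTop, z ∉ (pre (pol u.1) (pol u.2))^[n] N) ∧ LD d (pol u.1) (pol u.2) M N Z
      {c | c ∈ M ∧ (Pool.Agent.H61.TT.ww (pol u.1) (pol u.2)).eval c = 0} (JC u) qq (fun _ _ => 0) D φ X δ' C := by
  have hbM : ∀ x ∈ JC u, (pol u.2).eval x ≠ 0 := fun x hx => hT.bne hx
  have hUS := us_of hU hV
  obtain ⟨ε0, hε0, hout⟩ := out_q hT
  obtain ⟨ε, hε⟩ : ∃ ε, ε = min ε0 δ0 := ⟨_, rfl⟩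
  have hδ0 : 0 < δ0 := hU.ns.hδ0
  have hεp : 0 < ε := hε ▸ lt_min hε0 hδ0
  have hout' := hout ε (hε ▸ min_le_left _ _) M hMJ
  obtain ⟨C1, hKN⟩ := kn_p hU.ns hM hMJ hεp (hε ▸ min_le_right _ _)
  obtain ⟨δ1, B, hδ1, hGS⟩ := gs_p hUS hM hMJ hMi
  obtain ⟨hGS1, hex⟩ := hGS δ1 hδ1 le_rfl
  have hZm := z_meas hU.ns
  have hZb := z_bd hU.ns
  have hZp : pre (pol u.1) (pol u.2) (ZV (pol u.1) (pol u.2) (NJ (JC u) δ0)) ⊆ ZV (pol u.1) (pol u.2) (NJ (JC u) δ0) := z_pre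
  obtain ⟨φ, hφ, hlg⟩ := hcoP hU.ns hZm hZb hZp
  -- WE
  obtain ⟨θ, r1, hθ, hr1, hth⟩ := thk hU
  have hwe : ∀ j : ℕ, ∃ C2 : ℝ, j ≤ D → ∀ (L : ℕ) (A x : ℕ → ℂ), (∀ k < L, x k ∈ M) →
      ‖∑ k ∈ Finset.range L, A k * X j (x k)‖ₑ ≤ ENNReal.ofReal C2 * ∫⁻ w in thickening ε M, ‖Ph qq L A x w‖ₑ := by
    intro j
    by_cases hj : j ≤ D
    · have tp : Pool.Agent.H18.WE.TP (JC u) (X j) C0 θ r1 :=
        ⟨h.Jc, by linarith [hV.hC], hθ, hr1, hV.bd j hj, hV.tri j hj, hth⟩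
      obtain ⟨C2, -, h2⟩ := wej hKN tp hMJ
      exact ⟨C2, fun _ => h2⟩
    · exact ⟨0, fun h1 => absurd h1 hj⟩
  choose C2 hC2 using hwe
  obtain ⟨S, hS⟩ : ∃ S, S = ∑ j ∈ Finset.range (D + 1), |C2 j| := ⟨_, rfl⟩
  have hS1 : ∀ j ≤ D, C2 j ≤ S := by
    intro j hj
    rw [hS]
    exact (le_abs_self _).trans (Finset.single_le_sum (f := fun j => |C2 j|) (fun i _ => abs_nonneg _)
      (Finset.mem_range.2 (by omega)))
  have hnr : ∀ c ∈ M, (Pool.Agent.H61.TT.ww (pol u.1) (pol u.2)).eval c = 0 →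
      (∀ n : ℕ, dg (pol u.1) (pol u.2) ((Pool.Agent.H61.TT.gg (pol u.1) (pol u.2))^[n]
        (Pool.Agent.H61.TT.gg (pol u.1) (pol u.2) c)) ≠ 0) ∧
      ∀ n : ℕ, 0 < n → (Pool.Agent.H61.TT.gg (pol u.1) (pol u.2))^[n] (Pool.Agent.H61.TT.gg (pol u.1) (pol u.2) c) ≠
        Pool.Agent.H61.TT.gg (pol u.1) (pol u.2) c := fun c hc hw => nr_p hU hV (hMJ hc) hw
  obtain ⟨C, hC⟩ : ∃ C, C = max (max C1 B) (max C0 S) := ⟨_, rfl⟩
  have hC1 : C1 ≤ C := hC ▸ (le_max_left _ _).trans (le_max_left _ _)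
  have hC2' : B ≤ C := hC ▸ (le_max_right _ _).trans (le_max_left _ _)
  have hC3 : C0 ≤ C := hC ▸ (le_max_left _ _).trans (le_max_right _ _)
  have hC4 : S ≤ C := hC ▸ (le_max_right _ _).trans (le_max_right _ _)
  refine ⟨thickening ε M, ZV (pol u.1) (pol u.2) (NJ (JC u) δ0), φ, δ1, C, hout', ?_⟩
  refine ⟨hU.ns.rt, hKN.mono hC1, hGS1.mono hC2', ?_, ?_, fun x hx => hbM x (hMJ hx), hZp, h.Jc.isClosed.measurableSet,
    ?_, fun z hz => hbM z hz, fun z hz => ⟨fun h1 => h.Jb z hz h1, fun h1 => h.Jf z h1⟩, ?_, fun j _ => hφ j,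
    fun j hj x hx => (hV.bd j hj x (hMJ hx)).trans hC3, ?_, ?_, ?_, ?_, ?_, ?_, hex⟩
  · exact h.Cf.subset fun c hc => ⟨hMJ hc.1, hbM c (hMJ hc.1), hc.2⟩
  · obtain ⟨c, hc, hcr⟩ := hMC
    exact ⟨c, hc, hcr.2⟩
  · intro z hz
    exact z_ball hz (mem_ball_self hδ0)
  · exact Eventually.of_forall fun z _ hzB => hout' z hzB
  · intro j hj L A x hx
    refine (hC2 j hj L A x hx).trans ?_
    gcongr
    exact (hS1 j hj).trans hC4
  · intro x hx hdx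
    filter_upwards [step_p hU hV hlg (hMJ hx) hdx] with w hw _
    exact hw
  · intro c hc
    filter_upwards [val0_p hU hV hlg (hMJ hc.1) hc.2] with w hw _
    exact hw
  · exact fun c hc => hue c hc.1 ⟨hbM c (hMJ hc.1), hc.2⟩
  · exact fun c hc => (hnr c hc.1 hc.2).1
  · exact fun c hc => (hnr c hc.1 hc.2).2

/-- THEOREM ATT+ in the chart -/
theorem att_cd {d : ℕ} {v u : E d} {φ : OnePoint ℂ ≃ₜ OnePoint ℂ} {K : ℝ} {T : Set (OnePoint ℂ)} {D : ℕ} (h : CD v u φ K T D)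
    (hue : ∀ c, IsCrit (Rf v) c → c ∈ JS (Rf v) → ¬ PUE (Rf v) (Rf v c)) {M : Set ℂ} (hM : IsClosed M) (hMJ : M ⊆ JC u)
    (hMi : ∀ x ∈ M, Pool.Agent.H61.TT.gg (pol u.1) (pol u.2) x ∈ M) (hMC : ∃ c ∈ M, Cr (pol u.1) (pol u.2) c) :
    ∃ (G : Set ℂ) (μ : ℂ → ℂ) (C1 : ℝ), MeasurableSet G ∧ G ⊆ JC u ∧
      (∀ z : ℂ, (pol u.2).eval z ≠ 0 → (Pool.Agent.H61.TT.gg (pol u.1) (pol u.2) z ∈ G ↔ z ∈ G)) ∧
      (∀ z ∈ G, ∀ N' : Set ℂ, IsOpen N' → M ⊆ N' → ∀ ε : ℝ, 0 < ε → ∀ n0 : ℕ, ∃ n ≥ n0,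
        (1 - ε) * n ≤ ({k | k < n ∧ (Pool.Agent.H61.TT.gg (pol u.1) (pol u.2))^[k] z ∈ N'} : Set ℕ).ncard) ∧
      Measurable μ ∧ (∀ z, ‖μ z‖ ≤ C1) ∧ (∀ z, z ∉ G → μ z = 0) ∧
      (∀ᵐ z : ℂ, (pol u.2).eval z ≠ 0 → μ (Pool.Agent.H61.TT.gg (pol u.1) (pol u.2) z) *
        (starRingEnd ℂ) (dg (pol u.1) (pol u.2) z) = μ z * dg (pol u.1) (pol u.2) z) ∧
      0 < volume {z | μ z ≠ 0} := by
  obtain ⟨c, hcM, hcr⟩ := id hMC
  have hcJ : c ∈ JC u := hMJ hcM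
  have hcrit : ∀ c : ℂ, Cr (pol u.1) (pol u.2) c → IsCrit (Rf u) (c : OnePoint ℂ) := fun c hc =>
    crit_of_wr h.ga.cop (by rw [h.ga.deg]; have := h.ga.hd; omega) hc.2
  have hc0 := hcrit c hcr
  obtain ⟨δ0, hG⟩ := geo_cd h hc0 hcJ
  obtain ⟨δ, η, ρ, hPS⟩ := ps_ga h.ga hG hcJ hcr
  obtain ⟨δ1, R0, hU⟩ := us0 h.ga h.hD h.wd hc0 hcJ h.lg
  obtain ⟨C0, X, hV⟩ := vp_ga h.ga hU h.mot
  -- exponents
  have hexp : ∀ c ∈ M, Cr (pol u.1) (pol u.2) c → ∀ ε : ℝ, 0 < ε → ∃ A : ℝ, ∀ n : ℕ,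
      ‖Dn (Pool.Agent.H61.TT.gg (pol u.1) (pol u.2)) n (Pool.Agent.H61.TT.gg (pol u.1) (pol u.2) c)‖ ≤ A * Real.exp (ε * n) := by
    intro c' hc' hcr'
    have hcJ' : (c' : OnePoint ℂ) ∈ JS (Rf u) := hMJ hc'
    have h1 := hcrit c' hcr'
    obtain ⟨x, hx⟩ := φ.surjective (c' : OnePoint ℂ)
    have h2 : IsCrit (Rf v) x := by
      rw [← isCrit_conj φ h.conj x, hx]
      exact h1
    have h3 : x ∈ JS (Rf v) := by
      rw [← js_conj φ (fun y => (h.conj y).symm) x, hx]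
      exact hcJ'
    have h4 : ((Pool.Agent.H61.TT.gg (pol u.1) (pol u.2) c' : ℂ) : OnePoint ℂ) = φ (Rf v x) := by
      rw [← h.conj, hx]
      exact (rat_coe_of_ne hcr'.1).symm
    refine ue_p h (x := Rf v x) ?_ h4 (hue x h2 h3)
    rw [← js_conj φ (fun y => (h.conj y).symm) (Rf v x), ← h4]
    have h5 := h.ga.js 1 hcJ'
    rw [Function.iterate_one] at h5
    have h6 : Rf u (c' : OnePoint ℂ) = ((Pool.Agent.H61.TT.gg (pol u.1) (pol u.2) c' : ℂ) : OnePoint ℂ) :=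
      rat_coe_of_ne hcr'.1
    rw [h6] at h5
    exact h5
  obtain ⟨N, Z, ψ, δ', C, hout, hLD⟩ := ld_q h.ga hU hV hPS hM hMJ hMi hMC hexp
  have hJn : ∀ z ∈ JC u, ∀ n : ℕ, (Pool.Agent.H61.TT.gg (pol u.1) (pol u.2))^[n] z ∈ JC u := by
    intro z hz n
    induction n with
    | zero => exact hz
    | succ n ih =>
      rw [Function.iterate_succ_apply']
      exact hPS.Jf _ ih
  have hJi : interior (JC u) = ∅ := jc_int h.ga
  have hΩd : N \ M ⊆ closure (N \ JC u) := by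
    intro w hw
    rw [mem_closure_iff_nhds]
    intro V hV
    have h1 : V ∩ N ∈ 𝓝 w := inter_mem hV (hLD.kn.No.mem_nhds hw.1)
    by_contra hcon
    have h2 : V ∩ N ⊆ JC u := by
      intro y hy
      by_contra hyJ
      exact hcon ⟨y, hy.1, hy.2, hyJ⟩
    have h3 : w ∈ interior (JC u) := mem_interior_iff_mem_nhds.2 (mem_of_superset h1 h2)
    rw [hJi] at h3
    exact h3
  obtain ⟨G, μ, C1, hGm, hGB, hGi, hGv, hμm, hμb, hμ0, hμi, hμp⟩ := lod hLD (Ω := N \ JC u)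
    (hLD.kn.No.sdiff hPS.Jc.isClosed) hΩd (Or.inl <| by
      intro K hK _ _ _ _ _ _ _
      refine Eventually.of_forall fun z _ _ => ?_
      by_cases hz : z ∈ JC u
      · refine Eventually.of_forall fun n hn => ?_
        exact (hK (mem_pre.1 hn).2).2 (hJn z hz n)
      · filter_upwards [hout z hz] with n hn hn2
        exact hn (it_mono (fun y hy => (hK hy).1) n hn2))
  refine ⟨G, μ, C1, hGm, hGB, hGi, ?_, hμm, hμb, hμ0, hμi, hμp⟩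
  intro z hz N' hN' hMN' ε hε n0
  obtain ⟨n, hn, h1⟩ := hGv z hz N' hN' hMN' ε hε n0
  refine ⟨n, hn, h1.trans (le_of_eq ?_)⟩
  rw [vr_card]
  have h2 : ({k | k < n ∧ z ∈ (pre (pol u.1) (pol u.2))^[k] N'} : Set ℕ) =
      {k | k < n ∧ (Pool.Agent.H61.TT.gg (pol u.1) (pol u.2))^[k] z ∈ N'} := by
    ext k
    refine and_congr_right fun _ => ?_
    rw [mem_pre]
    exact ⟨fun h3 => h3.2, fun h3 => ⟨fun i _ => hLD.Bb _ (hJn z (hGB hz) i), h3⟩⟩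
  rw [h2]

end Pool.Agent.H15.LOC
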