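import Pool.Agent.H15.LOC.Fam
import Pool.Agent.H15.LOC.FinV
import Pool.Agent.H15.LOC.LdG
import Pool.Agent.H15.LOC.Nmz
import Pool.Agent.H39.HO.NP
import Pool.Agent.H56.SPH.Fin

/-!
# THEOREM ATT+ (think 2069), Julia set = sphere

`ncr_all`: no critical relations. `at_chart`: THEOREM ATT+ in a chart where `0`, `1`, `∞` are not in the closure `P` of the orbit of the critical point. Two cases: the post-critical set is not the sphere (`FinQ`), or there is a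
critical point whose value is not in `P` (`nm_zero`). `at_sph`: THEOREM ATT+, Julia set = sphere; if `P` is the sphere there is nothing to prove. First chart: `0`, `1`, `∞` fixed; second chart as in `at_chart`.
-/

set_option autoImplicit false

open Filter Topology Polynomial Metric Set MeasureTheory

namespace Pool.Agent.H15.LOC

open Pool.Agent.H44.Fatou (rat rat_continuous rat_coe rat_coe_of_ne pt crit_coe)
open Pool.Agent.H56.HR (FS EqAt)
open Pool.Agent.H32.BT Pool.Agent.H79.Eul Pool.Agent.H79.Par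
open Pool.Agent.H35.EX Pool.Agent.H44.RR Pool.Agent.H44.RC Pool.Agent.H47.RJ
open Pool.Agent.H47.NM Pool.Agent.H47.NN Pool.Agent.H44.ND Pool.Agent.H79.ES Pool.Agent.H44.RG
open Pool.Agent.H44.CP Pool.Agent.H47.PS Pool.Agent.H64.NC Pool.Agent.H57.CF
open Pool.Agent.H64.JS (KJ kj_inv)
open Pool.Agent.H64.TP (KK)
open Pool.Agent.H61.TT (gg dg ww RatD pre)
open Pool.Agent.H31.LOC
open Pool.Agent.H18.UP (Cr)
open Pool.Agent.H78.UX (kj_img)
open Pool.Agent.H47.LI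
open Pool.Agent.H3.NC (mem_pre)
open Pool.Agent.H1.PU (KA)

variable {d : ℕ}

theorem ncr_all {v : E d} (hd : 2 ≤ d) (hcop : IsCoprime (pol v.1) (pol v.2))
    (hdeg : max (pol v.1).natDegree (pol v.2).natDegree = d) (hup : ¬ Up v) (hJ : JS (Rf v) = univ) :
    ∀ c c', IsCrit (Rf v) c → IsCrit (Rf v) c' → ∀ n : ℕ, 1 ≤ n → (Rf v)^[n] c ≠ c' := by
  obtain ⟨q1, q2, q3, n12, n13, n23, e1, e2, e3⟩ := three_fix hd hcop hdeg hup hJ
  obtain ⟨L, G, φ, K, hch, -, f0, f1, fi⟩ := ch_three (d := d) hd n12 n13 n23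
  obtain ⟨hcop1, hdeg1, hφ⟩ := hch.conj v hcop hdeg
  have hup1 : ¬ Up (L v) := fun h =>
    hup (up_chart hd hch.cG hch.invL hch.invR (fun v h3 h4 => (hch.conj v h3 h4).2.2) hcop hdeg h)
  have hJS1 : JS (Rf (L v)) = univ := by
    rw [eq_univ_iff_forall]
    intro y
    obtain ⟨x, rfl⟩ := φ.surjective y
    exact (js_conj φ (fun y => (hφ y).symm) x).2 (hJ ▸ mem_univ x)
  have h0 : Rf (L v) ((0 : ℂ) : OnePoint ℂ) = ((0 : ℂ) : OnePoint ℂ) := by rw [← f0, hφ, e1]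
  have h1 : Rf (L v) ((1 : ℂ) : OnePoint ℂ) = ((1 : ℂ) : OnePoint ℂ) := by rw [← f1, hφ, e2]
  have hi : Rf (L v) OnePoint.infty = OnePoint.infty := by rw [← fi, hφ, e3]
  have hcr : ∀ c, IsCrit (Rf v) c → ∃ z : ℂ, φ c = (z : OnePoint ℂ) ∧ Cr (pol (L v).1) (pol (L v).2) z := by
    intro c hc
    have h2 : IsCrit (Rf (L v)) (φ c) := (isCrit_conj φ hφ c).2 hc
    have hne : φ c ≠ OnePoint.infty := by
      intro he
      rw [he] at h2
      exact not_pre hd hcop1 hdeg1 hup1 h2 (hJS1 ▸ mem_univ _) 0 1 one_pos hi.symm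
    obtain ⟨z, hz⟩ := OnePoint.ne_infty_iff_exists.1 hne
    rw [← hz] at h2
    refine ⟨z, hz.symm, ?_, crit_coe h2⟩
    intro hb
    have h3 : Rf (L v) (z : OnePoint ℂ) = OnePoint.infty := by
      show rat (pol (L v).1) (pol (L v).2) _ = _
      rw [rat_coe]
      unfold pt
      rw [if_pos hb]
    refine not_pre hd hcop1 hdeg1 hup1 h2 (hJS1 ▸ mem_univ _) 1 2 one_lt_two ?_
    show Rf (L v) (z : OnePoint ℂ) = Rf (L v) (Rf (L v) (z : OnePoint ℂ))
    rw [h3, hi]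
  have hconjn : ∀ (n : ℕ) (x : OnePoint ℂ), (Rf (L v))^[n] (φ x) = φ ((Rf v)^[n] x) := by
    intro n
    induction n with
    | zero => exact fun _ => rfl
    | succ n ih =>
      intro x
      rw [Function.iterate_succ_apply, hφ, ih, Function.iterate_succ_apply]
  intro c c' hc hc' n hn he
  obtain ⟨z, hz, hcz⟩ := hcr c hc
  obtain ⟨z', hz', hcz'⟩ := hcr c' hc'
  refine Pool.Agent.H66.UX.ncr hd hcop1 hdeg1 hup1 hJS1 h0 h1 hi hcz hcz' hn ?_
  rw [← hz, ← hz', hconjn, he]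

/-- iterates of points of preimages -/
theorem pre_it {a b : Polynomial ℂ} {N : Set ℂ} (n : ℕ) : ∀ z : ℂ, z ∈ (pre a b)^[n] N →
    (rat a b)^[n] (z : OnePoint ℂ) = (((gg a b)^[n] z : ℂ) : OnePoint ℂ) ∧ (gg a b)^[n] z ∈ N := by
  induction n with
  | zero => exact fun z hz => ⟨rfl, hz⟩
  | succ n ih =>
    intro z hz
    rw [Function.iterate_succ_apply'] at hz
    obtain ⟨h1, h2⟩ := hz
    obtain ⟨h3, h4⟩ := ih _ h2
    refine ⟨?_, ?_⟩
    · rw [Function.iterate_succ_apply, rat_coe_of_ne h1, Function.iterate_succ_apply]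
      exact h3
    · rw [Function.iterate_succ_apply]
      exact h4

/-- the theorem in a chart where `0`, `1`, `∞` are not in the closure of the orbit -/
theorem at_chart {v : E d} (hd : 2 ≤ d) (hcop : IsCoprime (pol v.1) (pol v.2))
    (hdeg : max (pol v.1).natDegree (pol v.2).natDegree = d) (hup : ¬ Up v) (hJ : JS (Rf v) = univ)
    {x0 : ℂ} (hx0 : Rf v (x0 : OnePoint ℂ) = (x0 : OnePoint ℂ)) {c1 : ℂ}
    (hc : IsCrit (Rf v) (c1 : OnePoint ℂ)) {M : Set ℂ}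
    (hM : M = {w : ℂ | (w : OnePoint ℂ) ∈ closure (range fun n : ℕ => (Rf v)^[n] (c1 : OnePoint ℂ))})
    (hPi : OnePoint.infty ∉ closure (range fun n : ℕ => (Rf v)^[n] (c1 : OnePoint ℂ))) (hM0 : (0 : ℂ) ∉ M) (hM1 : (1 : ℂ) ∉ M)
    (hK : (KK (Rf v) ≠ univ ∧ FinQ v) ∨ ∃ e : ℂ, (pol v.2).eval e ≠ 0 ∧ dg (pol v.1) (pol v.2) e = 0 ∧
      gg (pol v.1) (pol v.2) e ∉ M ∧ gg (pol v.1) (pol v.2) e ≠ 0 ∧ gg (pol v.1) (pol v.2) e ≠ 1 ∧
      (∀ n : ℕ, (Rf v)^[n] ((0 : ℂ) : OnePoint ℂ) ≠ (e : OnePoint ℂ)) ∧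
      (∀ n : ℕ, (Rf v)^[n] ((1 : ℂ) : OnePoint ℂ) ≠ (e : OnePoint ℂ)) ∧
      ∀ n : ℕ, (Rf v)^[n] OnePoint.infty ≠ (e : OnePoint ℂ)) :
    ∃ (G : Set ℂ) (μ : ℂ → ℂ) (C1 : ℝ), MeasurableSet G ∧ (∀ z ∈ G, (pol v.2).eval z ≠ 0) ∧
      (∀ z : ℂ, (pol v.2).eval z ≠ 0 → (gg (pol v.1) (pol v.2) z ∈ G ↔ z ∈ G)) ∧
      (∀ z ∈ G, ∀ N' : Set ℂ, IsOpen N' → M ⊆ N' → ∀ ε : ℝ, 0 < ε → ∀ n0 : ℕ, ∃ n ≥ n0,
        (1 - ε) * n ≤ ({k | k < n ∧ (gg (pol v.1) (pol v.2))^[k] z ∈ N'} : Set ℕ).ncard) ∧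
      Measurable μ ∧ (∀ z, ‖μ z‖ ≤ C1) ∧ (∀ z, z ∉ G → μ z = 0) ∧
      (∀ᵐ z : ℂ, (pol v.2).eval z ≠ 0 → μ (gg (pol v.1) (pol v.2) z) *
        (starRingEnd ℂ) (dg (pol v.1) (pol v.2) z) = μ z * dg (pol v.1) (pol v.2) z) ∧
      0 < volume {z | μ z ≠ 0} := by
  have hcont : Continuous (Rf v) := rat_continuous hcop
  obtain ⟨hMc, hc1M, hMb, hMi, hMm⟩ := at_orb hcont hM hPi
  have hcr : Cr (pol v.1) (pol v.2) c1 := ⟨hMb c1 hc1M, crit_coe hc⟩
  obtain ⟨hh, V, δ1, -, -, -, hδ1, hLD⟩ := ld_g hd hcop hdeg hup hJ hx0 (ncr_all hd hcop hdeg hup hJ) hMc hMi hMb hc1M hcr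
  -- the two cases
  have hcase : ∃ N3 Ω : Set ℂ, IsOpen N3 ∧ M ⊆ N3 ∧ IsOpen Ω ∧ (∀ w, w ∉ M → w ∈ closure Ω) ∧
      ∀ (N : Set ℂ) (C : ℝ), N ⊆ N3 → (0 : ℂ) ∉ N → (1 : ℂ) ∉ N → KN KA rA M N univ C →
      ((∀ K ⊆ Ω, K ⊆ N → IsCompact K → ∀ (μ : ℂ → ℂ) (C1 : ℝ), Measurable μ → (∀ z, ‖μ z‖ ≤ C1) →
      (∀ᵐ z : ℂ, z ∈ pre (pol v.1) (pol v.2) univ → μ (gg (pol v.1) (pol v.2) z) * (starRingEnd ℂ) (dg (pol v.1) (pol v.2) z) =
        μ z * dg (pol v.1) (pol v.2) z) →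
      ∀ᵐ z : ℂ, z ∈ (univ : Set ℂ) → μ z ≠ 0 → ∀ᶠ n : ℕ in atTop, z ∉ (pre (pol v.1) (pol v.2))^[n] K) ∨
        NMs (pol v.1) (pol v.2) KA M N univ Ω) := by
    rcases hK with ⟨hK, p, hp, hfin⟩ | ⟨e, hbe, hde, hgM, hg0, hg1, he0, he1, hei⟩
    · have hpc : p ≠ (c1 : OnePoint ℂ) := by
        intro he
        refine not_pre hd hcop hdeg hup hc (hJ ▸ mem_univ _) 0 1 one_pos ?_
        show (c1 : OnePoint ℂ) = Rf v (c1 : OnePoint ℂ)
        rw [← he, hp]
      have hPK : closure (range fun n : ℕ => (Rf v)^[n] (c1 : OnePoint ℂ)) ⊆ KK (Rf v) ∪ {(c1 : OnePoint ℂ)} := by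
        refine closure_minimal ?_ (isClosed_closure.union isClosed_singleton)
        rintro _ ⟨n, rfl⟩
        rcases Nat.eq_zero_or_pos n with h1 | h1
        · right
          show (Rf v)^[n] (c1 : OnePoint ℂ) = (c1 : OnePoint ℂ)
          rw [h1]
          rfl
        · left
          exact subset_closure ⟨(c1 : OnePoint ℂ), hc, hJ ▸ mem_univ _, n, h1, rfl⟩
      have hN3o : IsOpen {w : ℂ | (w : OnePoint ℂ) ≠ p ∨ p ∈ KK (Rf v)} := by
        by_cases h1 : p ∈ KK (Rf v)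
        · have h2 : {w : ℂ | (w : OnePoint ℂ) ≠ p ∨ p ∈ KK (Rf v)} = univ := by
            rw [eq_univ_iff_forall]
            exact fun w => Or.inr h1
          rw [h2]
          exact isOpen_univ
        · have h2 : {w : ℂ | (w : OnePoint ℂ) ≠ p ∨ p ∈ KK (Rf v)} = (fun w : ℂ => (w : OnePoint ℂ)) ⁻¹' {p}ᶜ := by
            ext w
            exact ⟨fun h3 => h3.resolve_right h1, fun h3 => Or.inl h3⟩
          rw [h2]
          exact isOpen_compl_singleton.preimage OnePoint.continuous_coe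
      have hKi : interior (KK (Rf v)) = ∅ := by
        rcases Pool.Agent.H39.HO.kj_int hd hcop hdeg with h1 | h1
        · exact h1
        · exact absurd h1 hK
      obtain ⟨Ω, hΩ⟩ : ∃ Ω : Set ℂ, Ω = (fun w : ℂ => (w : OnePoint ℂ)) ⁻¹' (KK (Rf v))ᶜ := ⟨_, rfl⟩
      have hΩo : IsOpen Ω := by
        rw [hΩ]
        exact (IsClosed.isOpen_compl (s := KK (Rf v)) (self := isClosed_closure)).preimage OnePoint.continuous_coe
      refine ⟨{w : ℂ | (w : OnePoint ℂ) ≠ p ∨ p ∈ KK (Rf v)}, Ω, hN3o, ?_, hΩo, ?_, ?_⟩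
      · intro x hx
        by_contra hcon
        have h1 : ¬ ((x : OnePoint ℂ) ≠ p ∨ p ∈ KK (Rf v)) := hcon
        push Not at h1
        have h2 : (x : OnePoint ℂ) ∈ closure (range fun n : ℕ => (Rf v)^[n] (c1 : OnePoint ℂ)) := by
          rw [hM] at hx
          exact hx
        rw [h1.1] at h2
        rcases hPK h2 with h3 | h3
        · exact h1.2 h3
        · exact hpc h3
      · intro w _
        rw [mem_closure_iff_nhds]
        intro V hV
        obtain ⟨V', hV', hVo, hwV⟩ := _root_.mem_nhds_iff.1 hV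
        by_contra hcon
        have h1 : (fun w : ℂ => (w : OnePoint ℂ)) '' V' ⊆ KK (Rf v) := by
          rintro _ ⟨y, hy, rfl⟩
          by_contra h2
          refine hcon ⟨y, hV' hy, ?_⟩
          rw [hΩ]
          exact h2
        have h2 : (w : OnePoint ℂ) ∈ interior (KK (Rf v)) :=
          interior_maximal h1 (OnePoint.isOpenEmbedding_coe.isOpenMap _ hVo) ⟨w, hwV, rfl⟩
        rw [hKi] at h2
        exact h2
      · intro N _ hNN3 _ _ _
        left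
        intro K hKΩ hKN hKc μ C1 hm hb hinv
        have h1 := hfin μ C1 hm hb (by
          filter_upwards [hinv] with z hz hzb
          exact hz ⟨hzb, mem_univ _⟩) ((fun w : ℂ => (w : OnePoint ℂ)) '' K) (hKc.image OnePoint.continuous_coe).isClosed (by
          rintro _ ⟨w, hw, rfl⟩
          have h2 : (w : OnePoint ℂ) ∉ KK (Rf v) := by
            have h3 := hKΩ hw
            rw [hΩ] at h3
            exact h3
          refine ⟨h2, fun h3 => ?_⟩
          rcases hNN3 (hKN hw) with h5 | h5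
          · exact h5 h3
          · refine h2 ?_
            have h6 : (w : OnePoint ℂ) = p := h3
            rw [h6]
            exact h5)
        filter_upwards [h1] with z hz _ hμz
        filter_upwards [hz hμz] with n hn hnp
        obtain ⟨h2, h3⟩ := pre_it n z hnp
        apply hn
        refine ⟨(gg (pol v.1) (pol v.2))^[n] z, h3, ?_⟩
        exact h2.symm
    · exact ⟨univ, Mᶜ, isOpen_univ, subset_univ _, hMc.isClosed.isOpen_compl, fun w hw => subset_closure hw,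
        fun N C _ h0 h1 hkn => Or.inr (nm_zero hd hcop hdeg hup hJ hMc.isClosed hMi hMb hbe hde hgM hg0 hg1 he0 he1 hei hkn h0 h1)⟩
  obtain ⟨N3, Ω, hN3o, hMN3, hΩo, hΩd, hcase⟩ := hcase
  -- the neighbourhood
  obtain ⟨R, hR⟩ := hMc.isBounded.subset_ball (0 : ℂ)
  obtain ⟨s1, hs1, hb1⟩ := Metric.isOpen_iff.1 hMc.isClosed.isOpen_compl 0 hM0
  obtain ⟨s2, hs2, hb2⟩ := Metric.isOpen_iff.1 hMc.isClosed.isOpen_compl 1 hM1
  obtain ⟨s, hs, hss1, hss2⟩ : ∃ s : ℝ, 0 < s ∧ s < s1 ∧ s < s2 := ⟨min s1 s2 / 2, by positivity, by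
    have := min_le_left s1 s2
    linarith, by
    have := min_le_right s1 s2
    linarith⟩
  obtain ⟨N, hN⟩ : ∃ N : Set ℂ, N = (N3 ∩ ball 0 R) ∩ ({z | s < ‖z‖} ∩ {z | s < ‖z - 1‖}) := ⟨_, rfl⟩
  have hNo : IsOpen N := by
    rw [hN]
    exact (hN3o.inter isOpen_ball).inter
      ((isOpen_lt continuous_const continuous_norm).inter (isOpen_lt continuous_const (continuous_id.sub continuous_const).norm))
  have hMN : M ⊆ N := by
    intro x hx
    rw [hN]
    refine ⟨⟨hMN3 hx, hR hx⟩, ?_, ?_⟩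
    · show s < ‖x‖
      by_contra hlt
      rw [not_lt] at hlt
      exact hb1 (by rw [mem_ball_zero_iff]; linarith) hx
    · show s < ‖x - 1‖
      by_contra hlt
      rw [not_lt] at hlt
      exact hb2 (by rw [mem_ball, dist_eq_norm]; linarith) hx
  obtain ⟨C, hL⟩ := hLD N s hNo (isBounded_ball.subset fun z hz => by
    rw [hN] at hz
    exact hz.1.2) hMN hs (fun z hz => by
    rw [hN] at hz
    exact (show s < ‖z‖ from hz.2.1).le) (fun z hz => by
    rw [hN] at hz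
    exact (show s < ‖z - 1‖ from hz.2.2).le) δ1 hδ1 le_rfl
  obtain ⟨G, μ, C1, hGm, hGB, hGi, hGv, hμm, hμb, hμ0, hμi, hμp⟩ := lod hL hΩo (fun w hw => hΩd w hw.2)
    (hcase N C (fun w hw => by
      rw [hN] at hw
      exact hw.1.1) (fun h0 => by
      rw [hN] at h0
      have h1 : s < ‖(0 : ℂ)‖ := h0.2.1
      rw [norm_zero] at h1
      linarith) (fun h0 => by
      rw [hN] at h0
      have h1 : s < ‖(1 : ℂ) - 1‖ := h0.2.2
      rw [sub_self, norm_zero] at h1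
      linarith) hL.kn)
  have hGb : ∀ z ∈ G, (pol v.2).eval z ≠ 0 := fun z hz => bn_b (hGB hz)
  refine ⟨G, μ, C1, hGm, hGb, hGi, ?_, hμm, hμb, hμ0, hμi, hμp⟩
  have hit : ∀ z ∈ G, ∀ n : ℕ, (gg (pol v.1) (pol v.2))^[n] z ∈ G := by
    intro z hz n
    induction n with
    | zero => exact hz
    | succ n ih =>
      rw [Function.iterate_succ_apply']
      exact (hGi _ (hGb _ ih)).2 ih
  intro z hz N' hN' hMN' ε hε n0
  obtain ⟨n, hn, h1⟩ := hGv z hz N' hN' hMN' ε hε n0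
  refine ⟨n, hn, h1.trans (le_of_eq ?_)⟩
  rw [vr_card]
  have h2 : ({k | k < n ∧ z ∈ (pre (pol v.1) (pol v.2))^[k] N'} : Set ℕ) =
      {k | k < n ∧ (gg (pol v.1) (pol v.2))^[k] z ∈ N'} := by
    ext k
    refine and_congr_right fun _ => ?_
    rw [mem_pre]
    exact ⟨fun h3 => h3.2, fun h3 => ⟨fun i _ => hGb _ (hit z hz i), h3⟩⟩
  rw [h2]

/-- THEOREM ATT+, Julia set = sphere -/
theorem at_sph {v : E d} (hd : 2 ≤ d) (hcop : IsCoprime (pol v.1) (pol v.2))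
    (hdeg : max (pol v.1).natDegree (pol v.2).natDegree = d) (hup : ¬ Up v) (hJ : JS (Rf v) = univ)
    {c : OnePoint ℂ} (hc : IsCrit (Rf v) c) : AT (Rf v) c := by
  have hd1 : 1 ≤ max (pol v.1).natDegree (pol v.2).natDegree := by rw [hdeg]; omega
  by_cases hPu : closure (range fun n : ℕ => (Rf v)^[n] c) = univ
  · -- dense orbit
    refine ⟨univ, fun x _ => hJ ▸ mem_univ x, fun x => ⟨fun _ => mem_univ _, fun _ => mem_univ _⟩, ?_, ?_, ?_⟩
    · exact MeasurableSet.univ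
    · have e : {z : ℂ | (z : OnePoint ℂ) ∈ (univ : Set (OnePoint ℂ))} = univ := rfl
      rw [e]
      exact isOpen_univ.measure_pos volume ⟨0, mem_univ _⟩
    · intro x _
      have hcont : Continuous (Rf v) := rat_continuous hcop
      refine udn_lim hcont ?_
      intro O hO hLO ε hε n0
      refine ⟨n0, le_rfl, ?_⟩
      have h1 : O = univ := by
        rw [eq_univ_iff_forall]
        intro y
        exact hLO (hPu ▸ mem_univ y)
      have h2 : ({k | k < n0 ∧ (Rf v)^[k] x ∈ O} : Set ℕ) = (Finset.range n0 : Set ℕ) := by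
        ext k
        rw [h1, Finset.coe_range]
        exact ⟨fun h3 => h3.1, fun h3 => ⟨h3, mem_univ _⟩⟩
      rw [h2, Set.ncard_coe_finset, Finset.card_range]
      have h3 : (0 : ℝ) ≤ n0 := Nat.cast_nonneg _
      nlinarith
  obtain ⟨q1, q2, q3, n12, n13, n23, e1, e2, e3⟩ := three_fix hd hcop hdeg hup hJ
  obtain ⟨L, G, φ, K, hch, -, f0, f1, fi⟩ := ch_three (d := d) hd n12 n13 n23
  obtain ⟨hcop1, hdeg1, hφ⟩ := hch.conj v hcop hdeg
  have hup1 : ¬ Up (L v) := fun h =>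
    hup (up_chart hd hch.cG hch.invL hch.invR (fun v h3 h4 => (hch.conj v h3 h4).2.2) hcop hdeg h)
  have hJS1 : JS (Rf (L v)) = univ := by
    rw [eq_univ_iff_forall]
    intro y
    obtain ⟨x, rfl⟩ := φ.surjective y
    exact (js_conj φ (fun y => (hφ y).symm) x).2 (hJ ▸ mem_univ x)
  have h0 : Rf (L v) ((0 : ℂ) : OnePoint ℂ) = ((0 : ℂ) : OnePoint ℂ) := by rw [← f0, hφ, e1]
  have h1 : Rf (L v) ((1 : ℂ) : OnePoint ℂ) = ((1 : ℂ) : OnePoint ℂ) := by rw [← f1, hφ, e2]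
  have hi : Rf (L v) OnePoint.infty = OnePoint.infty := by rw [← fi, hφ, e3]
  have hc1 : IsCrit (Rf (L v)) (φ c) := (isCrit_conj φ hφ c).2 hc
  have hcont1 : Continuous (Rf (L v)) := rat_continuous hcop1
  have hconj1 : ∀ (n : ℕ) (x : OnePoint ℂ), (Rf (L v))^[n] (φ x) = φ ((Rf v)^[n] x) := by
    intro n
    induction n with
    | zero => exact fun _ => rfl
    | succ n ih =>
      intro x
      rw [Function.iterate_succ_apply, hφ, ih, Function.iterate_succ_apply]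
  -- the closure of the orbit
  obtain ⟨P, hP⟩ : ∃ P : Set (OnePoint ℂ), P = closure (range fun n : ℕ => (Rf (L v))^[n] (φ c)) := ⟨_, rfl⟩
  have hPc : IsClosed P := hP ▸ isClosed_closure
  have hcPo : φ c ∈ P := by
    rw [hP]
    exact subset_closure ⟨0, rfl⟩
  have hPf : ∀ x ∈ P, Rf (L v) x ∈ P := by
    intro x hx
    rw [hP] at hx ⊢
    refine closure_mono ?_ (image_closure_subset_closure_image hcont1 ⟨_, hx, rfl⟩)
    rintro _ ⟨_, ⟨n, rfl⟩, rfl⟩
    exact ⟨n + 1, Function.iterate_succ_apply' _ _ _⟩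
  obtain ⟨y0, hy0⟩ : ∃ y0, y0 ∉ P := by
    by_contra hcon
    push Not at hcon
    refine hPu (eq_univ_iff_forall.2 fun x => ?_)
    have h2 : P ⊆ φ.symm ⁻¹' closure (range fun n : ℕ => (Rf v)^[n] c) := by
      rw [hP]
      refine closure_minimal ?_ (isClosed_closure.preimage φ.symm.continuous)
      rintro _ ⟨n, rfl⟩
      show φ.symm ((Rf (L v))^[n] (φ c)) ∈ closure (range fun n : ℕ => (Rf v)^[n] c)
      rw [hconj1, φ.symm_apply_apply]
      exact subset_closure ⟨n, rfl⟩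
    have h3 := h2 (hcon (φ x))
    have h4 : φ.symm (φ x) ∈ closure (range fun n : ℕ => (Rf v)^[n] c) := h3
    rwa [φ.symm_apply_apply] at h4
  -- three points
  have hd1' : 1 ≤ max (pol (L v).1).natDegree (pol (L v).2).natDegree := by rw [hdeg1]; omega
  have hfin : {x | IsCrit (Rf (L v)) x}.Finite := crit_finite hcop1 hd1'
  obtain ⟨Q, hQ⟩ : ∃ Q : Set (OnePoint ℂ), Q = (⋃ e ∈ {x | IsCrit (Rf (L v)) x}, ⋃ n : ℕ, {z | (Rf (L v))^[n] z = e}) ∪
      Rf (L v) '' {x | IsCrit (Rf (L v)) x} := ⟨_, rfl⟩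
  have hQc : Q.Countable := by
    rw [hQ]
    refine (hfin.countable.biUnion fun e _ => Set.countable_iUnion fun n => ?_).union (hfin.image _).countable
    exact (cnt_le (by omega) hcop1 hdeg1 n e).1.countable
  have hinf : {w : ℂ | (w : OnePoint ℂ) ∉ P ∧ (w : OnePoint ℂ) ∉ Q}.Infinite := by
    have hO : IsOpen {w : ℂ | (w : OnePoint ℂ) ∉ P} := hPc.isOpen_compl.preimage OnePoint.continuous_coe
    obtain ⟨w, hw⟩ : ∃ w : ℂ, (w : OnePoint ℂ) ∉ P :=
      OnePoint.denseRange_coe.exists_mem_open hPc.isOpen_compl ⟨y0, hy0⟩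
    intro hf
    have h2 : volume {w : ℂ | (w : OnePoint ℂ) ∉ P} = 0 := by
      refine measure_mono_null ?_ (measure_union_null (hf.measure_zero volume) ((countable_coe hQc).measure_zero volume))
      intro z hz
      by_cases hzQ : (z : OnePoint ℂ) ∈ Q
      · exact Or.inr hzQ
      · exact Or.inl ⟨hz, hzQ⟩
    exact (hO.measure_pos volume ⟨w, hw⟩).ne' h2
  obtain ⟨t, ht, htc⟩ := hinf.exists_subset_card_eq 3
  obtain ⟨r1, r2, r3, m12, m13, m23, rfl⟩ := Finset.card_eq_three.1 htc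
  have hr1 : (r1 : OnePoint ℂ) ∉ P ∧ (r1 : OnePoint ℂ) ∉ Q := ht (by simp)
  have hr2 : (r2 : OnePoint ℂ) ∉ P ∧ (r2 : OnePoint ℂ) ∉ Q := ht (by simp)
  have hr3 : (r3 : OnePoint ℂ) ∉ P ∧ (r3 : OnePoint ℂ) ∉ Q := ht (by simp)
  have hQn : ∀ r : OnePoint ℂ, r ∉ Q → ∀ e, IsCrit (Rf (L v)) e → (∀ n : ℕ, (Rf (L v))^[n] r ≠ e) ∧ Rf (L v) e ≠ r := by
    intro r hr e he
    rw [hQ, mem_union, not_or] at hr
    refine ⟨fun n hn => hr.1 (mem_iUnion₂.2 ⟨e, he, mem_iUnion.2 ⟨n, hn⟩⟩), fun hn => hr.2 ⟨e, he, hn⟩⟩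
  obtain ⟨L1, G1, φ1, K1, hch1, hcomp, g0, g1, gi⟩ := ch_three (d := d) hd (OnePoint.coe_injective.ne m12)
    (OnePoint.coe_injective.ne m13) (OnePoint.coe_injective.ne m23)
  obtain ⟨hcop2, hdeg2, hφ1⟩ := hch1.conj (L v) hcop1 hdeg1
  obtain ⟨-, -, hQ2⟩ := finq_comp hd hcomp hcop1 hdeg1 ⟨OnePoint.infty, hi, finp_s hd hcop1 hdeg1 hup1 hJS1 h0 h1 hi⟩
  have hup2 : ¬ Up (L1 (L v)) := fun h =>
    hup1 (up_chart hd hch1.cG hch1.invL hch1.invR (fun v h3 h4 => (hch1.conj v h3 h4).2.2) hcop1 hdeg1 h)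
  have hJS2 : JS (Rf (L1 (L v))) = univ := by
    rw [eq_univ_iff_forall]
    intro y
    obtain ⟨x, rfl⟩ := φ1.surjective y
    exact (js_conj φ1 (fun y => (hφ1 y).symm) x).2 (hJS1 ▸ mem_univ x)
  obtain ⟨c1, hcc1⟩ : ∃ c1 : ℂ, (c1 : OnePoint ℂ) = φ1 (φ c) := by
    refine OnePoint.ne_infty_iff_exists.1 fun h2 => hr3.1 ?_
    rw [← gi] at h2
    rw [← φ1.injective h2]
    exact hcPo
  have hc2 : IsCrit (Rf (L1 (L v))) (c1 : OnePoint ℂ) := by
    rw [hcc1]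
    exact (isCrit_conj φ1 hφ1 (φ c)).2 hc1
  have hconjn : ∀ (n : ℕ) (x : OnePoint ℂ), (Rf (L1 (L v)))^[n] (φ1 x) = φ1 ((Rf (L v))^[n] x) := by
    intro n
    induction n with
    | zero => exact fun _ => rfl
    | succ n ih =>
      intro x
      rw [Function.iterate_succ_apply, hφ1, ih, Function.iterate_succ_apply]
  have hPP : ∀ x, φ1 x ∈ closure (range fun n : ℕ => (Rf (L1 (L v)))^[n] (c1 : OnePoint ℂ)) → x ∈ P := by
    intro x hx
    have h2 : closure (range fun n : ℕ => (Rf (L1 (L v)))^[n] (c1 : OnePoint ℂ)) ⊆ φ1.symm ⁻¹' P := by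
      refine closure_minimal ?_ (hPc.preimage φ1.symm.continuous)
      rintro _ ⟨n, rfl⟩
      show φ1.symm ((Rf (L1 (L v)))^[n] (c1 : OnePoint ℂ)) ∈ P
      rw [hcc1, hconjn, φ1.symm_apply_apply, hP]
      exact subset_closure ⟨n, rfl⟩
    have h3 : φ1.symm (φ1 x) ∈ P := h2 hx
    rwa [φ1.symm_apply_apply] at h3
  obtain ⟨M, hM⟩ : ∃ M : Set ℂ, M = {w : ℂ | (w : OnePoint ℂ) ∈ closure (range fun n : ℕ => (Rf (L1 (L v)))^[n] (c1 : OnePoint ℂ))} :=
    ⟨_, rfl⟩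
  have hPi : OnePoint.infty ∉ closure (range fun n : ℕ => (Rf (L1 (L v)))^[n] (c1 : OnePoint ℂ)) := by
    rw [← gi]
    exact fun h2 => hr3.1 (hPP _ h2)
  have hM0 : (0 : ℂ) ∉ M := by
    rw [hM]
    show ¬ ((0 : ℂ) : OnePoint ℂ) ∈ closure (range fun n : ℕ => (Rf (L1 (L v)))^[n] (c1 : OnePoint ℂ))
    rw [← g0]
    exact fun h2 => hr1.1 (hPP _ h2)
  have hM1 : (1 : ℂ) ∉ M := by
    rw [hM]
    show ¬ ((1 : ℂ) : OnePoint ℂ) ∈ closure (range fun n : ℕ => (Rf (L1 (L v)))^[n] (c1 : OnePoint ℂ))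
    rw [← g1]
    exact fun h2 => hr2.1 (hPP _ h2)
  -- a finite fixed point
  obtain ⟨x0, hx0⟩ : ∃ x0 : ℂ, Rf (L1 (L v)) (x0 : OnePoint ℂ) = (x0 : OnePoint ℂ) := by
    by_cases h2 : φ1 ((0 : ℂ) : OnePoint ℂ) = OnePoint.infty
    · obtain ⟨x, hx⟩ : ∃ x : ℂ, (x : OnePoint ℂ) = φ1 ((1 : ℂ) : OnePoint ℂ) := by
        refine OnePoint.ne_infty_iff_exists.1 fun h3 => ?_
        have h4 := OnePoint.coe_injective (φ1.injective (h2.trans h3.symm))
        exact zero_ne_one h4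
      exact ⟨x, by rw [hx, hφ1, h1]⟩
    · obtain ⟨x, hx⟩ := OnePoint.ne_infty_iff_exists.1 h2
      exact ⟨x, by rw [hx, hφ1, h0]⟩
  -- the two cases
  have hcase : (KK (Rf (L1 (L v))) ≠ univ ∧ FinQ (L1 (L v))) ∨ ∃ e : ℂ, (pol (L1 (L v)).2).eval e ≠ 0 ∧
      dg (pol (L1 (L v)).1) (pol (L1 (L v)).2) e = 0 ∧
      gg (pol (L1 (L v)).1) (pol (L1 (L v)).2) e ∉ M ∧ gg (pol (L1 (L v)).1) (pol (L1 (L v)).2) e ≠ 0 ∧
      gg (pol (L1 (L v)).1) (pol (L1 (L v)).2) e ≠ 1 ∧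
      (∀ n : ℕ, (Rf (L1 (L v)))^[n] ((0 : ℂ) : OnePoint ℂ) ≠ (e : OnePoint ℂ)) ∧
      (∀ n : ℕ, (Rf (L1 (L v)))^[n] ((1 : ℂ) : OnePoint ℂ) ≠ (e : OnePoint ℂ)) ∧
      ∀ n : ℕ, (Rf (L1 (L v)))^[n] OnePoint.infty ≠ (e : OnePoint ℂ) := by
    by_cases hall : ∀ e, IsCrit (Rf (L v)) e → Rf (L v) e ∈ P
    · left
      refine ⟨fun h2 => hy0 ?_, hQ2⟩
      have h3 : KK (Rf (L v)) ⊆ P := by
        refine closure_minimal ?_ hPc
        rintro _ ⟨e, he, -, n, hn, rfl⟩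
        obtain ⟨m, rfl⟩ : ∃ m, n = m + 1 := ⟨n - 1, by omega⟩
        rw [Function.iterate_succ_apply]
        have h4 : ∀ m : ℕ, (Rf (L v))^[m] (Rf (L v) e) ∈ P := by
          intro m
          induction m with
          | zero => exact hall e he
          | succ m ih =>
            rw [Function.iterate_succ_apply']
            exact hPf _ ih
        exact h4 m
      apply h3
      refine (kj_img hφ1 y0).1 ?_
      show φ1 y0 ∈ KK (Rf (L1 (L v)))
      rw [h2]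
      exact mem_univ _
    · right
      push Not at hall
      obtain ⟨e', he', heP⟩ := hall
      have q1 := hQn _ hr1.2 e' he'
      have q2 := hQn _ hr2.2 e' he'
      have q3 := hQn _ hr3.2 e' he'
      obtain ⟨e, hee⟩ : ∃ e : ℂ, (e : OnePoint ℂ) = φ1 e' := by
        refine OnePoint.ne_infty_iff_exists.1 fun h2 => ?_
        rw [← gi] at h2
        exact q3.1 0 (φ1.injective h2).symm
      have hRe : Rf (L1 (L v)) (e : OnePoint ℂ) = φ1 (Rf (L v) e') := by rw [hee, hφ1]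
      have hbe : (pol (L1 (L v)).2).eval e ≠ 0 := by
        intro hb
        have h3 : Rf (L1 (L v)) (e : OnePoint ℂ) = OnePoint.infty := by
          show rat (pol (L1 (L v)).1) (pol (L1 (L v)).2) _ = _
          rw [rat_coe]
          unfold pt
          rw [if_pos hb]
        rw [hRe, ← gi] at h3
        exact q3.2 (φ1.injective h3)
      have hge : ((gg (pol (L1 (L v)).1) (pol (L1 (L v)).2) e : ℂ) : OnePoint ℂ) = φ1 (Rf (L v) e') := by
        rw [← hRe]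
        exact (rat_coe_of_ne hbe).symm
      have hcre : IsCrit (Rf (L1 (L v))) (e : OnePoint ℂ) := by
        rw [hee]
        exact (isCrit_conj φ1 hφ1 e').2 he'
      refine ⟨e, hbe, ?_, ?_, ?_, ?_, ?_, ?_, ?_⟩
      · unfold Pool.Agent.H61.TT.dg
        rw [show (ww (pol (L1 (L v)).1) (pol (L1 (L v)).2)).eval e = 0 from crit_coe hcre, zero_div]
      · intro h2
        rw [hM] at h2
        have h3 : ((gg (pol (L1 (L v)).1) (pol (L1 (L v)).2) e : ℂ) : OnePoint ℂ) ∈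
          closure (range fun n : ℕ => (Rf (L1 (L v)))^[n] (c1 : OnePoint ℂ)) := h2
        rw [hge] at h3
        exact heP (hPP _ h3)
      · intro h2
        rw [h2, ← g0] at hge
        exact q1.2 (φ1.injective hge).symm
      · intro h2
        rw [h2, ← g1] at hge
        exact q2.2 (φ1.injective hge).symm
      · intro n hn
        rw [← g0, hconjn, hee] at hn
        exact q1.1 n (φ1.injective hn)
      · intro n hn
        rw [← g1, hconjn, hee] at hn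
        exact q2.1 n (φ1.injective hn)
      · intro n hn
        rw [← gi, hconjn, hee] at hn
        exact q3.1 n (φ1.injective hn)
  obtain ⟨G', μ, C1, hGm, hGb, hGi, hGv, -, -, hμ0, -, hμp⟩ :=
    at_chart hd hcop2 hdeg2 hup2 hJS2 hx0 hc2 hM hPi hM0 hM1 hcase
  have hcu : Continuous (Rf (L1 (L v))) := rat_continuous hcop2
  obtain ⟨-, -, hMb, -, hMm⟩ := at_orb hcu hM hPi
  have hch2 := ch_comp hch hch1
  refine at_of (φ := φ.trans φ1) hcop hch2.bil (hch2.conj v hcop hdeg).2.2 (c := c) (c1 := c1) hcc1.symm hMb hMm hGm ?_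
    (fun z _ => hJS2 ▸ mem_univ _) (fun n y _ => hJS2 ▸ mem_univ _) hGb hGi hGv
  refine hμp.trans_le (measure_mono fun z hz => ?_)
  by_contra hzG
  exact hz (hμ0 z hzG)

end Pool.Agent.H15.LOC
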