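import Mathlib
import Pool.Agent.H35.EX.BlowLip
import Pool.Agent.H35.EX.Chord

/-!
# THEOREM ATT+ (think 2069): upper density one on the sphere

`UDn f L x`: the orbit of `x` visits every neighbourhood of `L` with upper density one. `udn_lim`: it is enough to have it for the orbit closure of `c`; then it holds for the limit set of `c`.
-/

set_option autoImplicit false

open Filter Topology Metric Set MeasureTheory

namespace Pool.Agent.H15.LOC

/-- the orbit of `x` visits every neighbourhood of `L` with upper density one -/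
def UDn (f : OnePoint ℂ → OnePoint ℂ) (L : Set (OnePoint ℂ)) (x : OnePoint ℂ) : Prop :=
  ∀ O : Set (OnePoint ℂ), IsOpen O → L ⊆ O → ∀ ε : ℝ, 0 < ε → ∀ n0 : ℕ, ∃ n ≥ n0,
    (1 - ε) * n ≤ ({k | k < n ∧ f^[k] x ∈ O} : Set ℕ).ncard

/-- the limit set -/
def Lim (f : OnePoint ℂ → OnePoint ℂ) (c : OnePoint ℂ) : Set (OnePoint ℂ) := {y | MapClusterPt y atTop fun n : ℕ => f^[n] c}

/-- a neighbourhood of the limit set contains the images of the orbit closure -/
theorem lim_it {f : OnePoint ℂ → OnePoint ℂ} (hf : Continuous f) {c : OnePoint ℂ} {O : Set (OnePoint ℂ)} (hO : IsOpen O)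
    (hL : Lim f c ⊆ O) : ∃ m : ℕ, closure (range fun n : ℕ => f^[n] c) ⊆ f^[m] ⁻¹' O := by
  have hfm : ∀ m : ℕ, Continuous (f^[m]) := fun m => hf.iterate m
  -- the limit set is invariant
  have hinv : ∀ y ∈ Lim f c, ∀ m : ℕ, f^[m] y ∈ Lim f c := by
    intro y hy m
    have h1 : MapClusterPt (f^[m] y) atTop (f^[m] ∘ fun n : ℕ => f^[n] c) := hy.continuousAt_comp (hfm m).continuousAt
    have h2 : (f^[m] ∘ fun n : ℕ => f^[n] c) = (fun n : ℕ => f^[n] c) ∘ fun n => m + n := by
      funext n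
      show f^[m] (f^[n] c) = f^[m + n] c
      rw [Function.iterate_add_apply]
    rw [h2] at h1
    have h3 : Tendsto (fun n : ℕ => m + n) atTop atTop := tendsto_atTop_mono (fun n => Nat.le_add_left n m) tendsto_id
    exact h1.of_comp h3
  -- the orbit is in `O` from some time on
  obtain ⟨m, hm⟩ : ∃ m : ℕ, ∀ n ≥ m, f^[n] c ∈ O := by
    by_contra hcon
    push Not at hcon
    have h1 : ∃ᶠ n : ℕ in atTop, f^[n] c ∈ Oᶜ := frequently_atTop.2 fun m => by
      obtain ⟨n, hn, h⟩ := hcon m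
      exact ⟨n, hn, h⟩
    obtain ⟨y, hy, hyc⟩ := hO.isClosed_compl.isCompact.exists_mapClusterPt_of_frequently h1
    exact hy (hL hyc)
  refine ⟨m, fun y hy => ?_⟩
  -- a point of the closure is on the orbit or in the limit set
  have h1 : (∃ n : ℕ, f^[n] c = y) ∨ y ∈ Lim f c := by
    by_cases h2 : ∃ n : ℕ, f^[n] c = y
    · exact Or.inl h2
    · refine Or.inr ?_
      show MapClusterPt y atTop fun n : ℕ => f^[n] c
      rw [mapClusterPt_iff_frequently]
      intro V hV
      rw [frequently_atTop]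
      intro n1
      -- remove the first `n1` points
      have h3 : V ∩ ((fun n : ℕ => f^[n] c) '' (Iio n1))ᶜ ∈ 𝓝 y := by
        refine inter_mem hV ((((finite_Iio n1).image _).isClosed.isOpen_compl).mem_nhds ?_)
        rintro ⟨n, -, hn⟩
        exact h2 ⟨n, hn⟩
      obtain ⟨z, hz, n, hn⟩ := mem_closure_iff_nhds.1 hy _ h3
      refine ⟨n, ?_, ?_⟩
      · by_contra h4
        exact hz.2 ⟨n, not_le.1 h4, hn⟩
      · simp only at hn
        rw [hn]
        exact hz.1
  show f^[m] y ∈ O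
  rcases h1 with ⟨n, rfl⟩ | h1
  · rw [← Function.iterate_add_apply]
    exact hm _ (by omega)
  · exact hL (hinv y h1 m)

/-- points whose image has the property -/
theorem udn_pre {f : OnePoint ℂ → OnePoint ℂ} {L : Set (OnePoint ℂ)} {x : OnePoint ℂ} {m : ℕ} (h : UDn f L (f^[m] x)) :
    UDn f L x := by
  intro O hO hL ε hε n0
  obtain ⟨n1, hn1⟩ := exists_nat_gt (2 * m / ε)
  obtain ⟨n, hn, h1⟩ := h O hO hL (ε / 2) (by linarith) (max n0 n1)
  refine ⟨n, (le_max_left _ _).trans hn, ?_⟩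
  have hfin : ({k | k < n ∧ f^[k] x ∈ O} : Set ℕ).Finite := (finite_Iio n).subset fun k hk => hk.1
  have h2 : ({k | k < n ∧ f^[k] (f^[m] x) ∈ O} : Set ℕ).ncard ≤ ({k | k < n ∧ f^[k] x ∈ O} : Set ℕ).ncard + m := by
    have h3 : (fun k => k + m) '' {k | k < n ∧ f^[k] (f^[m] x) ∈ O} ⊆
        {k | k < n ∧ f^[k] x ∈ O} ∪ ((fun k => n + k) '' Iio m) := by
      rintro _ ⟨k, ⟨hk, hk2⟩, rfl⟩
      by_cases h4 : k + m < n
      · refine Or.inl ⟨h4, ?_⟩
        rw [Function.iterate_add_apply]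
        exact hk2
      · refine Or.inr ⟨k + m - n, ?_, ?_⟩
        · show k + m - n < m
          omega
        · show n + (k + m - n) = k + m
          omega
    have h4 := Set.ncard_le_ncard h3 (hfin.union ((finite_Iio m).image _))
    rw [Set.ncard_image_of_injective _ (fun k k' hk => by simpa using hk)] at h4
    refine h4.trans ((Set.ncard_union_le _ _).trans ?_)
    have h5 : ((fun k => n + k) '' Iio m : Set ℕ).ncard ≤ m := by
      refine (Set.ncard_image_le (finite_Iio m)).trans (le_of_eq ?_)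
      rw [Set.ncard_eq_toFinset_card']
      simp
    omega
  have h3 : (({k | k < n ∧ f^[k] (f^[m] x) ∈ O} : Set ℕ).ncard : ℝ) ≤
      (({k | k < n ∧ f^[k] x ∈ O} : Set ℕ).ncard : ℝ) + m := by exact_mod_cast h2
  have h4 : (n1 : ℝ) ≤ n := by exact_mod_cast (le_max_right _ _).trans hn
  have h5 : (m : ℝ) ≤ ε / 2 * n := by
    have h6 : 2 * m / ε ≤ n := hn1.le.trans h4
    rw [div_le_iff₀ hε] at h6
    linarith
  have h6 : (1 - ε) * n = (1 - ε / 2) * n - ε / 2 * n := by ring
  rw [h6]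
  linarith

/-- shifts -/
theorem udn_lim {f : OnePoint ℂ → OnePoint ℂ} (hf : Continuous f) {c x : OnePoint ℂ}
    (h : UDn f (closure (range fun n : ℕ => f^[n] c)) x) : UDn f (Lim f c) x := by
  intro O hO hL ε hε n0
  obtain ⟨m, hm⟩ := lim_it hf hO hL
  obtain ⟨n1, hn1⟩ := exists_nat_gt (2 * m / ε)
  obtain ⟨n, hn, h1⟩ := h (f^[m] ⁻¹' O) (hO.preimage (hf.iterate m)) hm (ε / 2) (by linarith) (max n0 n1)
  refine ⟨n, (le_max_left _ _).trans hn, ?_⟩
  have hfin : ({k | k < n ∧ f^[k] x ∈ O} : Set ℕ).Finite := (finite_Iio n).subset fun k hk => hk.1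
  -- the shift
  have h2 : ({k | k < n ∧ f^[k] x ∈ f^[m] ⁻¹' O} : Set ℕ).ncard ≤ ({k | k < n ∧ f^[k] x ∈ O} : Set ℕ).ncard + m := by
    have h3 : (fun k => m + k) '' {k | k < n ∧ f^[k] x ∈ f^[m] ⁻¹' O} ⊆
        {k | k < n ∧ f^[k] x ∈ O} ∪ ((fun k => n + k) '' Iio m) := by
      rintro _ ⟨k, ⟨hk, hk2⟩, rfl⟩
      by_cases h4 : m + k < n
      · refine Or.inl ⟨h4, ?_⟩
        rw [Function.iterate_add_apply]
        exact hk2
      · refine Or.inr ⟨m + k - n, ?_, ?_⟩
        · show m + k - n < m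
          omega
        · show n + (m + k - n) = m + k
          omega
    have h4 := Set.ncard_le_ncard h3 (hfin.union ((finite_Iio m).image _))
    rw [Set.ncard_image_of_injective _ (fun k k' hk => by simpa using hk)] at h4
    refine h4.trans ((Set.ncard_union_le _ _).trans ?_)
    have h5 : ((fun k => n + k) '' Iio m : Set ℕ).ncard ≤ m := by
      refine (Set.ncard_image_le (finite_Iio m)).trans (le_of_eq ?_)
      rw [Set.ncard_eq_toFinset_card']
      simp
    omega
  have h3 : (({k | k < n ∧ f^[k] x ∈ f^[m] ⁻¹' O} : Set ℕ).ncard : ℝ) ≤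
      (({k | k < n ∧ f^[k] x ∈ O} : Set ℕ).ncard : ℝ) + m := by exact_mod_cast h2
  have h4 : (n1 : ℝ) ≤ n := by exact_mod_cast (le_max_right _ _).trans hn
  have h5 : (m : ℝ) ≤ ε / 2 * n := by
    have h6 : 2 * m / ε ≤ n := hn1.le.trans h4
    rw [div_le_iff₀ hε] at h6
    linarith
  have h6 : (1 - ε) * n = (1 - ε / 2) * n - ε / 2 * n := by ring
  rw [h6]
  linarith

end Pool.Agent.H15.LOC
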